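import Pool.Agent.Helper446.Oracle

/-!
See the statement at the end of the file.
-/

namespace Pool.Agent.Helper446.Approx

open Encodable Pool.Agent.Helper446.RE Pool.Agent.Helper446.Oracle

theorem exB_mono {q : ℕ → Bool} {s t : ℕ} (hst : s ≤ t) (h : exB q s = true) :
    exB q t = true := by
  rw [exB_iff] at *
  obtain ⟨i, hi, h⟩ := h
  exact ⟨i, by omega, h⟩

/-- Running maximum. -/
def runMax (L : ℕ → ℕ) : ℕ → ℕ
  | 0 => L 0
  | s + 1 => max (runMax L s) (L (s + 1))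

theorem le_runMax (L : ℕ → ℕ) (s : ℕ) : L s ≤ runMax L s := by
  cases s with
  | zero => exact le_rfl
  | succ s => exact le_max_right _ _

theorem runMax_le (L : ℕ → ℕ) (hL : ∀ s, L s ≤ s) (s : ℕ) : runMax L s ≤ s := by
  induction s with
  | zero => exact hL 0
  | succ s ih => exact max_le (by omega) (hL _)

theorem runMax_const (L : ℕ → ℕ) (s : ℕ) (h : ∀ t, s ≤ t → L t = L s) (t : ℕ) (hst : s ≤ t) :
    runMax L t = runMax L s := by
  induction t, hst using Nat.le_induction with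
  | base => rfl
  | succ t hst ih =>
    show max (runMax L t) (L (t + 1)) = _
    rw [ih, h (t + 1) (by omega)]
    exact max_eq_left (le_runMax L s)

/-- A dominating function computable in a c.e. set `E` yields a computable non-decreasing
approximation to a dominating function, with certificates c.e. in `E`. -/
theorem exists_approx (E : Set ℕ) (hE : REPred (· ∈ E)) (g : ℕ → ℕ)
    (hg : REIn E fun p : ℕ × ℕ => g p.1 = p.2)
    (hdom : ∀ f : ℕ → ℕ, Computable f → ∃ n0, ∀ n, n0 ≤ n → f n ≤ g n) :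
    ∃ H : ℕ → ℕ → ℕ, Computable₂ H ∧ (∀ x s, H x s ≤ H x (s + 1)) ∧ (∀ x s, H x s ≤ s) ∧
      (∀ x, ∃ s0, ∀ s, s0 ≤ s → H x s = H x s0) ∧
      (∀ f : ℕ → ℕ, Computable f → ∃ n0, ∀ x, n0 ≤ x → ∃ s, f x ≤ H x s) ∧
      ∃ St : ℕ → ℕ → Prop, REIn E (fun p : ℕ × ℕ => St p.1 p.2) ∧
        (∀ x s, St x s → ∀ t, s ≤ t → H x t = H x s) ∧ ∀ x, ∃ s, St x s := by
  obtain ⟨q, hq, hqE⟩ := re_iff.1 hE
  obtain ⟨R, hR, hS⟩ := hg
  obtain ⟨q', hq', hRq⟩ := RE.re_iff.1 hR
  -- codes `p = pair v (pair c t)`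
  let cc : ℕ → List ℕ × List ℕ := fun k =>
    (decode (α := List ℕ × List ℕ) k.unpair.2.unpair.1).getD ([], [])
  have hcc : Computable cc :=
    Primrec.option_getD.to_comp.comp (by fun_prop) (by fun_prop)
  let ES : ℕ → ℕ → Bool := fun s x => exB (q x) s
  have hES : Computable fun p : ℕ × ℕ => ES p.1 p.2 := by
    refine computable_exB (α := ℕ × ℕ) (q := fun p n => q p.2 n) (f := fun p => p.1) ?_
      (by fun_prop)
    exact hq.comp (f := q) (g := fun x : (ℕ × ℕ) × ℕ => x.1.2) (h := fun x : (ℕ × ℕ) × ℕ => x.2)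
      (by fun_prop) (by fun_prop)
  have hESmono : ∀ s t x, s ≤ t → ES s x = true → ES t x = true := fun s t x hst h =>
    exB_mono hst h
  have hESsub : ∀ s x, ES s x = true → x ∈ E := fun s x h => by
    obtain ⟨i, -, h⟩ := (exB_iff _ _).1 h
    exact (hqE x).2 ⟨i, h⟩
  have hESlim : ∀ x, ∀ᶠ s in Filter.atTop, (ES s x = true ↔ x ∈ E) := by
    intro x
    by_cases hx : x ∈ E
    · obtain ⟨n, hn⟩ := (hqE x).1 hx
      filter_upwards [Filter.eventually_gt_atTop n] with s hs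
      exact ⟨fun _ => hx, fun _ => (exB_iff _ _).2 ⟨n, hs, hn⟩⟩
    · filter_upwards with s
      exact ⟨fun h => absurd (hESsub s x h) hx, fun h => absurd h hx⟩
  -- good codes
  let GP : (ℕ × ℕ) × ℕ → Prop := fun a =>
    q' ((a.1.1, a.1.2.unpair.1), cc a.1.2) a.1.2.unpair.2.unpair.2 = true ∧
      (∀ x ∈ (cc a.1.2).1, ES a.2 x = true) ∧ ∀ x ∈ (cc a.1.2).2, ES a.2 x = false
  have hq'' : Computable fun a : (ℕ × ℕ) × ℕ =>
      q' ((a.1.1, a.1.2.unpair.1), cc a.1.2) a.1.2.unpair.2.unpair.2 :=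
    hq'.comp (g := fun a : (ℕ × ℕ) × ℕ => ((a.1.1, a.1.2.unpair.1), cc a.1.2))
      (h := fun a : (ℕ × ℕ) × ℕ => a.1.2.unpair.2.unpair.2) (by fun_prop) (by fun_prop)
  have hESx : Computable fun x : ((ℕ × ℕ) × ℕ) × ℕ => ES x.1.2 x.2 :=
    hES.comp (g := fun x : ((ℕ × ℕ) × ℕ) × ℕ => (x.1.2, x.2)) (by fun_prop)
  have hGP : ComputablePred GP := by
    refine cp_of_re ?_ ?_
    · refine RE.and (RE.eq hq'' (by fun_prop)) (RE.and ?_ ?_)
      · refine RE.all_mem (p := fun (a : (ℕ × ℕ) × ℕ) (x : ℕ) => ES a.2 x = true) ?_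
          (by fun_prop)
        exact RE.eq hESx (by fun_prop)
      · refine RE.all_mem (p := fun (a : (ℕ × ℕ) × ℕ) (x : ℕ) => ES a.2 x = false) ?_
          (by fun_prop)
        exact RE.eq hESx (by fun_prop)
    · have h1 : REPred fun a : (ℕ × ℕ) × ℕ =>
          q' ((a.1.1, a.1.2.unpair.1), cc a.1.2) a.1.2.unpair.2.unpair.2 = false ∨
          ((∃ x ∈ (cc a.1.2).1, ES a.2 x = false) ∨ ∃ x ∈ (cc a.1.2).2, ES a.2 x = true) := by
        refine RE.or (RE.eq hq'' (by fun_prop)) (RE.or ?_ ?_)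
        · refine RE.ex_mem (p := fun (a : (ℕ × ℕ) × ℕ) (x : ℕ) => ES a.2 x = false) ?_
            (by fun_prop)
          exact RE.eq hESx (by fun_prop)
        · refine RE.ex_mem (p := fun (a : (ℕ × ℕ) × ℕ) (x : ℕ) => ES a.2 x = true) ?_
            (by fun_prop)
          exact RE.eq hESx (by fun_prop)
      refine h1.of_eq fun a => ?_
      simp only [GP, not_and_or, not_forall, Bool.not_eq_true, Bool.not_eq_false, exists_prop]
  obtain ⟨G, hG, hGe⟩ := ComputablePred.computable_iff.1 hGP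
  have hGiff : ∀ n p s, G ((n, p), s) = true ↔ GP ((n, p), s) := fun n p s => by
    rw [hGe]
  have hex : ∀ n s, ∃ p, G ((n, p), s) = true ∨ p = s := fun n s => ⟨s, Or.inr rfl⟩
  let L : ℕ → ℕ → ℕ := fun n s => Nat.find (hex n s)
  have hLle : ∀ n s, L n s ≤ s := fun n s => Nat.find_min' (hex n s) (Or.inr rfl)
  have hLiff : ∀ n s p, L n s = p ↔ (G ((n, p), s) = true ∨ p = s) ∧
      ∀ i < p, G ((n, i), s) = false ∧ i ≠ s := by
    intro n s p
    show Nat.find (hex n s) = p ↔ _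
    rw [Nat.find_eq_iff]
    simp only [not_or, Bool.not_eq_true]
  have hL : Computable fun x : ℕ × ℕ => L x.1 x.2 := by
    refine computable_of_graph ?_
    have h1 : REPred fun x : (ℕ × ℕ) × ℕ => (G ((x.1.1, x.2), x.1.2) = true ∨ x.2 = x.1.2) ∧
      ∀ i < x.2, G ((x.1.1, i), x.1.2) = false ∧ i ≠ x.1.2 := by
      refine RE.and (RE.or (RE.eq ?_ (by fun_prop)) (RE.eq (by fun_prop) (by fun_prop))) ?_
      · exact hG.comp (g := fun x : (ℕ × ℕ) × ℕ => ((x.1.1, x.2), x.1.2)) (by fun_prop)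
      · refine RE.all_lt (p := fun (x : (ℕ × ℕ) × ℕ) (i : ℕ) =>
          G ((x.1.1, i), x.1.2) = false ∧ i ≠ x.1.2) ?_ (by fun_prop)
        refine RE.and (RE.eq ?_ (by fun_prop)) (RE.ne (by fun_prop) (by fun_prop))
        exact hG.comp (g := fun x : ((ℕ × ℕ) × ℕ) × ℕ => ((x.1.1.1, x.2), x.1.1.2))
          (by fun_prop)
    exact h1.of_eq fun x => (hLiff _ _ _).symm
  let H : ℕ → ℕ → ℕ := fun n s => runMax (L n) s
  have hH : Computable₂ H := by
    have h := Computable.nat_rec (α := ℕ × ℕ) (f := fun a => a.2) (g := fun a => L a.1 0)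
      (h := fun (a : ℕ × ℕ) (y : ℕ × ℕ) => max y.2 (L a.1 (y.1 + 1))) (by fun_prop)
      (hL.comp (g := fun a : ℕ × ℕ => (a.1, 0)) (by fun_prop)) (by
        have h2 : Computable fun x : (ℕ × ℕ) × (ℕ × ℕ) => L x.1.1 (x.2.1 + 1) :=
          hL.comp (g := fun x : (ℕ × ℕ) × (ℕ × ℕ) => (x.1.1, x.2.1 + 1)) (by fun_prop)
        unfold Computable₂
        fun_prop)
    refine h.of_eq fun a => ?_
    obtain ⟨n, s⟩ := a
    show _ = runMax (L n) s
    induction s with
    | zero => rfl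
    | succ s ih =>
      show max _ _ = max _ _
      rw [← ih]
  -- the limit
  let P : ℕ → ℕ → Prop := fun n p =>
    q' ((n, p.unpair.1), cc p) p.unpair.2.unpair.2 = true ∧ Ok E (cc p)
  have hPdec : ∀ n, DecidablePred (P n) := fun n => Classical.decPred _
  have hPg : ∀ n p, P n p → p.unpair.1 = g n := by
    rintro n p ⟨h1, h2⟩
    exact ((hS (n, p.unpair.1)).2 ⟨cc p, (hRq _).2 ⟨_, h1⟩, h2⟩).symm
  have hPex : ∀ n, ∃ p, P n p := by
    intro n
    obtain ⟨c, hc, hok⟩ := (hS (n, g n)).1 rfl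
    obtain ⟨t, ht⟩ := (hRq ((n, g n), c)).1 hc
    refine ⟨Nat.pair (g n) (Nat.pair (encode c) t), ?_⟩
    have hck : cc (Nat.pair (g n) (Nat.pair (encode c) t)) = c := by
      simp only [cc, Nat.unpair_pair]
      rw [encodek, Option.getD_some]
    simp only [P, Nat.unpair_pair, hck]
    exact ⟨ht, hok⟩
  -- stable stages
  have hstab : ∀ p, ∀ᶠ s in Filter.atTop,
      ∀ x ∈ (cc p).1 ++ (cc p).2, (ES s x = true ↔ x ∈ E) := by
    intro p
    have := (Filter.eventually_all_finite (List.finite_toSet ((cc p).1 ++ (cc p).2))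
      (l := Filter.atTop) (p := fun x s => (ES s x = true ↔ x ∈ E))).2
      (fun x _ => hESlim x)
    exact this
  have hGst : ∀ n p s, (∀ x ∈ (cc p).1 ++ (cc p).2, (ES s x = true ↔ x ∈ E)) →
      (G ((n, p), s) = true ↔ P n p) := by
    intro n p s h
    rw [hGiff]
    constructor
    · rintro ⟨h1, h2, h3⟩
      refine ⟨h1, fun x hx => ?_, fun x hx => ?_⟩
      · exact (h x (List.mem_append_left _ hx)).1 (h2 x hx)
      · intro hxE
        have := (h x (List.mem_append_right _ hx)).2 hxE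
        rw [h3 x hx] at this
        exact Bool.noConfusion this
    · rintro ⟨h1, h2, h3⟩
      refine ⟨h1, fun x hx => ?_, fun x hx => ?_⟩
      · exact (h x (List.mem_append_left _ hx)).2 (h2 x hx)
      · have := mt (h x (List.mem_append_right _ hx)).1 (h3 x hx)
        simpa using this
  have hstab2 : ∀ n, ∃ s0, ∀ s, s0 ≤ s → L n s = Nat.find (hPex n) ∧ L n s < s ∧
      ∀ p < L n s + 1, ∀ x ∈ (cc p).1 ++ (cc p).2, (x ∉ E ∨ ES s x = true) := by
    intro n
    have h1 : ∀ᶠ s in Filter.atTop, ∀ p ∈ Set.Iic (Nat.find (hPex n)),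
        ∀ x ∈ (cc p).1 ++ (cc p).2, (ES s x = true ↔ x ∈ E) :=
      (Filter.eventually_all_finite (Set.finite_Iic _)).2 fun p _ => hstab p
    obtain ⟨s0, hs0⟩ := Filter.eventually_atTop.1
      (h1.and (Filter.eventually_gt_atTop (Nat.find (hPex n))))
    refine ⟨s0, fun s hs => ?_⟩
    obtain ⟨h2, h3⟩ := hs0 s hs
    have hLs : L n s = Nat.find (hPex n) := by
      rw [hLiff]
      refine ⟨Or.inl ((hGst n _ s (h2 _ (Set.mem_Iic.2 le_rfl))).2 (Nat.find_spec (hPex n))),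
        fun i hi => ⟨?_, by omega⟩⟩
      have h4 := Nat.find_min (hPex n) hi
      have h5 := mt (hGst n i s (h2 i (Set.mem_Iic.2 hi.le))).1 h4
      simpa using h5
    refine ⟨hLs, by omega, fun p hp x hx => ?_⟩
    rw [hLs] at hp
    have h6 := h2 p (Set.mem_Iic.2 (by omega)) x hx
    by_cases hxE : x ∈ E
    · exact Or.inr (h6.2 hxE)
    · exact Or.inl hxE
  refine ⟨H, hH, fun x s => le_max_left _ _, fun x s => runMax_le _ (hLle x) s, ?_, ?_,
    fun n s => L n s < s ∧ ∀ p < L n s + 1, ∀ x ∈ (cc p).1 ++ (cc p).2, (x ∉ E ∨ ES s x = true),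
    ?_, ?_, ?_⟩
  · intro n
    obtain ⟨s0, hs0⟩ := hstab2 n
    refine ⟨s0, fun s hs => runMax_const (L n) s0 (fun t ht => ?_) s hs⟩
    rw [(hs0 t ht).1, (hs0 s0 le_rfl).1]
  · intro f hf
    obtain ⟨n0, hn0⟩ := hdom f hf
    refine ⟨n0, fun n hn => ?_⟩
    obtain ⟨s0, hs0⟩ := hstab2 n
    refine ⟨s0, ?_⟩
    calc f n ≤ g n := hn0 n hn
      _ = (Nat.find (hPex n)).unpair.1 := (hPg n _ (Nat.find_spec (hPex n))).symm
      _ ≤ Nat.find (hPex n) := Nat.unpair_left_le _
      _ = L n s0 := (hs0 s0 le_rfl).1.symm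
      _ ≤ H n s0 := le_runMax _ _
  · refine REIn.and (REIn.of_re (RE.lt hL (by fun_prop))) ?_
    refine REIn.all_lt (S := fun (a : ℕ × ℕ) (p : ℕ) =>
      ∀ x ∈ (cc p).1 ++ (cc p).2, (x ∉ E ∨ ES a.2 x = true)) ?_ (by fun_prop)
    refine REIn.all_mem (S := fun (a : (ℕ × ℕ) × ℕ) (x : ℕ) => (x ∉ E ∨ ES a.1.2 x = true))
      ?_ (by fun_prop)
    refine REIn.or (REIn.not_mem (by fun_prop)) (REIn.of_re (RE.eq ?_ (by fun_prop)))
    exact hES.comp (g := fun x : ((ℕ × ℕ) × ℕ) × ℕ => (x.1.1.2, x.2)) (by fun_prop)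
  · rintro n s ⟨h1, h2⟩ t hst
    refine runMax_const (L n) s (fun t ht => ?_) t hst
    have hkey : ∀ p, p ≤ L n s → (G ((n, p), t) = true ↔ G ((n, p), s) = true) := by
      intro p hp
      have h3 : ∀ x ∈ (cc p).1 ++ (cc p).2, ES t x = ES s x := by
        intro x hx
        rcases h2 p (by omega) x hx with h4 | h4
        · have h5 : ES t x = false := by
            by_contra hcon
            exact h4 (hESsub t x (by simpa using hcon))
          have h6 : ES s x = false := by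
            by_contra hcon
            exact h4 (hESsub s x (by simpa using hcon))
          rw [h5, h6]
        · rw [h4, hESmono s t x ht h4]
      rw [hGiff, hGiff]
      constructor
      · rintro ⟨h4, h5, h6⟩
        refine ⟨h4, fun x hx => ?_, fun x hx => ?_⟩
        · exact (h3 x (List.mem_append_left _ hx)).symm.trans (h5 x hx)
        · exact (h3 x (List.mem_append_right _ hx)).symm.trans (h6 x hx)
      · rintro ⟨h4, h5, h6⟩
        refine ⟨h4, fun x hx => ?_, fun x hx => ?_⟩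
        · exact (h3 x (List.mem_append_left _ hx)).trans (h5 x hx)
        · exact (h3 x (List.mem_append_right _ hx)).trans (h6 x hx)
    obtain ⟨h3, h4⟩ := (hLiff n s (L n s)).1 rfl
    rw [hLiff]
    refine ⟨Or.inl ((hkey _ le_rfl).2 ?_), fun i hi => ⟨?_, by omega⟩⟩
    · rcases h3 with h3 | h3
      · exact h3
      · omega
    · have h5 := (h4 i hi).1
      by_contra hcon
      have h6 := (hkey i hi.le).1 (by simpa using hcon)
      rw [h5] at h6
      exact Bool.noConfusion h6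
  · intro n
    obtain ⟨s0, hs0⟩ := hstab2 n
    exact ⟨s0, (hs0 s0 le_rfl).2⟩

end Pool.Agent.Helper446.Approx
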