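import Pool.Agent.Helper446.Comp

/-!
A computable splitting tree in a computable atomless Boolean algebra.
-/

namespace Pool.Agent.Helper446.BTree

open Encodable Pool.Agent.Helper446.RE

/-- A computable splitting tree in a computable atomless Boolean algebra. -/
theorem exists_btree {A : Type} [BooleanAlgebra A] [Primcodable A]
    (hsup : Computable₂ fun a b : A => a ⊔ b) (hinf : Computable₂ fun a b : A => a ⊓ b)
    (hcompl : Computable fun a : A => aᶜ) (hnt : (⊤ : A) ≠ ⊥)
    (hatomless : ∀ a : A, a ≠ ⊥ → ∃ b : A, b ≠ ⊥ ∧ b < a) :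
    ∃ b : List Bool → A, Computable b ∧ b [] = ⊤ ∧
      (∀ σ, b (σ ++ [false]) ⊔ b (σ ++ [true]) = b σ) ∧
      (∀ σ, b (σ ++ [false]) ⊓ b (σ ++ [true]) = ⊥) ∧
      (∀ σ, b σ ≠ ⊥) ∧
      ∀ a : A, ∃ n : ℕ, ∀ σ : List Bool, σ.length = n → b σ ≤ a ∨ b σ ⊓ a = ⊥ := by
  classical
  let an : ℕ → A := fun n => (decode n : Option A).getD ⊥
  have han : Computable an :=
    (Primrec.option_getD.to_comp.comp Computable.decode (Computable.const ⊥))
  have cinf : ∀ {α : Type} [Primcodable α] {f g : α → A}, Computable f → Computable g →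
      Computable fun x => f x ⊓ g x := fun hf hg => hinf.comp hf hg
  have csup : ∀ {α : Type} [Primcodable α] {f g : α → A}, Computable f → Computable g →
      Computable fun x => f x ⊔ g x := fun hf hg => hsup.comp hf hg
  have ccompl : ∀ {α : Type} [Primcodable α] {f : α → A}, Computable f →
      Computable fun x => (f x)ᶜ := fun hf => hcompl.comp hf
  let r : ℕ × A → A × A → Prop := fun x y =>
    (x.2 = ⊥ ∧ y = (⊥, ⊥)) ∨
      (x.2 ≠ ⊥ ∧ y.1 ≠ ⊥ ∧ y.2 ≠ ⊥ ∧ y.1 ⊔ y.2 = x.2 ∧ y.1 ⊓ y.2 = ⊥ ∧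
        (x.2 ⊓ an x.1 = ⊥ ∨ x.2 ⊓ (an x.1)ᶜ = ⊥ ∨
          (y.1 = x.2 ⊓ an x.1 ∧ y.2 = x.2 ⊓ (an x.1)ᶜ)))
  have hr : REPred fun z : (ℕ × A) × (A × A) => r z.1 z.2 := by
    have e1 : Computable fun z : (ℕ × A) × (A × A) => z.1.2 := by fun_prop
    have e2 : Computable fun z : (ℕ × A) × (A × A) => z.2.1 := by fun_prop
    have e3 : Computable fun z : (ℕ × A) × (A × A) => z.2.2 := by fun_prop
    have e4 : Computable fun z : (ℕ × A) × (A × A) => z.2 := by fun_prop
    have e5 : Computable fun z : (ℕ × A) × (A × A) => an z.1.1 :=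
      han.comp (by fun_prop : Computable fun z : (ℕ × A) × (A × A) => z.1.1)
    refine or (and (eq e1 (Computable.const ⊥)) (eq e4 (Computable.const (⊥, ⊥)))) ?_
    refine and (ne e1 (Computable.const ⊥)) (and (ne e2 (Computable.const ⊥))
      (and (ne e3 (Computable.const ⊥)) (and (eq (csup e2 e3) e1)
        (and (eq (cinf e2 e3) (Computable.const ⊥)) ?_))))
    refine or (eq (cinf e1 e5) (Computable.const ⊥))
      (or (eq (cinf e1 (ccompl e5)) (Computable.const ⊥)) ?_)
    exact and (eq e2 (cinf e1 e5)) (eq e3 (cinf e1 (ccompl e5)))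
  have hex : ∀ x, ∃ y, r x y := by
    rintro ⟨n, e⟩
    by_cases he : e = ⊥
    · exact ⟨(⊥, ⊥), Or.inl ⟨he, rfl⟩⟩
    by_cases h1 : e ⊓ an n = ⊥ ∨ e ⊓ (an n)ᶜ = ⊥
    · obtain ⟨c, hc, hce⟩ := hatomless e he
      have hr0 : e ⊓ cᶜ ≠ ⊥ := by
        intro h
        have : e ≤ c := by
          rw [← sdiff_eq, sdiff_eq_bot_iff] at h
          exact h
        exact absurd hce (not_lt_of_ge this)
      refine ⟨(c, e ⊓ cᶜ), Or.inr ⟨he, hc, hr0, ?_, ?_, ?_⟩⟩
      · show c ⊔ e ⊓ cᶜ = e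
        rw [sup_inf_left, sup_compl_eq_top, inf_top_eq]
        exact sup_eq_right.2 hce.le
      · show c ⊓ (e ⊓ cᶜ) = ⊥
        rw [inf_left_comm, inf_compl_eq_bot, inf_bot_eq]
      · rcases h1 with h1 | h1
        · exact Or.inl h1
        · exact Or.inr (Or.inl h1)
    · push Not at h1
      refine ⟨(e ⊓ an n, e ⊓ (an n)ᶜ), Or.inr ⟨he, h1.1, h1.2, ?_, ?_, Or.inr (Or.inr ⟨rfl, rfl⟩)⟩⟩
      · show e ⊓ an n ⊔ e ⊓ (an n)ᶜ = e
        rw [← inf_sup_left, sup_compl_eq_top, inf_top_eq]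
      · show e ⊓ an n ⊓ (e ⊓ (an n)ᶜ) = ⊥
        rw [inf_inf_inf_comm, inf_compl_eq_bot, inf_bot_eq]
  obtain ⟨f, hf, hdom, hspec⟩ := uniformize hr
  have hd : ∀ x, (f x).Dom := fun x => (hdom x).2 (hex x)
  let S : ℕ × A → A × A := fun x => (f x).get (hd x)
  have hS : Computable S := hf.of_eq_tot fun x => Part.get_mem (hd x)
  have hSr : ∀ x, r x (S x) := fun x => hspec x _ (Part.get_mem (hd x))
  let step : ℕ × A → Bool → ℕ × A := fun s c => (s.1 + 1, bif c then (S s).2 else (S s).1)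
  let st : List Bool → ℕ × A := fun σ => σ.foldl step (0, ⊤)
  have hst : Computable st := by
    have h := list_foldl (α := List Bool) (β := Bool) (σ := ℕ × A) (f := fun σ => σ)
      (g := fun _ => (0, ⊤)) (h := fun _ p => step p.1 p.2) Computable.id (Computable.const _) (by
        unfold Computable₂
        have e1 : Computable fun p : List Bool × ((ℕ × A) × Bool) => S p.2.1 :=
          hS.comp (by fun_prop : Computable fun p : List Bool × ((ℕ × A) × Bool) => p.2.1)
        have e2 : Computable fun p : List Bool × ((ℕ × A) × Bool) => (S p.2.1).2 :=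
          Computable.snd.comp e1
        have e3 : Computable fun p : List Bool × ((ℕ × A) × Bool) => (S p.2.1).1 :=
          Computable.fst.comp e1
        have e4 : Computable fun p : List Bool × ((ℕ × A) × Bool) => p.2.2 := by fun_prop
        exact (Computable.succ.comp
          (by fun_prop : Computable fun p : List Bool × ((ℕ × A) × Bool) => p.2.1.1)).pair
          (Computable.cond e4 e2 e3))
    exact h
  have hstep : ∀ σ c, st (σ ++ [c]) = step (st σ) c := by
    intro σ c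
    simp [st, List.foldl_append]
  have hlen : ∀ σ, (st σ).1 = σ.length := by
    intro σ
    induction σ using List.reverseRecOn with
    | nil => rfl
    | append_singleton σ c ih =>
      rw [hstep]
      simp [step, ih]
  have hne : ∀ σ, (st σ).2 ≠ ⊥ := by
    intro σ
    induction σ using List.reverseRecOn with
    | nil => exact hnt
    | append_singleton σ c ih =>
      rw [hstep]
      rcases hSr (st σ) with h | h
      · exact absurd h.1 ih
      · cases c
        · exact h.2.1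
        · exact h.2.2.1
  have hgood : ∀ σ, (S (st σ)).1 ⊔ (S (st σ)).2 = (st σ).2 ∧ (S (st σ)).1 ⊓ (S (st σ)).2 = ⊥ ∧
        ((st σ).2 ⊓ an (st σ).1 = ⊥ ∨ (st σ).2 ⊓ (an (st σ).1)ᶜ = ⊥ ∨
          ((S (st σ)).1 = (st σ).2 ⊓ an (st σ).1 ∧ (S (st σ)).2 = (st σ).2 ⊓ (an (st σ).1)ᶜ)) := by
    intro σ
    rcases hSr (st σ) with h | h
    · exact absurd h.1 (hne σ)
    · exact h.2.2.2
  refine ⟨fun σ => (st σ).2, Computable.snd.comp hst, rfl, ?_, ?_, hne, ?_⟩
  · intro σ
    show (st (σ ++ [false])).2 ⊔ (st (σ ++ [true])).2 = (st σ).2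
    rw [hstep, hstep]
    exact (hgood σ).1
  · intro σ
    show (st (σ ++ [false])).2 ⊓ (st (σ ++ [true])).2 = ⊥
    rw [hstep, hstep]
    exact (hgood σ).2.1
  · intro a
    refine ⟨encode a + 1, fun σ hσ => ?_⟩
    obtain ⟨τ, c, rfl⟩ : ∃ τ c, σ = τ ++ [c] := by
      rcases List.eq_nil_or_concat' σ with h | ⟨τ, c, h⟩
      · subst h; simp at hσ
      · exact ⟨τ, c, h⟩
    have hτ : τ.length = encode a := by simpa using hσ
    have h1 : an (st τ).1 = a := by
      rw [hlen, hτ]
      simp [an]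
    obtain ⟨g1, g2, g3⟩ := hgood τ
    rw [h1] at g3
    have hle : (st (τ ++ [c])).2 ≤ (st τ).2 := by
      rw [hstep, ← g1]
      cases c
      · exact le_sup_left
      · exact le_sup_right
    show (st (τ ++ [c])).2 ≤ a ∨ (st (τ ++ [c])).2 ⊓ a = ⊥
    rcases g3 with g3 | g3 | ⟨g3, g4⟩
    · right
      rw [← le_bot_iff, ← g3]
      exact inf_le_inf_right a hle
    · left
      rw [← sdiff_eq, sdiff_eq_bot_iff] at g3
      exact hle.trans g3
    · rw [hstep]
      cases c
      · left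
        show (S (st τ)).1 ≤ a
        rw [g3]; exact inf_le_right
      · right
        show (S (st τ)).2 ⊓ a = ⊥
        rw [g4, inf_assoc, inf_comm aᶜ a, inf_compl_eq_bot, inf_bot_eq]

end Pool.Agent.Helper446.BTree
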