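import Mathlib

/-!
Definitions: initial segments, classes, extendible nodes, degrees.
-/

namespace Pool.Agent.Helper446.Defs

/-- The initial segment of length `n` of the point `x` of Cantor space. -/
def seg (x : ℕ → Bool) (n : ℕ) : List Bool := (List.range n).map x

/-- `P` is a `Π⁰₁` class: the set of infinite paths through a computable tree of binary
strings. -/
def IsPi01 (P : Set (ℕ → Bool)) : Prop :=
  ∃ T : Set (List Bool), ComputablePred (fun σ => σ ∈ T) ∧
    (∀ σ τ : List Bool, σ <+: τ → τ ∈ T → σ ∈ T) ∧ P = {x | ∀ n, seg x n ∈ T}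

/-- The tree of extendible nodes of `P`. -/
def Ext (P : Set (ℕ → Bool)) : Set (List Bool) := {σ | ∃ x ∈ P, seg x σ.length = σ}

/-- The quotient `L(P)^*` of the lattice of `Π⁰₁` subclasses of `P` modulo finite differences is
finite: finitely many `Π⁰₁` subclasses represent all of them up to finite differences. -/
def FiniteStar (P : Set (ℕ → Bool)) : Prop :=
  ∃ S : Set (Set (ℕ → Bool)), S.Finite ∧ (∀ Y ∈ S, IsPi01 Y ∧ Y ⊆ P) ∧
    ∀ X, IsPi01 X → X ⊆ P → ∃ Y ∈ S, (symmDiff X Y).Finite

/-- The (distributive, bounded) quotient lattice `L(P)^*` is a Boolean algebra: every `Π⁰₁`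
subclass of `P` has a complement modulo finite sets. -/
def BooleanStar (P : Set (ℕ → Bool)) : Prop :=
  ∀ X, IsPi01 X → X ⊆ P → ∃ Y, IsPi01 Y ∧ Y ⊆ P ∧ (X ∩ Y).Finite ∧ (P \ (X ∪ Y)).Finite

/-- The characteristic function of a set of natural numbers, with natural number values. -/
noncomputable def chiN (A : Set ℕ) (n : ℕ) : ℕ := by
  classical exact if n ∈ A then 1 else 0

/-- The characteristic function of a set of natural numbers, as an oracle. -/
noncomputable def chi (A : Set ℕ) : ℕ →. ℕ := fun n => Part.some (chiN A n)

/-- The Turing degree of a set of natural numbers, or of a set of coded objects. -/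
noncomputable def degree {α : Type} [Primcodable α] (S : Set α) : TuringDegree :=
  toAntisymmetrization TuringReducible (chi (Encodable.encode '' S))

end Pool.Agent.Helper446.Defs
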