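import Pool.Agent.Helper446.Tree

/-!
Basic facts on classes.
-/

namespace Pool.Agent.Helper446.Cls

open Encodable Pool.Agent.Helper446.RE Pool.Agent.Helper446.Defs Pool.Agent.Helper446.Tree
  Pool.Agent.Helper446.Oracle

theorem ctake {α : Type*} [Primcodable α] {f : α → List Bool} {g : α → ℕ} (hf : Computable f)
    (hg : Computable g) : Computable fun a => (f a).take (g a) :=
  Primrec.list_take.to_comp.comp hg hf

theorem prefix_getElem? {l m : List Bool} (h : l <+: m) {i : ℕ} (hi : i < l.length) :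
    m[i]? = l[i]? := by
  obtain ⟨t, rfl⟩ := h
  rw [List.getElem?_append_left hi]

theorem seg_prefix (x : ℕ → Bool) {m n : ℕ} (h : m ≤ n) : seg x m <+: seg x n := by
  rw [← seg_take x h]; exact List.take_prefix _ _

/-- A class is `Π⁰₁` iff it is the complement of a c.e. open set. -/
theorem isPi01_iff {P : Set (ℕ → Bool)} :
    IsPi01 P ↔ ∃ W : Set (List Bool), REPred (fun σ => σ ∈ W) ∧ P = {x | ∀ n, seg x n ∉ W} := by
  constructor
  · rintro ⟨T, hT, hpre, rfl⟩
    refine ⟨Tᶜ, hT.not.to_re, ?_⟩
    ext x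
    simp
  · rintro ⟨W, hW, rfl⟩
    obtain ⟨q, hq, hWq⟩ := re_iff.1 hW
    have hq2 : Computable fun x : List Bool × ℕ => q x.1 x.2 := hq
    refine ⟨{σ | ∀ i < σ.length + 1, ∀ t < σ.length + 1, q (σ.take i) t = false}, ?_, ?_, ?_⟩
    · have hqc : Computable fun x : (List Bool × ℕ) × ℕ => q (x.1.1.take x.1.2) x.2 :=
        hq2.comp (g := fun x : (List Bool × ℕ) × ℕ => (x.1.1.take x.1.2, x.2))
          (cpair (ctake (by fun_prop) (by fun_prop)) (by fun_prop))
      refine cp_of_re ?_ ?_
      · refine all_lt (p := fun (σ : List Bool) i => ∀ t < σ.length + 1,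
          q (σ.take i) t = false) ?_ (by fun_prop)
        refine all_lt (p := fun (x : List Bool × ℕ) t => q (x.1.take x.2) t = false) ?_
          (by fun_prop)
        exact RE.eq hqc (by fun_prop)
      · have h1 : REPred fun σ : List Bool => ∃ i, i < σ.length + 1 ∧ ∃ t, t < σ.length + 1 ∧
            q (σ.take i) t ≠ false := by
          refine exN (p := fun (σ : List Bool) i => i < σ.length + 1 ∧ ∃ t, t < σ.length + 1 ∧
            q (σ.take i) t ≠ false) ?_
          refine RE.and (RE.lt (by fun_prop) (by fun_prop)) ?_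
          refine exN (p := fun (x : List Bool × ℕ) t => t < x.1.length + 1 ∧
            q (x.1.take x.2) t ≠ false) ?_
          exact RE.and (RE.lt (by fun_prop) (by fun_prop)) (RE.ne hqc (by fun_prop))
        refine h1.of_eq fun σ => ?_
        simp only [Set.mem_ofPred_eq]
        push Not
        rfl
    · rintro σ τ ⟨ρ, rfl⟩ h i hi t ht
      have h1 := h i (by rw [List.length_append]; omega) t (by rw [List.length_append]; omega)
      rwa [List.take_append_of_le_length (by omega)] at h1
    · ext x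
      simp only [Set.mem_ofPred_eq, seg_length]
      constructor
      · intro h n i hi t ht
        rw [seg_take x (by omega)]
        have := h i
        rw [hWq] at this
        push Not at this
        exact Bool.eq_false_iff.2 (this t)
      · intro h i
        rw [hWq]
        push Not
        intro t
        have := h (max i t) i (by omega) t (by omega)
        rw [seg_take x (le_max_left _ _)] at this
        simp [this]

theorem IsPi01.inter {P Q : Set (ℕ → Bool)} (hP : IsPi01 P) (hQ : IsPi01 Q) :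
    IsPi01 (P ∩ Q) := by
  rw [isPi01_iff] at *
  obtain ⟨W, hW, rfl⟩ := hP
  obtain ⟨V, hV, rfl⟩ := hQ
  refine ⟨W ∪ V, RE.or hW hV, ?_⟩
  ext x
  simp only [Set.mem_inter_iff, Set.mem_ofPred_eq, Set.mem_union, not_or]
  exact ⟨fun h n => ⟨h.1 n, h.2 n⟩, fun h => ⟨fun n => (h n).1, fun n => (h n).2⟩⟩

theorem IsPi01.union {P Q : Set (ℕ → Bool)} (hP : IsPi01 P) (hQ : IsPi01 Q) :
    IsPi01 (P ∪ Q) := by
  obtain ⟨T, hT, hpT, rfl⟩ := hP
  obtain ⟨S, hS, hpS, rfl⟩ := hQ
  refine ⟨T ∪ S, ?_, ?_, ?_⟩
  · refine cp_of_re (RE.or hT.to_re hS.to_re) ?_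
    refine (RE.and hT.not.to_re hS.not.to_re).of_eq fun σ => ?_
    exact not_or.symm
  · rintro σ τ h (h1 | h1)
    exacts [Or.inl (hpT _ _ h h1), Or.inr (hpS _ _ h h1)]
  · ext x
    simp only [Set.mem_union, Set.mem_ofPred_eq]
    constructor
    · rintro (h | h) n
      exacts [Or.inl (h n), Or.inr (h n)]
    · intro h
      by_contra hcon
      push Not at hcon
      obtain ⟨⟨n, hn⟩, m, hm⟩ := hcon
      rcases h (max n m) with h1 | h1
      · exact hn (hpT _ _ (seg_prefix x (le_max_left _ _)) h1)
      · exact hm (hpS _ _ (seg_prefix x (le_max_right _ _)) h1)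

/-- All binary strings of length `n`. -/
def allStr : ℕ → List (List Bool)
  | 0 => [[]]
  | n + 1 => (allStr n).map (fun σ => false :: σ) ++ (allStr n).map (fun σ => true :: σ)

theorem mem_allStr {n : ℕ} {σ : List Bool} : σ ∈ allStr n ↔ σ.length = n := by
  induction n generalizing σ with
  | zero => simp [allStr]
  | succ n ih =>
    cases σ with
    | nil => simp [allStr]
    | cons b σ =>
      cases b <;> simp [allStr, ih]

theorem allStr_comp : Computable allStr := by
  have hstep : Primrec₂ fun (_ : ℕ) (p : ℕ × List (List Bool)) =>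
      p.2.map (fun σ => false :: σ) ++ p.2.map (fun σ => true :: σ) := by
    refine Primrec.list_append.comp ?_ ?_
    · exact Primrec.list_map (Primrec.snd.comp Primrec.snd)
        (Primrec.list_cons.comp (Primrec.const false) Primrec.snd).to₂
    · exact Primrec.list_map (Primrec.snd.comp Primrec.snd)
        (Primrec.list_cons.comp (Primrec.const true) Primrec.snd).to₂
  have h := Primrec.nat_rec' (f := fun n : ℕ => n) (g := fun _ => ([[]] : List (List Bool)))
    Primrec.id (Primrec.const _) hstep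
  refine (h.to_comp).of_eq fun n => ?_
  induction n with
  | zero => rfl
  | succ n ih => simp only [allStr]; rw [← ih]

/-- Koenig: a node with extensions in the tree of all lengths is extendible. -/
theorem exists_path {T : Set (List Bool)} (hpre : ∀ σ τ : List Bool, σ <+: τ → τ ∈ T → σ ∈ T)
    (σ : List Bool) (h : ∀ n, ∃ τ, τ.length = n ∧ σ ++ τ ∈ T) :
    ∃ x : ℕ → Bool, (∀ n, seg x n ∈ T) ∧ seg x σ.length = σ := by
  classical
  let G : List Bool → Prop := fun σ => ∀ n, ∃ τ, τ.length = n ∧ σ ++ τ ∈ T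
  have hG : ∀ σ, G σ → ∃ b : Bool, G (σ ++ [b]) := by
    intro σ hσ
    by_contra hcon
    push Not at hcon
    have h0 := hcon false
    have h1 := hcon true
    simp only [G] at h0 h1
    push Not at h0 h1
    obtain ⟨n0, h0⟩ := h0
    obtain ⟨n1, h1⟩ := h1
    obtain ⟨τ, hτ, hτT⟩ := hσ (max n0 n1 + 1)
    cases τ with
    | nil => simp at hτ
    | cons b τ =>
      rw [List.length_cons] at hτ
      have hlen : τ.length = max n0 n1 := by omega
      have key : ∀ k, k ≤ τ.length → σ ++ [b] ++ τ.take k ∈ T := by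
        intro k _
        refine hpre _ _ ?_ hτT
        rw [List.append_assoc, List.singleton_append]
        exact (List.prefix_append_right_inj _).2
          (List.cons_prefix_cons.2 ⟨rfl, List.take_prefix _ _⟩)
      cases b
      · exact h0 (τ.take n0) (by rw [List.length_take]; omega) (key n0 (by omega))
      · exact h1 (τ.take n1) (by rw [List.length_take]; omega) (key n1 (by omega))
  choose! nb hnb using hG
  let s : ℕ → List Bool := fun k => Nat.rec (motive := fun _ => List Bool) σ
    (fun _ τ => τ ++ [nb τ]) k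
  have hs0 : s 0 = σ := rfl
  have hs1 : ∀ k, s (k + 1) = s k ++ [nb (s k)] := fun k => rfl
  have hlen : ∀ k, (s k).length = σ.length + k := by
    intro k
    induction k with
    | zero => rfl
    | succ k ih => rw [hs1, List.length_append, ih]; rfl
  have hsG : ∀ k, G (s k) := by
    intro k
    induction k with
    | zero => exact h
    | succ k ih => rw [hs1]; exact hnb _ ih
  have hsT : ∀ k, s k ∈ T := by
    intro k
    obtain ⟨τ, hτ, hT⟩ := hsG k 0
    rw [List.length_eq_zero_iff] at hτ
    rwa [hτ, List.append_nil] at hT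
  have hmono : ∀ j k, j ≤ k → s j <+: s k := by
    intro j k hjk
    induction k, hjk using Nat.le_induction with
    | base => exact List.prefix_rfl
    | succ k _ ih => rw [hs1]; exact ih.trans (List.prefix_append _ _)
  let x : ℕ → Bool := fun i => ((s (i + 1))[i]?).getD false
  have hx : ∀ k, seg x (s k).length = s k := by
    intro k
    apply List.ext_getElem?
    intro i
    by_cases hi : i < (s k).length
    · rw [seg_getElem? x hi]
      simp only [x]
      have h1 : (s (i + 1))[i]? = (s k)[i]? := by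
        rcases le_total (i + 1) k with h2 | h2
        · exact (prefix_getElem? (hmono _ _ h2) (by have := hlen (i + 1); omega)).symm
        · exact prefix_getElem? (hmono _ _ h2) hi
      rw [h1, List.getElem?_eq_getElem hi]
      rfl
    · rw [List.getElem?_eq_none (by rw [seg_length]; omega), List.getElem?_eq_none (by omega)]
  refine ⟨x, fun n => ?_, ?_⟩
  · have h1 := hx n
    have h2 : n ≤ (s n).length := by rw [hlen]; omega
    rw [← seg_take x h2, h1]
    exact hpre _ _ (List.take_prefix _ _) (hsT n)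
  · exact hx 0

/-- The set of non-extendible nodes of a `Π⁰₁` class is c.e. -/
theorem ext_compl_re {P : Set (ℕ → Bool)} (hP : IsPi01 P) : REPred fun σ => σ ∉ Ext P := by
  obtain ⟨T, hT, hpre, rfl⟩ := hP
  have h1 : REPred fun σ : List Bool => ∃ n, ∀ τ ∈ allStr n, σ ++ τ ∉ T := by
    refine exN (p := fun (σ : List Bool) n => ∀ τ ∈ allStr n, σ ++ τ ∉ T) ?_
    refine all_mem (p := fun (x : List Bool × ℕ) (τ : List Bool) => x.1 ++ τ ∉ T)
      (l := fun x : List Bool × ℕ => allStr x.2) ?_ (allStr_comp.comp (by fun_prop))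
    exact RE.comp hT.not.to_re (f := fun x : (List Bool × ℕ) × List Bool => x.1.1 ++ x.2)
      (by fun_prop)
  refine h1.of_eq fun σ => ?_
  constructor
  · rintro ⟨n, hn⟩ ⟨x, hx, hσ⟩
    have h2 := hx (σ.length + n)
    obtain ⟨τ, hτ⟩ := seg_prefix x (Nat.le_add_right σ.length n)
    rw [hσ] at hτ
    refine hn τ ?_ (by rw [hτ]; exact h2)
    rw [mem_allStr]
    have := congrArg List.length hτ
    rw [List.length_append, seg_length] at this
    omega
  · intro h
    by_contra hcon
    push Not at hcon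
    apply h
    obtain ⟨x, hx1, hx2⟩ := exists_path hpre σ (fun n => by
      obtain ⟨τ, h2, h3⟩ := hcon n
      exact ⟨τ, mem_allStr.1 h2, h3⟩)
    exact ⟨x, hx1, hx2⟩

/-- A `Π⁰₁` class is closed. -/
theorem mem_of_ext {P : Set (ℕ → Bool)} (hP : IsPi01 P) {y : ℕ → Bool}
    (h : ∀ n, seg y n ∈ Ext P) : y ∈ P := by
  obtain ⟨T, hT, hpre, rfl⟩ := hP
  intro n
  obtain ⟨x, hx, hxy⟩ := h n
  rw [seg_length] at hxy
  rw [← hxy]
  exact hx n

theorem seg_mem_ext {P : Set (ℕ → Bool)} {y : ℕ → Bool} (hy : y ∈ P) (n : ℕ) :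
    seg y n ∈ Ext P := ⟨y, hy, by rw [seg_length]⟩

/-- A closed class with c.e. set of non-extendible nodes is `Π⁰₁`. -/
theorem isPi01_of_ext {P : Set (ℕ → Bool)} (h1 : REPred fun σ => σ ∉ Ext P)
    (h2 : ∀ y, (∀ n, seg y n ∈ Ext P) → y ∈ P) : IsPi01 P := by
  rw [isPi01_iff]
  refine ⟨(Ext P)ᶜ, h1, ?_⟩
  ext y
  simp only [Set.mem_ofPred_eq, Set.mem_compl_iff, not_not]
  exact ⟨fun h n => seg_mem_ext h n, fun h => h2 y h⟩

theorem ext_prefix {P : Set (ℕ → Bool)} {σ τ : List Bool} (h : σ <+: τ) (hτ : τ ∈ Ext P) :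
    σ ∈ Ext P := by
  obtain ⟨x, hx, h1⟩ := hτ
  refine ⟨x, hx, ?_⟩
  have h2 : σ.length ≤ τ.length := h.length_le
  rw [← seg_take x h2, h1]
  exact (List.prefix_iff_eq_take.1 h).symm

/-- Every `Π⁰₁` class is the complement of one of the c.e. open sets `U e`. -/
theorem exists_index {P : Set (ℕ → Bool)} (hP : IsPi01 P) : ∃ e, P = {x | x ∉ U e} := by
  obtain ⟨W, hW, rfl⟩ := isPi01_iff.1 hP
  obtain ⟨e, he⟩ := wst_univ hW
  refine ⟨e, ?_⟩
  ext x
  simp only [Set.mem_ofPred_eq, U]
  constructor
  · rintro h ⟨n, s, hs⟩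
    exact h n ((he _).2 ⟨s, hs⟩)
  · intro h n hn
    obtain ⟨s, hs⟩ := (he _).1 hn
    exact h ⟨n, s, hs⟩

end Pool.Agent.Helper446.Cls
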