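import Mathlib

/-!
The combinatorial and linear algebraic part of the construction of a maximal superset.
-/

namespace Pool.Agent.Helper446.Greedy

open Submodule

universe u v

set_option linter.unusedSectionVars false

variable {F : Type u} {V : Type v} [Field F] [AddCommGroup V] [Module F V]

/-- The badness value of the `n`-state of `x` at stage `s`. -/
def bv (w : ℕ → ℕ → V → Bool) (s : ℕ) : ℕ → V → ℕ
  | 0, _ => 0
  | n + 1, x => 2 * bv w s n x + (if w n s x = true then 0 else 1)

/-- The digits of the key of `x`. -/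
def dig (w : ℕ → ℕ → V → Bool) (s : ℕ) (lab : V → ℕ) (x : V) (i : ℕ) : ℕ :=
  if i < lab x then (if w i s x = true then 1 else 2) else 0

/-- `y` has better key than `x`. -/
def Prec (enc : V → ℕ) (w : ℕ → ℕ → V → Bool) (s : ℕ) (lab : V → ℕ) (y x : V) : Prop :=
  (∃ i, (∀ j < i, dig w s lab y j = dig w s lab x j) ∧ dig w s lab y i < dig w s lab x i) ∨
  ((∀ j < lab y + lab x, dig w s lab y j = dig w s lab x j) ∧ enc y < enc x)

section keys

variable (enc : V → ℕ) (w : ℕ → ℕ → V → Bool) (s : ℕ) (lab : V → ℕ)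

theorem bv_lt (n : ℕ) (x : V) : bv w s n x < 2 ^ n := by
  induction n with
  | zero => simp [bv]
  | succ n ih =>
    rw [bv, pow_succ]
    split_ifs <;> omega

theorem bv_mono (hw : ∀ e s x, w e s x = true → w e (s + 1) x = true) (n : ℕ) (x : V) :
    bv w (s + 1) n x ≤ bv w s n x := by
  induction n with
  | zero => simp [bv]
  | succ n ih =>
    rw [bv, bv]
    have := hw n s x
    split_ifs with h1 h2 h2
    · omega
    · omega
    · exact absurd (this h2) h1
    · omega

theorem bv_mono_le (hw : ∀ e s x, w e s x = true → w e (s + 1) x = true) (n : ℕ) (x : V)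
    {s t : ℕ} (hst : s ≤ t) : bv w t n x ≤ bv w s n x := by
  induction t, hst using Nat.le_induction with
  | base => exact le_rfl
  | succ t _ ih => exact (bv_mono w t hw n x).trans ih

theorem bv_congr {n : ℕ} {x y : V} (h : ∀ j < n, w j s y = w j s x) :
    bv w s n y = bv w s n x := by
  induction n with
  | zero => simp [bv]
  | succ n ih =>
    rw [bv, bv, ih (fun j hj => h j (by omega)), h n (by omega)]

theorem bv_strict {n i : ℕ} {x y : V} (hin : i < n) (h : ∀ j < i, w j s y = w j s x)
    (hy : w i s y = true) (hx : w i s x = false) : bv w s n y < bv w s n x := by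
  induction n with
  | zero => omega
  | succ n ih =>
    rw [bv, bv]
    rcases Nat.lt_succ_iff_lt_or_eq.1 hin with h1 | h1
    · have := ih h1
      split_ifs <;> omega
    · subst h1
      rw [bv_congr w s h]
      simp [hx, hy]

theorem exists_top (henc : Function.Injective enc) (S : Finset V) (hS : S.Nonempty) :
    ∃ x ∈ S, ∀ y ∈ S, y ≠ x → Prec enc w s lab y x := by
  obtain ⟨x, hx, hmax⟩ := S.exists_max_image
    (fun y => (toLex (toLex (dig w s lab y), enc y) : Lex (Lex (ℕ → ℕ) × ℕ))) hS
  refine ⟨x, hx, fun y hy hne => ?_⟩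
  have h1 := hmax y hy
  have h2 : (toLex (toLex (dig w s lab y), enc y) : Lex (Lex (ℕ → ℕ) × ℕ)) ≠
      toLex (toLex (dig w s lab x), enc x) := by
    intro h
    apply hne
    apply henc
    have h3 := congrArg (fun z => (ofLex z).2) h
    exact h3
  have h3 := lt_of_le_of_ne h1 h2
  rw [Prod.Lex.toLex_lt_toLex] at h3
  rcases h3 with h3 | ⟨h3, h4⟩
  · left
    obtain ⟨i, h5, h6⟩ := h3
    exact ⟨i, h5, h6⟩
  · right
    refine ⟨fun j _ => ?_, h4⟩
    have h5 := congrArg ofLex h3
    exact congrFun h5 j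

variable {enc w s lab}

theorem prec_le {x y : V} (h : Prec enc w s lab y x) {n : ℕ} (hy : n ≤ lab y) (hx : n ≤ lab x) :
    bv w s n y ≤ bv w s n x := by
  have key : ∀ j < n, dig w s lab y j = dig w s lab x j → w j s y = w j s x := by
    intro j hj hd
    unfold dig at hd
    rw [if_pos (lt_of_lt_of_le hj hy), if_pos (lt_of_lt_of_le hj hx)] at hd
    cases h1 : w j s y <;> cases h2 : w j s x <;> simp [h1, h2] at hd ⊢
  rcases h with ⟨i, h1, h2⟩ | ⟨h1, -⟩
  · by_cases hi : i < n
    · refine (bv_strict w s hi (fun j hj => key j (by omega) (h1 j hj)) ?_ ?_).le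
      · unfold dig at h2
        rw [if_pos (lt_of_lt_of_le hi hy), if_pos (lt_of_lt_of_le hi hx)] at h2
        cases h3 : w i s y <;> cases h4 : w i s x <;> simp [h3, h4] at h2 ⊢
      · unfold dig at h2
        rw [if_pos (lt_of_lt_of_le hi hy), if_pos (lt_of_lt_of_le hi hx)] at h2
        cases h3 : w i s y <;> cases h4 : w i s x <;> simp [h3, h4] at h2 ⊢
    · exact (bv_congr w s fun j hj => key j hj (h1 j (by omega))).le
  · exact (bv_congr w s fun j hj => key j hj (h1 j (by omega))).le

theorem prec_first {x y : V} {i : ℕ} (h1 : ∀ j < i, dig w s lab y j = dig w s lab x j)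
    (h2 : dig w s lab y i < dig w s lab x i) {n : ℕ} (hn : n = lab x) (hy : n ≤ lab y) :
    bv w s n y < bv w s n x := by
  subst hn
  have hi : i < lab x := by
    by_contra hcon
    have : dig w s lab x i = 0 := by unfold dig; rw [if_neg hcon]
    omega
  have key : ∀ j < lab x, dig w s lab y j = dig w s lab x j → w j s y = w j s x := by
    intro j hj hd
    unfold dig at hd
    rw [if_pos (lt_of_lt_of_le hj hy), if_pos hj] at hd
    cases h1 : w j s y <;> cases h2 : w j s x <;> simp [h1, h2] at hd ⊢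
  refine bv_strict w s hi (fun j hj => key j (by omega) (h1 j hj)) ?_ ?_
  · unfold dig at h2
    rw [if_pos (lt_of_lt_of_le hi hy), if_pos hi] at h2
    cases h3 : w i s y <;> cases h4 : w i s x <;> simp [h3, h4] at h2 ⊢
  · unfold dig at h2
    rw [if_pos (lt_of_lt_of_le hi hy), if_pos hi] at h2
    cases h3 : w i s y <;> cases h4 : w i s x <;> simp [h3, h4] at h2 ⊢

theorem prec_strict {x y : V} (h : Prec enc w s lab y x) (hxy : lab x < lab y) :
    bv w s (lab x) y < bv w s (lab x) x := by
  rcases h with ⟨i, h1, h2⟩ | ⟨h1, -⟩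
  · exact prec_first h1 h2 rfl hxy.le
  · have := h1 (lab x) (by omega)
    unfold dig at this
    rw [if_pos hxy, if_neg (lt_irrefl _)] at this
    split_ifs at this

theorem prec_enc {x y : V} (h : Prec enc w s lab y x) (hxy : lab y = lab x)
    (hb : bv w s (lab x) y = bv w s (lab x) x) : enc y < enc x := by
  rcases h with ⟨i, h1, h2⟩ | ⟨h1, h3⟩
  · have := prec_first h1 h2 rfl hxy.ge
    omega
  · exact h3

end keys

/-- The subspace generated by the first `s` elements of the sequence `m`. -/
def Ms (F : Type u) {V : Type v} [Field F] [AddCommGroup V] [Module F V] (m : ℕ → V) (s : ℕ) :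
    Submodule F V := span F (m '' Set.Iio s)

theorem Ms_zero (m : ℕ → V) : Ms F m 0 = ⊥ := by
  simp [Ms]

theorem Ms_succ (m : ℕ → V) (s : ℕ) : Ms F m (s + 1) = span F {m s} ⊔ Ms F m s := by
  unfold Ms
  have : m '' Set.Iio (s + 1) = insert (m s) (m '' Set.Iio s) := by
    rw [← Set.image_insert_eq]
    congr 1
    ext i
    simp only [Set.mem_Iio, Set.mem_insert_iff]
    omega
  rw [this, span_insert]

theorem Ms_mono (m : ℕ → V) {s t : ℕ} (h : s ≤ t) : Ms F m s ≤ Ms F m t :=
  span_mono (Set.image_mono (Set.Iio_subset_Iio h))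

/-- One step of the construction. -/
inductive StepRel (F : Type u) {V : Type v} [Field F] [AddCommGroup V] [Module F V]
    (B : Set V) (enc : V → ℕ) (w : ℕ → ℕ → V → Bool)
    (m : ℕ → V) (s : ℕ) (d : Set V) (lab : V → ℕ) (d' : Set V) (lab' : V → ℕ) : Prop
  | quiet : m s ∈ Ms F m s → d' = d → lab' = lab → StepRel F B enc w m s d lab d' lab'
  | active (S : Finset V) (c : V → F) (x : V) :
      (∀ y ∈ S, y ∈ B ∧ y ∉ d ∧ c y ≠ 0) → x ∈ S → m s - ∑ y ∈ S, c y • y ∈ Ms F m s →
      (∀ y ∈ S, y ≠ x → Prec enc w s lab y x) → d' = insert x d →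
      (∀ y, y ∈ S → lab' y = min (lab y) (lab x)) → (∀ y, y ∉ S → lab' y = lab y) →
      StepRel F B enc w m s d lab d' lab'

/-- A run of the construction. -/
structure Run (F : Type u) {V : Type v} [Field F] [AddCommGroup V] [Module F V]
    (B : Set V) (enc : V → ℕ) (w : ℕ → ℕ → V → Bool) (m : ℕ → V) where
  dead : ℕ → Set V
  lab : ℕ → V → ℕ
  dead_zero : dead 0 = ∅
  lab_zero : lab 0 = enc
  step : ∀ s, StepRel F B enc w m s (dead s) (lab s) (dead (s + 1)) (lab (s + 1))

section linear

variable {B : Set V} (hli : LinearIndepOn F id B) (hsp : span F B = ⊤)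

include hli in
theorem disjoint_span {S T : Set V} (hS : S ⊆ B) (hT : T ⊆ B) (h : Disjoint S T) :
    Disjoint (span F S) (span F T) := by
  have h1 : LinearIndependent F (fun x : B => (x : V)) := hli
  have h2 := h1.disjoint_span_image (s := ((↑) : B → V) ⁻¹' S) (t := ((↑) : B → V) ⁻¹' T)
    (h.preimage _)
  have e1 : (fun x : B => (x : V)) '' (((↑) : B → V) ⁻¹' S) = S := by
    rw [Subtype.image_preimage_coe, Set.inter_eq_right.2 hS]
  have e2 : (fun x : B => (x : V)) '' (((↑) : B → V) ⁻¹' T) = T := by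
    rw [Subtype.image_preimage_coe, Set.inter_eq_right.2 hT]
  rwa [e1, e2] at h2

include hli in
theorem notMem_span {x : V} {T : Set V} (hx : x ∈ B) (hT : T ⊆ B) (hxT : x ∉ T) :
    x ∉ span F T := by
  intro h
  have h1 := disjoint_span hli (Set.singleton_subset_iff.2 hx) hT
    (Set.disjoint_singleton_left.2 hxT)
  have h2 : x = 0 := Submodule.disjoint_def.1 h1 x (mem_span_singleton_self x) h
  exact hli.ne_zero hx h2

include hli in
theorem finite_of_disjoint {T : Set V} (hT : T ⊆ B) {G W : Submodule F V}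
    (hd : Disjoint (span F T) G) (hTW : T ⊆ W) (hW : FiniteDimensional F (W.map G.mkQ)) :
    T.Finite := by
  have h1 : LinearIndependent F (fun x : T => (x : V)) :=
    (hli.mono hT : LinearIndepOn F id T)
  have h2 : LinearIndependent F (G.mkQ ∘ fun x : T => (x : V)) := by
    apply h1.map
    rw [ker_mkQ, Subtype.range_coe]
    exact hd
  have h3 : LinearIndependent F
      (fun x : T => (⟨G.mkQ x, mem_map_of_mem (hTW x.2)⟩ : W.map G.mkQ)) := by
    apply LinearIndependent.of_comp (W.map G.mkQ).subtype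
    exact h2
  have := h3.finite_of_isNoetherian
  exact Set.toFinite T

end linear


namespace Run

variable {B : Set V} {enc : V → ℕ} {w : ℕ → ℕ → V → Bool} {m : ℕ → V}
variable (r : Run F B enc w m)

/-- The elements of the basis which are alive at stage `s`. -/
def alive (s : ℕ) : Set V := {x | x ∈ B ∧ x ∉ r.dead s}

/-- The elements of the basis which are never dropped. -/
def core : Set V := {x | x ∈ B ∧ ∀ s, x ∉ r.dead s}

theorem dead_succ (s : ℕ) : r.dead s ⊆ r.dead (s + 1) := by
  rcases r.step s with ⟨-, h, -⟩ | ⟨S, c, x, -, -, -, -, h, -, -⟩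
  · rw [h]
  · rw [h]; exact Set.subset_insert _ _

theorem dead_mono {s t : ℕ} (h : s ≤ t) : r.dead s ⊆ r.dead t := by
  induction t, h using Nat.le_induction with
  | base => exact subset_rfl
  | succ t _ ih => exact ih.trans (r.dead_succ t)

theorem lab_succ (s : ℕ) (x : V) : r.lab (s + 1) x ≤ r.lab s x := by
  rcases r.step s with ⟨-, -, h⟩ | ⟨S, c, x0, -, -, -, -, -, h1, h2⟩
  · rw [h]
  · by_cases hx : x ∈ S
    · rw [h1 x hx]; exact min_le_left _ _
    · rw [h2 x hx]

theorem lab_mono {s t : ℕ} (h : s ≤ t) (x : V) : r.lab t x ≤ r.lab s x := by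
  induction t, h using Nat.le_induction with
  | base => exact le_rfl
  | succ t _ ih => exact (r.lab_succ t x).trans ih

/-- The data of the step at which `x` is dropped. -/
theorem drop_data {s : ℕ} {x : V} (h1 : x ∉ r.dead s) (h2 : x ∈ r.dead (s + 1)) :
    ∃ (S : Finset V) (c : V → F), (∀ y ∈ S, y ∈ B ∧ y ∉ r.dead s ∧ c y ≠ 0) ∧ x ∈ S ∧
      ∑ y ∈ S, c y • y ∈ Ms F m (s + 1) ∧
      (∀ y ∈ S, y ≠ x → Prec enc w s (r.lab s) y x) ∧
      (∀ y ∈ S, y ≠ x → y ∉ r.dead (s + 1)) ∧
      (∀ y ∈ S, r.lab (s + 1) y = min (r.lab s y) (r.lab s x)) ∧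
      (∀ y, y ∉ S → r.lab (s + 1) y = r.lab s y) := by
  rcases r.step s with ⟨-, h, -⟩ | ⟨S, c, x0, hS, hx, hm, hP, hd, hl1, hl2⟩
  · rw [h] at h2; exact absurd h2 h1
  · have hxx : x = x0 := by
      rw [hd] at h2
      rcases h2 with h2 | h2
      · exact h2
      · exact absurd h2 h1
    subst hxx
    refine ⟨S, c, hS, hx, ?_, hP, ?_, hl1, hl2⟩
    · rw [Ms_succ]
      have h3 : ∑ y ∈ S, c y • y = m s - (m s - ∑ y ∈ S, c y • y) := by abel
      rw [h3]
      exact sub_mem (mem_sup_left (mem_span_singleton_self _)) (mem_sup_right hm)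
    · intro y hy hne
      rw [hd]
      rintro (h3 | h3)
      · exact hne h3
      · exact (hS y hy).2.1 h3

/-- The data of a step at which some label changes. -/
theorem change_data {s : ℕ} {x : V} (h : r.lab (s + 1) x ≠ r.lab s x) :
    ∃ x0, x0 ∉ r.dead s ∧ x0 ∈ r.dead (s + 1) ∧ r.lab (s + 1) x = r.lab s x0 ∧
      r.lab s x0 < r.lab s x ∧ Prec enc w s (r.lab s) x x0 := by
  rcases r.step s with ⟨-, -, h3⟩ | ⟨S, c, x0, hS, hx, hm, hP, hd, hl1, hl2⟩
  · rw [h3] at h; exact absurd rfl h
  · by_cases hxS : x ∈ S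
    · have h4 := hl1 x hxS
      have h5 : r.lab s x0 < r.lab s x := by
        rw [h4] at h
        by_contra hcon
        push Not at hcon
        exact h (min_eq_left hcon)
      refine ⟨x0, (hS x0 hx).2.1, ?_, ?_, h5, hP x hxS ?_⟩
      · rw [hd]; exact Set.mem_insert _ _
      · rw [h4, min_eq_right h5.le]
      · rintro rfl; exact lt_irrefl _ h5
    · exact absurd (hl2 x hxS) h

theorem exists_changed (s : ℕ) : ∃ S : Finset V, ∀ y, r.lab (s + 1) y ≠ r.lab s y → y ∈ S := by
  rcases r.step s with ⟨-, -, h3⟩ | ⟨S, c, x0, hS, hx, hm, hP, hd, hl1, hl2⟩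
  · exact ⟨∅, fun y hy => absurd (congrFun h3 y) hy⟩
  · refine ⟨S, fun y hy => ?_⟩
    by_contra hcon
    exact hy (hl2 y hcon)

section inv

variable (hli : LinearIndepOn F id B) (hsp : span F B = ⊤)

include hli in
theorem step_inv {enc : V → ℕ} {w : ℕ → ℕ → V → Bool} {m : ℕ → V} {s : ℕ} {d d' : Set V}
    {lab lab' : V → ℕ} (h : StepRel F B enc w m s d lab d' lab')
    (ih : IsCompl (Ms F m s) (span F {x | x ∈ B ∧ x ∉ d})) :
    IsCompl (Ms F m (s + 1)) (span F {x | x ∈ B ∧ x ∉ d'}) := by
  classical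
  rcases h with ⟨hm, hd, -⟩ | ⟨S, c, x, hS, hx, hm, hP, hd, hl1, hl2⟩
  · have h2 : Ms F m (s + 1) = Ms F m s := by
      rw [Ms_succ]
      exact sup_eq_right.2 ((span_singleton_le_iff_mem _ _).2 hm)
    rw [hd, h2]; exact ih
  · have h1 : {x | x ∈ B ∧ x ∉ d'} = {x | x ∈ B ∧ x ∉ d} \ {x} := by
      ext y
      simp only [hd, Set.mem_ofPred_eq, Set.mem_insert_iff, Set.mem_sdiff,
        Set.mem_singleton_iff]
      tauto
    set al : Set V := {x | x ∈ B ∧ x ∉ d} with hal
    set v := ∑ y ∈ S, c y • y with hv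
    have h2 : Ms F m (s + 1) = span F {v} ⊔ Ms F m s := by
      rw [Ms_succ]
      apply le_antisymm
      · refine sup_le ((span_singleton_le_iff_mem _ _).2 ?_) le_sup_right
        have : m s = v + (m s - v) := by abel
        rw [this]
        exact add_mem (mem_sup_left (mem_span_singleton_self _)) (mem_sup_right hm)
      · refine sup_le ((span_singleton_le_iff_mem _ _).2 ?_) le_sup_right
        have : v = m s - (m s - v) := by abel
        rw [this]
        exact sub_mem (mem_sup_left (mem_span_singleton_self _)) (mem_sup_right hm)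
    have hSal : ∀ y ∈ S, y ∈ al := fun y hy => ⟨(hS y hy).1, (hS y hy).2.1⟩
    have hSal' : ∀ y ∈ S, y ≠ x → y ∈ al \ {x} := fun y hy hne => ⟨hSal y hy, hne⟩
    have hvx : v = c x • x + ∑ y ∈ S.erase x, c y • y := by
      rw [hv, ← Finset.add_sum_erase S _ hx]
    have hrest : ∑ y ∈ S.erase x, c y • y ∈ span F (al \ {x}) := by
      refine sum_mem fun y hy => smul_mem _ _ (subset_span ?_)
      exact hSal' y (Finset.mem_of_mem_erase hy) (Finset.ne_of_mem_erase hy)
    have hvmem : v ∈ span F al :=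
      sum_mem fun y hy => smul_mem _ _ (subset_span (hSal y hy))
    have hcx : c x ≠ 0 := (hS x hx).2.2
    rw [h1, h2]
    constructor
    · rw [Submodule.disjoint_def]
      intro u hu hu2
      obtain ⟨p, hp, q, hq, rfl⟩ := mem_sup.1 hu
      obtain ⟨a, rfl⟩ := mem_span_singleton.1 hp
      have hqal : q ∈ span F al := by
        have : q = (a • v + q) - a • v := by abel
        rw [this]
        exact sub_mem (span_mono Set.sdiff_subset hu2) (smul_mem _ _ hvmem)
      have hq0 : q = 0 := Submodule.disjoint_def.1 ih.disjoint q hq hqal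
      subst hq0
      simp only [add_zero] at hu2 ⊢
      by_cases ha : a = 0
      · rw [ha, zero_smul]
      · exfalso
        have h3 : v ∈ span F (al \ {x}) := by
          have := smul_mem _ a⁻¹ hu2
          rwa [smul_smul, inv_mul_cancel₀ ha, one_smul] at this
        have h4 : c x • x ∈ span F (al \ {x}) := by
          have : c x • x = v - ∑ y ∈ S.erase x, c y • y := by rw [hvx]; abel
          rw [this]
          exact sub_mem h3 hrest
        have h5 : x ∈ span F (al \ {x}) := by
          have := smul_mem _ (c x)⁻¹ h4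
          rwa [smul_smul, inv_mul_cancel₀ hcx, one_smul] at this
        refine notMem_span hli (hS x hx).1 ?_ ?_ h5
        · rintro y ⟨hy, -⟩; exact hy.1
        · rintro ⟨-, hy⟩; exact hy rfl
    · rw [codisjoint_iff, eq_top_iff, ← ih.codisjoint.eq_top]
      refine sup_le (le_sup_right.trans le_sup_left) (span_le.2 ?_)
      intro y hy
      by_cases hyx : y = x
      · subst hyx
        have h6 : y = (c y)⁻¹ • (v - ∑ z ∈ S.erase y, c z • z) := by
          have : v - ∑ z ∈ S.erase y, c z • z = c y • y := by rw [hvx]; abel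
          rw [this, smul_smul, inv_mul_cancel₀ hcx, one_smul]
        have h7 : (c y)⁻¹ • (v - ∑ z ∈ S.erase y, c z • z) ∈
            (span F {v} ⊔ Ms F m s) ⊔ span F (al \ {y}) := by
          refine smul_mem _ _ (sub_mem ?_ (mem_sup_right hrest))
          exact mem_sup_left (mem_sup_left (mem_span_singleton_self _))
        rwa [← h6] at h7
      · exact mem_sup_right (subset_span ⟨hy, hyx⟩)

include hli hsp in
theorem inv (s : ℕ) : IsCompl (Ms F m s) (span F (r.alive s)) := by
  induction s with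
  | zero =>
    have h1 : r.alive 0 = B := by
      ext x; simp [alive, r.dead_zero]
    rw [h1, Ms_zero, hsp]
    exact isCompl_bot_top
  | succ s ih => exact step_inv hli (r.step s) ih

end inv

theorem core_subset_alive (s : ℕ) : r.core ⊆ r.alive s := fun _ hx => ⟨hx.1, hx.2 s⟩

/-- Only finitely many elements ever get label `j` with badness at least `v`. -/
theorem cat_finite (henc : Function.Injective enc)
    (hw : ∀ e s x, w e s x = true → w e (s + 1) x = true) (j : ℕ) :
    ∀ k v, 2 ^ j ≤ v + k → {x | ∃ s, r.lab s x = j ∧ v ≤ bv w s j x}.Finite := by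
  intro k
  induction k with
  | zero =>
    intro v hv
    convert Set.finite_empty
    ext x
    simp only [Set.mem_ofPred_eq, Set.mem_empty_iff_false, iff_false, not_exists, not_and, not_le]
    intro s _
    have := bv_lt w s j x
    omega
  | succ k ih =>
    intro v hv
    have hfin := ih (v + 1) (by omega)
    choose E hE using r.exists_changed
    have hsub : {x | ∃ s, r.lab s x = j ∧ v ≤ bv w s j x} ⊆
        (enc ⁻¹' {j}) ∪ ⋃ x0 ∈ {x | ∃ s, r.lab s x = j ∧ v + 1 ≤ bv w s j x},
          ⋃ t ∈ {t | x0 ∉ r.dead t ∧ x0 ∈ r.dead (t + 1)}, (E t : Set V) := by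
      rintro x ⟨s, hs, hv⟩
      classical
      have hex : ∃ t, r.lab t x = j := ⟨s, hs⟩
      have hle : Nat.find hex ≤ s := Nat.find_min' hex hs
      have hsp := Nat.find_spec hex
      rcases hn : Nat.find hex with _ | t
      · rw [hn, r.lab_zero] at hsp
        left; exact hsp
      · right
        rw [hn] at hsp hle
        have hne : r.lab t x ≠ j := by
          apply Nat.find_min hex
          rw [hn]; exact Nat.lt_succ_self t
        have hch : r.lab (t + 1) x ≠ r.lab t x := by
          rw [hsp]; exact hne.symm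
        obtain ⟨x0, h1, h2, h3, h4, h5⟩ := r.change_data hch
        have hj : r.lab t x0 = j := by rw [← h3, hsp]
        have h6 := prec_strict h5 h4
        rw [hj] at h6
        have h7 := bv_mono_le w hw j x (show t ≤ s by omega)
        simp only [Set.mem_iUnion, Set.mem_ofPred_eq, exists_prop]
        exact ⟨x0, ⟨t, hj, by omega⟩, t, ⟨h1, h2⟩, hE t x hch⟩
    refine Set.Finite.subset ?_ hsub
    refine Set.Finite.union ?_ ?_
    · exact Set.Finite.preimage henc.injOn (Set.finite_singleton j)
    · refine hfin.biUnion fun x0 _ => ?_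
      refine Set.Finite.biUnion ?_ fun t _ => (E t).finite_toSet
      apply Set.Subsingleton.finite
      rintro t1 ⟨h1, h2⟩ t2 ⟨h3, h4⟩
      rcases lt_trichotomy t1 t2 with h | h | h
      · exact absurd (r.dead_mono (show t1 + 1 ≤ t2 by omega) h2) h3
      · exact h
      · exact absurd (r.dead_mono (show t2 + 1 ≤ t1 by omega) h4) h1

theorem label_finite (henc : Function.Injective enc)
    (hw : ∀ e s x, w e s x = true → w e (s + 1) x = true) (n : ℕ) :
    {x | ∃ s, r.lab s x < n}.Finite := by
  have h1 : {x | ∃ s, r.lab s x < n} ⊆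
      ⋃ j ∈ Finset.range n, {x | ∃ s, r.lab s x = j ∧ 0 ≤ bv w s j x} := by
    rintro x ⟨s, hs⟩
    simp only [Set.mem_iUnion, Set.mem_ofPred_eq, exists_prop, Finset.mem_range]
    exact ⟨_, hs, s, rfl, Nat.zero_le _⟩
  refine Set.Finite.subset ?_ h1
  refine Set.Finite.biUnion (Finset.range n).finite_toSet fun j _ => ?_
  exact r.cat_finite henc hw j (2 ^ j) 0 (by omega)

/-- The measure used in the spanning argument. -/
def meas (s : ℕ) (x : V) : ℕ ×ₗ ℕ ×ₗ ℕ :=
  toLex (r.lab s x, toLex (bv w s (r.lab s x) x, enc x))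

theorem meas_succ (hw : ∀ e s x, w e s x = true → w e (s + 1) x = true) (s : ℕ) (x : V) :
    r.meas (s + 1) x ≤ r.meas s x := by
  unfold meas
  rw [Prod.Lex.toLex_le_toLex]
  rcases lt_or_eq_of_le (r.lab_succ s x) with h | h
  · left; exact h
  · right
    refine ⟨h, ?_⟩
    rw [Prod.Lex.toLex_le_toLex, h]
    have := bv_mono w s hw (r.lab s x) x
    rcases lt_or_eq_of_le this with h2 | h2
    · left; exact h2
    · right; exact ⟨h2, le_rfl⟩

theorem meas_drop (hw : ∀ e s x, w e s x = true → w e (s + 1) x = true) {s : ℕ} {x y : V}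
    (hl : r.lab (s + 1) y = min (r.lab s y) (r.lab s x))
    (hP : Prec enc w s (r.lab s) y x) : r.meas (s + 1) y < r.meas s x := by
  unfold meas
  rw [Prod.Lex.toLex_lt_toLex]
  rcases lt_or_ge (r.lab s y) (r.lab s x) with h | h
  · left
    show r.lab (s + 1) y < r.lab s x
    rw [hl, min_eq_left h.le]; exact h
  · right
    have h1 : r.lab (s + 1) y = r.lab s x := by rw [hl, min_eq_right h]
    refine ⟨h1, ?_⟩
    rw [Prod.Lex.toLex_lt_toLex, h1]
    have h2 := bv_mono w s hw (r.lab s x) y
    have h3 := prec_le hP h le_rfl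
    rcases lt_or_eq_of_le (h2.trans h3) with h4 | h4
    · left; exact h4
    · right
      refine ⟨h4, ?_⟩
      have h5 : bv w s (r.lab s x) y = bv w s (r.lab s x) x := by
        apply le_antisymm h3; rw [← h4]; exact h2
      rcases lt_or_eq_of_le h with h6 | h6
      · have := prec_strict hP h6
        omega
      · show enc y < enc x
        exact prec_enc hP h6.symm h5

section main

variable (hli : LinearIndepOn F id B) (hsp : span F B = ⊤)
variable (hw : ∀ e s x, w e s x = true → w e (s + 1) x = true)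
variable (henc : Function.Injective enc)
variable (M : Submodule F V) (hM : ∀ v, v ∈ M ↔ ∃ s, v ∈ Ms F m s)

include hM hw hsp in
theorem sup_core : M ⊔ span F r.core = ⊤ := by
  by_contra hne
  obtain ⟨φ, hφ0, hφ⟩ := Submodule.exists_le_ker_of_lt_top _ (lt_top_iff_ne_top.2 hne)
  have hφM : ∀ v ∈ M, φ v = 0 := fun v hv => hφ (mem_sup_left hv)
  have hφC : ∀ v ∈ r.core, φ v = 0 := fun v hv => hφ (mem_sup_right (subset_span hv))
  have hexB : ∃ x ∈ B, φ x ≠ 0 := by
    by_contra hcon
    push Not at hcon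
    apply hφ0
    have h1 : span F B ≤ LinearMap.ker φ := span_le.2 fun x hx => hcon x hx
    rw [hsp] at h1
    ext v
    exact h1 (mem_top (x := v))
  obtain ⟨x1, hx1B, hx1⟩ := hexB
  let 𝒯 : Set (ℕ ×ₗ ℕ ×ₗ ℕ) := {t | ∃ s x, x ∈ B ∧ x ∉ r.dead s ∧ φ x ≠ 0 ∧ r.meas s x = t}
  have hne2 : 𝒯.Nonempty := ⟨_, 0, x1, hx1B, by rw [r.dead_zero]; exact Set.notMem_empty _, hx1,
    rfl⟩
  obtain ⟨t, ⟨s, x, hxB, hxs, hφx, rfl⟩, hmin⟩ :=
    (wellFounded_lt (α := ℕ ×ₗ ℕ ×ₗ ℕ)).has_min 𝒯 hne2
  have hkey : ∀ t, s ≤ t → x ∉ r.dead t ∧ r.meas t x = r.meas s x := by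
    intro t ht
    induction t, ht using Nat.le_induction with
    | base => exact ⟨hxs, rfl⟩
    | succ t _ ih =>
      obtain ⟨ih1, ih2⟩ := ih
      have hnd : x ∉ r.dead (t + 1) := by
        intro hd
        obtain ⟨S, c, hS, hxS, hsum, hP, hal, hl1, hl2⟩ := r.drop_data ih1 hd
        have h0 : φ (∑ y ∈ S, c y • y) = 0 := hφM _ ((hM _).2 ⟨t + 1, hsum⟩)
        have hex : ∃ y ∈ S, y ≠ x ∧ φ y ≠ 0 := by
          by_contra hcon
          push Not at hcon
          rw [map_sum, Finset.sum_eq_single x] at h0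
          · rw [map_smul, smul_eq_mul] at h0
            rcases mul_eq_zero.1 h0 with h | h
            · exact (hS x hxS).2.2 h
            · exact hφx h
          · intro y hy hyx
            rw [map_smul, hcon y hy hyx, smul_zero]
          · intro h; exact absurd hxS h
        obtain ⟨y, hyS, hyx, hφy⟩ := hex
        have h1 := r.meas_drop hw (hl1 y hyS) (hP y hyS hyx)
        rw [ih2] at h1
        exact hmin _ ⟨t + 1, y, (hS y hyS).1, hal y hyS hyx, hφy, rfl⟩ h1
      refine ⟨hnd, ?_⟩
      have h1 := r.meas_succ hw t x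
      rw [ih2] at h1
      rcases lt_or_eq_of_le h1 with h2 | h2
      · exact absurd h2 (hmin _ ⟨t + 1, x, hxB, hnd, hφx, rfl⟩)
      · exact h2
  apply hφx
  apply hφC
  refine ⟨hxB, fun t => ?_⟩
  rcases le_total s t with h | h
  · exact (hkey t h).1
  · exact fun hd => hxs (r.dead_mono h hd)

include hM hw hsp in
theorem core_infinite (hinf : ¬ FiniteDimensional F (V ⧸ M)) : r.core.Infinite := by
  intro hfin
  apply hinf
  have h1 := r.sup_core hsp hw M hM
  have h2 : (span F r.core).map M.mkQ = ⊤ := by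
    rw [map_mkQ_eq_top]; exact h1
  have h3 : (⊤ : Submodule F (V ⧸ M)).FG := by
    rw [← h2]
    exact (fg_span hfin).map _
  exact Module.finite_def.2 h3

include hM hli hsp in
theorem core_disjoint : Disjoint (span F r.core) M := by
  rw [Submodule.disjoint_def]
  intro v hv1 hv2
  obtain ⟨s, hs⟩ := (hM v).1 hv2
  exact Submodule.disjoint_def.1 (r.inv hli hsp s).disjoint v hs
    (span_mono (r.core_subset_alive s) hv1)

/-- Elements which are at some stage alive with badness value less than `v`. -/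
def dset (n v : ℕ) : Set V := {x | x ∈ B ∧ ∃ s, x ∉ r.dead s ∧ bv w s n x < v}

include hM hw hsp hli henc in
theorem core_diff_finite {n v : ℕ}
    (hfd : FiniteDimensional F (V ⧸ (M ⊔ span F (r.dset n v)))) :
    (r.core \ r.dset n v).Finite := by
  classical
  set H : Set V := {x | ∃ s, r.lab s x < n} with hH
  have hHfin : H.Finite := r.label_finite henc hw n
  -- a stage after which no element of `H` is dropped
  have hs1 : ∃ s1, ∀ x ∈ H, ∀ s, s1 ≤ s → x ∈ r.dead (s + 1) → x ∈ r.dead s := by
    have h1 : ∀ x, ∃ s1, ∀ s, s1 ≤ s → x ∈ r.dead (s + 1) → x ∈ r.dead s := by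
      intro x
      by_cases hx : ∃ s, x ∈ r.dead s
      · obtain ⟨s, hs⟩ := hx
        exact ⟨s, fun t ht _ => r.dead_mono ht hs⟩
      · exact ⟨0, fun s _ h => absurd ⟨_, h⟩ hx⟩
    choose g hg using h1
    refine ⟨hHfin.toFinset.sup g, fun x hx s hs h => hg x s (le_trans ?_ hs) h⟩
    exact Finset.le_sup (f := g) (hHfin.mem_toFinset.2 hx)
  obtain ⟨s1, hs1⟩ := hs1
  let gens : ℕ → Set V := fun s => {x | x ∈ r.alive s ∧ (x ∈ H ∨ bv w s n x < v)}
  let G : ℕ → Submodule F V := fun s => Ms F m s ⊔ span F (gens s)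
  have hGsucc : ∀ s, s1 ≤ s → G s ≤ G (s + 1) := by
    intro s hs
    have hgen : ∀ x ∈ gens s, x ∉ r.dead (s + 1) → x ∈ gens (s + 1) := by
      rintro x ⟨⟨hxB, -⟩, h2⟩ hnd
      refine ⟨⟨hxB, hnd⟩, h2.imp id fun h3 => ?_⟩
      exact lt_of_le_of_lt (bv_mono w s hw n x) h3
    refine sup_le ((Ms_mono m (Nat.le_succ s)).trans le_sup_left) (span_le.2 ?_)
    rintro x ⟨⟨hxB, hxd⟩, hx2⟩
    by_cases hnd : x ∈ r.dead (s + 1)
    · have hxH : x ∉ H := fun h => hxd (hs1 x h s hs hnd)
      have hxv : bv w s n x < v := hx2.resolve_left hxH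
      have hlx : n ≤ r.lab s x := by
        by_contra hcon
        exact hxH ⟨s, not_le.1 hcon⟩
      obtain ⟨S, c, hS, hxS, hsum, hP, hal, hl1, hl2⟩ := r.drop_data hxd hnd
      have hmem : ∀ y ∈ S, y ≠ x → y ∈ gens (s + 1) := by
        intro y hy hne
        apply hgen y _ (hal y hy hne)
        refine ⟨⟨(hS y hy).1, (hS y hy).2.1⟩, ?_⟩
        by_cases hly : n ≤ r.lab s y
        · right
          exact lt_of_le_of_lt (prec_le (hP y hy hne) hly hlx) hxv
        · left; exact ⟨s, not_le.1 hly⟩
      have h6 : x = (c x)⁻¹ • (∑ z ∈ S, c z • z - ∑ z ∈ S.erase x, c z • z) := by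
        have : ∑ z ∈ S, c z • z - ∑ z ∈ S.erase x, c z • z = c x • x := by
          rw [← Finset.add_sum_erase S _ hxS]; abel
        rw [this, smul_smul, inv_mul_cancel₀ (hS x hxS).2.2, one_smul]
      rw [h6]
      refine smul_mem _ _ (sub_mem (mem_sup_left hsum) (mem_sup_right ?_))
      exact sum_mem fun y hy => smul_mem _ _ (subset_span
        (hmem y (Finset.mem_of_mem_erase hy) (Finset.ne_of_mem_erase hy)))
    · exact mem_sup_right (subset_span (hgen x ⟨⟨hxB, hxd⟩, hx2⟩ hnd))
  have hGmono : ∀ s t, s1 ≤ s → s ≤ t → G s ≤ G t := by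
    intro s t hs ht
    induction t, ht using Nat.le_induction with
    | base => exact le_rfl
    | succ t ht ih => exact ih.trans (hGsucc t (by omega))
  -- the union
  let G' : ℕ → Submodule F V := fun k => G (s1 + k)
  have hG'mono : Monotone G' := fun a b hab => hGmono _ _ (by omega) (by omega)
  let Ginf : Submodule F V := ⨆ k, G' k
  have hGinf : ∀ u, u ∈ Ginf ↔ ∃ k, u ∈ G' k := fun u =>
    mem_iSup_of_directed _ hG'mono.directed_le
  have hMG : M ≤ Ginf := by
    intro u hu
    obtain ⟨s, hs⟩ := (hM u).1 hu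
    refine (hGinf u).2 ⟨s, mem_sup_left (Ms_mono m (by omega) hs)⟩
  -- the finitely many elements dropped before stage `s1`
  have hdeadfin : ∀ s, (r.dead s).Finite := by
    intro s
    induction s with
    | zero => rw [r.dead_zero]; exact Set.finite_empty
    | succ s ih =>
      rcases r.step s with ⟨-, h, -⟩ | ⟨S, c, x, -, -, -, -, h, -, -⟩
      · rw [h]; exact ih
      · rw [h]; exact ih.insert x
  have hDG : r.dset n v ⊆ (Ginf ⊔ span F (r.dead s1) : Submodule F V) := by
    rintro x ⟨hxB, s, hxs, hxv⟩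
    by_cases hd : x ∈ r.dead s1
    · exact mem_sup_right (subset_span hd)
    · apply mem_sup_left
      rw [hGinf]
      refine ⟨s, ?_⟩
      rcases le_total s1 s with h | h
      · have h3 : x ∈ G s := mem_sup_right (subset_span ⟨⟨hxB, hxs⟩, Or.inr hxv⟩)
        exact hGmono s (s1 + s) h (by omega) h3
      · have h3 : x ∈ G s1 := mem_sup_right (subset_span ⟨⟨hxB, hd⟩, Or.inr
          (lt_of_le_of_lt (bv_mono_le w hw n x h) hxv)⟩)
        exact hGmono s1 (s1 + s) le_rfl (by omega) h3
  have hfd2 : FiniteDimensional F (V ⧸ Ginf) := by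
    -- `V = M ⊔ span D ⊔ finite = Ginf ⊔ finite`
    obtain ⟨S0, hS0⟩ := Module.finite_def.1 hfd
    have h1 : ∃ K : Set V, K.Finite ∧ (M ⊔ span F (r.dset n v)) ⊔ span F K = ⊤ := by
      choose lift hlift using (M ⊔ span F (r.dset n v)).mkQ_surjective
      refine ⟨lift '' (S0 : Set _), S0.finite_toSet.image _, ?_⟩
      rw [← map_mkQ_eq_top, map_span, ← Set.image_comp]
      have : (⇑(M ⊔ span F (r.dset n v)).mkQ ∘ lift) = id := by
        funext z; exact hlift z
      rw [this, Set.image_id]
      exact hS0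
    obtain ⟨K, hK, hKtop⟩ := h1
    have h2 : Ginf ⊔ span F (r.dead s1 ∪ K) = ⊤ := by
      rw [eq_top_iff, ← hKtop]
      refine sup_le (sup_le (hMG.trans le_sup_left) (span_le.2 fun x hx => ?_)) ?_
      · have := hDG hx
        have h5 : Ginf ⊔ span F (r.dead s1) ≤ Ginf ⊔ span F (r.dead s1 ∪ K) :=
          sup_le_sup le_rfl (span_mono Set.subset_union_left)
        exact h5 this
      · exact (span_mono Set.subset_union_right).trans le_sup_right
    have h3 : (span F (r.dead s1 ∪ K)).map Ginf.mkQ = ⊤ := by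
      rw [map_mkQ_eq_top]; exact h2
    have h4 : (⊤ : Submodule F (V ⧸ Ginf)).FG := by
      rw [← h3]
      exact (fg_span ((hdeadfin s1).union hK)).map _
    exact Module.finite_def.2 h4
  have hfinal : (r.core \ (r.dset n v ∪ H)).Finite := by
    have hTB : r.core \ (r.dset n v ∪ H) ⊆ B := fun x hx => hx.1.1
    refine finite_of_disjoint hli hTB (G := Ginf) (W := ⊤) ?_ (fun _ _ => mem_top) ?_
    · rw [Submodule.disjoint_def]
      intro u hu1 hu2
      obtain ⟨k, hk⟩ := (hGinf u).1 hu2
      obtain ⟨p, hp, q, hq, rfl⟩ := mem_sup.1 hk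
      have h1 : p ∈ span F (r.alive (s1 + k)) := by
        have h2 : p = (p + q) - q := by abel
        rw [h2]
        refine sub_mem (span_mono ?_ hu1) (span_mono ?_ hq)
        · exact fun x hx => r.core_subset_alive _ hx.1
        · exact fun x hx => hx.1
      have hp0 : p = 0 := Submodule.disjoint_def.1 (r.inv hli hsp (s1 + k)).disjoint p hp h1
      subst hp0
      rw [zero_add] at hu1 ⊢
      refine Submodule.disjoint_def.1 (disjoint_span hli hTB
        (T := gens (s1 + k)) (fun x hx => hx.1.1) ?_) q hu1 hq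
      rw [Set.disjoint_left]
      rintro x ⟨hx1, hx2⟩ ⟨hx3, hx4⟩
      apply hx2
      rcases hx4 with h | h
      · right; exact h
      · left; exact ⟨hx3.1, s1 + k, hx3.2, h⟩
    · have : (⊤ : Submodule F V).map Ginf.mkQ = ⊤ := by
        rw [Submodule.map_top, range_mkQ]
      rw [this]
      infer_instance
  refine (hfinal.union hHfin).subset ?_
  rintro x ⟨hx1, hx2⟩
  by_cases hxH : x ∈ H
  · right; exact hxH
  · left; exact ⟨hx1, fun h => h.elim hx2 hxH⟩

include hM hw hsp hli henc in
/-- The main property: the set of permanent elements is cohesive for the sets listed by `w`. -/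
theorem core_cohesive (hinf : ¬ FiniteDimensional F (V ⧸ M))
    (hmax : ∀ n v, FiniteDimensional F ((M ⊔ span F (r.dset n v)).map M.mkQ) ∨
      FiniteDimensional F (V ⧸ (M ⊔ span F (r.dset n v)))) (e : ℕ) :
    (r.core ∩ {x | ∃ s, w e s x = true}).Finite ∨
      (r.core \ {x | ∃ s, w e s x = true}).Finite := by
  classical
  set n := e + 1 with hn
  have hexL : ∃ v, FiniteDimensional F (V ⧸ (M ⊔ span F (r.dset n v))) := by
    refine ⟨2 ^ n, ?_⟩
    have h1 : r.dset n (2 ^ n) = B := by
      ext x
      refine ⟨fun h => h.1, fun h => ⟨h, 0, ?_, bv_lt _ _ _ _⟩⟩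
      rw [r.dead_zero]; exact Set.notMem_empty _
    rw [h1, hsp, sup_top_eq]
    infer_instance
  have hL := Nat.find_spec hexL
  have hpos : Nat.find hexL ≠ 0 := by
    intro h0
    rw [h0] at hL
    have h1 : r.dset n 0 = ∅ := by
      ext x
      simp [dset]
    rw [h1, span_empty, sup_bot_eq] at hL
    exact hinf hL
  obtain ⟨v, hv⟩ := Nat.exists_eq_succ_of_ne_zero hpos
  rw [hv] at hL
  have hnL : ¬ FiniteDimensional F (V ⧸ (M ⊔ span F (r.dset n v))) :=
    Nat.find_min hexL (by rw [hv]; exact Nat.lt_succ_self v)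
  have hsmall := (hmax n v).resolve_right hnL
  have hf1 : (r.core ∩ r.dset n v).Finite := by
    refine finite_of_disjoint hli (fun x hx => hx.1.1) (G := M) ?_ ?_ hsmall
    · exact (r.core_disjoint hli hsp M hM).mono_left (span_mono Set.inter_subset_left)
    · exact fun x hx => mem_sup_right (subset_span hx.2)
  have hf2 : (r.core \ r.dset n (v + 1)).Finite :=
    r.core_diff_finite hli hsp hw henc M hM hL
  have hw' : ∀ x, ∀ s t, s ≤ t → w e s x = true → w e t x = true := by
    intro x s t hst h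
    induction t, hst using Nat.le_induction with
    | base => exact h
    | succ t _ ih => exact hw e t x ih
  -- the final value of the badness is `v`
  have hkey : ∀ x ∈ r.core, x ∉ r.dset n v → x ∈ r.dset n (v + 1) →
      ((∃ s, w e s x = true) ↔ v % 2 = 0) := by
    rintro x ⟨hxB, hx⟩ h1 ⟨-, s, -, h3⟩
    have h4 : ∀ t, v ≤ bv w t n x := by
      intro t
      by_contra hcon
      exact h1 ⟨hxB, t, hx t, not_le.1 hcon⟩
    have h5 : ∀ t, s ≤ t → bv w t n x = v := by
      intro t ht
      have := bv_mono_le w hw n x ht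
      have := h4 t
      omega
    constructor
    · rintro ⟨t, ht⟩
      have h6 := h5 (max s t) (le_max_left _ _)
      have h7 := hw' x t (max s t) (le_max_right _ _) ht
      rw [hn, bv, h7] at h6
      simp only [if_true, add_zero] at h6
      omega
    · intro hv0
      by_contra hcon
      push Not at hcon
      have h6 := h5 s le_rfl
      rw [hn, bv, if_neg (hcon s)] at h6
      omega
  by_cases hpar : v % 2 = 0
  · right
    refine (hf1.union hf2).subset ?_
    rintro x ⟨hx1, hx2⟩
    by_cases h1 : x ∈ r.dset n v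
    · left; exact ⟨hx1, h1⟩
    · right
      refine ⟨hx1, fun h2 => hx2 ?_⟩
      exact (hkey x hx1 h1 h2).2 hpar
  · left
    refine (hf1.union hf2).subset ?_
    rintro x ⟨hx1, hx2⟩
    by_cases h1 : x ∈ r.dset n v
    · left; exact ⟨hx1, h1⟩
    · right
      refine ⟨hx1, fun h2 => hpar ?_⟩
      exact (hkey x hx1 h1 h2).1 hx2

end main

end Run

end Pool.Agent.Helper446.Greedy
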