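import Pool.Agent.Helper446.Comp
import Pool.Agent.Helper446.Greedy

/-!
The construction is effective.
-/

namespace Pool.Agent.Helper446.Construct

open Encodable Pool.Agent.Helper446.RE Pool.Agent.Helper446.Greedy Submodule

universe u v w'

set_option linter.unusedSectionVars false

variable {F : Type u} {V : Type v} [Field F] [Primcodable F] [AddCommGroup V] [Module F V]
  [Primcodable V]

/-- A linear combination given by a list. -/
def lc {β : Type w'} (g : β → V) (l : List (F × β)) : V :=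
  l.foldl (fun acc p => acc + p.1 • g p.2) 0

theorem lc_eq {β : Type w'} (g : β → V) (l : List (F × β)) :
    lc g l = (l.map fun p => p.1 • g p.2).sum := by
  have h : ∀ (l : List (F × β)) (a : V), l.foldl (fun acc p => acc + p.1 • g p.2) a =
      a + (l.map fun p => p.1 • g p.2).sum := by
    intro l
    induction l with
    | nil => intro a; simp
    | cons p l ih => intro a; simp only [List.foldl_cons, ih, List.map_cons, List.sum_cons]; abel
  unfold lc
  rw [h, zero_add]

theorem lc_comp {β : Type w'} [Primcodable β] (hadd : Computable₂ fun x y : V => x + y)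
    (hsmul : Computable₂ fun (c : F) (x : V) => c • x) {g : β → V} (hg : Computable g) :
    Computable fun l : List (F × β) => lc g l := by
  refine list_foldl (f := fun l : List (F × β) => l) (g := fun _ => (0 : V))
    (h := fun _ (q : V × (F × β)) => q.1 + q.2.1 • g q.2.2) (by fun_prop) (by fun_prop) ?_
  refine hadd.comp (by fun_prop) ?_
  exact hsmul.comp (by fun_prop) (by fun_prop)

theorem mem_span_image_iff_lc {β : Type w'} (g : β → V) (T : Set β) (v : V) :
    v ∈ span F (g '' T) ↔ ∃ l : List (F × β), (∀ p ∈ l, p.2 ∈ T) ∧ lc g l = v := by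
  constructor
  · intro h
    induction h using span_induction with
    | mem x hx =>
      obtain ⟨b, hb, rfl⟩ := hx
      refine ⟨[(1, b)], by simpa using hb, by simp [lc]⟩
    | zero => exact ⟨[], by simp, by simp [lc]⟩
    | add x y _ _ hx hy =>
      obtain ⟨l1, h1, rfl⟩ := hx
      obtain ⟨l2, h2, rfl⟩ := hy
      refine ⟨l1 ++ l2, ?_, ?_⟩
      · intro p hp
        rcases List.mem_append.1 hp with hp | hp
        exacts [h1 p hp, h2 p hp]
      · rw [lc_eq, lc_eq, lc_eq, List.map_append, List.sum_append]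
    | smul a x _ hx =>
      obtain ⟨l1, h1, rfl⟩ := hx
      refine ⟨l1.map fun p => (a * p.1, p.2), ?_, ?_⟩
      · intro p hp
        obtain ⟨q, hq, rfl⟩ := List.mem_map.1 hp
        exact h1 q hq
      · rw [lc_eq, lc_eq, List.map_map, List.smul_sum, List.map_map]
        congr 1
        apply List.map_congr_left
        intro p _
        simp [mul_smul]
  · rintro ⟨l, hl, rfl⟩
    rw [lc_eq]
    apply list_sum_mem
    intro x hx
    obtain ⟨p, hp, rfl⟩ := List.mem_map.1 hx
    exact smul_mem _ _ (subset_span ⟨p.2, hl p hp, rfl⟩)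

theorem mem_Ms_iff (m : ℕ → V) (s : ℕ) (v : V) :
    v ∈ Ms F m s ↔ ∃ l : List (F × ℕ), (∀ p ∈ l, p.2 < s) ∧ lc m l = v :=
  mem_span_image_iff_lc m (Set.Iio s) v

/-- Spans of r.e. sets are r.e. -/
theorem re_span (hadd : Computable₂ fun x y : V => x + y)
    (hsmul : Computable₂ fun (c : F) (x : V) => c • x) {T : Set V} (hT : REPred (· ∈ T)) :
    REPred (· ∈ span F T) := by
  have h1 : REPred fun v : V => ∃ l : List (F × V), (∀ p ∈ l, p.2 ∈ T) ∧ lc id l = v := by
    refine ex (p := fun (v : V) (l : List (F × V)) => (∀ p ∈ l, p.2 ∈ T) ∧ lc id l = v) ?_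
    refine RE.and ?_ ?_
    · refine all_mem (p := fun (_ : V × List (F × V)) (p : F × V) => p.2 ∈ T)
        (l := fun x : V × List (F × V) => x.2) ?_ (by fun_prop)
      exact hT.comp (by fun_prop)
    · have := lc_comp (F := F) (V := V) hadd hsmul (g := id) Computable.id
      exact RE.eq (by fun_prop) (by fun_prop)
  refine h1.of_eq fun v => ?_
  have := mem_span_image_iff_lc (F := F) (id : V → V) T v
  rw [Set.image_id] at this
  exact this.symm

theorem re_sup (hadd : Computable₂ fun x y : V => x + y) {P Q : Submodule F V}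
    (hP : REPred (· ∈ P)) (hQ : REPred (· ∈ Q)) : REPred (· ∈ P ⊔ Q) := by
  have h1 : REPred fun v : V => ∃ y : V, y ∈ P ∧ ∃ z : V, z ∈ Q ∧ y + z = v := by
    refine ex (p := fun (v : V) (y : V) => y ∈ P ∧ ∃ z : V, z ∈ Q ∧ y + z = v) ?_
    refine RE.and (hP.comp (by fun_prop)) ?_
    refine ex (p := fun (x : V × V) (z : V) => z ∈ Q ∧ x.2 + z = x.1) ?_
    refine RE.and (hQ.comp (by fun_prop)) ?_
    refine RE.eq ?_ (by fun_prop)
    exact hadd.comp (by fun_prop) (by fun_prop)
  refine h1.of_eq fun v => ?_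
  rw [mem_sup]

/-- Histories: the list of all steps at which something was dropped, with the relation used
(as a list of coefficients), the dropped element and its label. -/
abbrev Hist (F : Type u) (V : Type v) : Type (max u v) := List (List (F × V) × V × ℕ)

open Classical in
/-- The label of `x` after a given history. -/
noncomputable def labf (h : Hist F V) (x : V) : ℕ :=
  h.foldl (fun acc e => if x ∈ e.1.map Prod.snd then min acc e.2.2 else acc) (encode x)

theorem labf_comp : Computable fun p : Hist F V × V => labf p.1 p.2 := by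
  classical
  refine list_foldl (f := fun p : Hist F V × V => p.1) (g := fun p => encode p.2)
    (h := fun p (q : ℕ × (List (F × V) × V × ℕ)) =>
      if p.2 ∈ q.2.1.map Prod.snd then min q.1 q.2.2.2 else q.1) (by fun_prop) (by fun_prop) ?_
  refine cite ?_ (by fun_prop) (by fun_prop)
  exact cp_mem (by fun_prop) (by fun_prop)

theorem labf_append (h : Hist F V) (l : List (F × V)) (x0 : V) (j : ℕ) (x : V) :
    (x ∈ l.map Prod.snd → labf (h ++ [(l, x0, j)]) x = min (labf h x) j) ∧
    (x ∉ l.map Prod.snd → labf (h ++ [(l, x0, j)]) x = labf h x) := by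
  unfold labf
  rw [List.foldl_append]
  constructor
  · intro hx
    simp only [List.foldl_cons, List.foldl_nil]
    rw [if_pos hx]
  · intro hx
    simp only [List.foldl_cons, List.foldl_nil]
    rw [if_neg hx]

/-- The set of dropped elements. -/
def deadf (h : Hist F V) : Set V := {x | ∃ e ∈ h, e.2.1 = x}

theorem not_deadf_re : REPred fun p : Hist F V × V => p.2 ∉ deadf p.1 := by
  have h1 : REPred fun p : Hist F V × V => ∀ e ∈ p.1, e.2.1 ≠ p.2 := by
    refine all_mem (p := fun (p : Hist F V × V) (e : List (F × V) × V × ℕ) => e.2.1 ≠ p.2)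
      (l := fun p : Hist F V × V => p.1) ?_ (by fun_prop)
    exact RE.ne (by fun_prop) (by fun_prop)
  refine h1.of_eq fun p => ?_
  simp only [deadf, Set.mem_ofPred_eq]
  push Not
  rfl

theorem deadf_re : REPred fun p : Hist F V × V => p.2 ∈ deadf p.1 := by
  refine ex_mem (p := fun (p : Hist F V × V) (e : List (F × V) × V × ℕ) => e.2.1 = p.2)
    (l := fun p : Hist F V × V => p.1) ?_ (by fun_prop)
  exact RE.eq (by fun_prop) (by fun_prop)

section construction

variable (B : Set V) (m : ℕ → V) (w : ℕ → ℕ → V → Bool)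

/-- The list `l` uses only alive basis elements, with nonzero coefficients. -/
def Adm (h : Hist F V) (l : List (F × V)) : Prop :=
  ∀ p ∈ l, (p.2 ∈ B ∧ p.2 ∉ deadf h) ∧ p.1 ≠ 0

/-- The list `l` expresses `m s` modulo the earlier elements of the sequence `m`. -/
def Circ (s : ℕ) (l : List (F × V)) : Prop := ∃ y, y ∈ Ms F m s ∧ y + lc id l = m s

/-- The element `x` has the worst key among the elements of `l`. -/
def Worst (s : ℕ) (h : Hist F V) (l : List (F × V)) (x : V) : Prop :=
  ∀ y ∈ l.map Prod.snd, y = x ∨ Prec encode w s (labf h) y x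

/-- The step relation on histories. -/
def StepH (s : ℕ) (h h' : Hist F V) : Prop :=
  (m s ∈ Ms F m s ∧ h' = h) ∨
  ∃ e : List (F × V) × V, Adm B h e.1 ∧ (e.1.map Prod.snd).Nodup ∧
    e.2 ∈ e.1.map Prod.snd ∧ Circ m s e.1 ∧ Worst w s h e.1 e.2 ∧
    h' = h ++ [(e.1, e.2, labf h e.2)]

theorem StepH.toRel {s : ℕ} {h h' : Hist F V} (H : StepH B m w s h h') :
    StepRel F B encode w m s (deadf h) (labf h) (deadf h') (labf h') := by
  classical
  rcases H with ⟨h1, rfl⟩ | ⟨⟨l, x⟩, hl, hnd, hx, ⟨y, hy, hyl⟩, hP, rfl⟩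

  · exact StepRel.quiet h1 rfl rfl
  · have hinj := List.inj_on_of_nodup_map hnd
    let c : V → F := fun z => if hz : ∃ p ∈ l, p.2 = z then hz.choose.1 else 0
    have hc : ∀ p ∈ l, c p.2 = p.1 := by
      intro p hp
      have hz : ∃ q ∈ l, q.2 = p.2 := ⟨p, hp, rfl⟩
      have h1 := hz.choose_spec
      have h2 : hz.choose = p := hinj h1.1 hp h1.2
      show (if hz : ∃ q ∈ l, q.2 = p.2 then hz.choose.1 else 0) = p.1
      rw [dif_pos hz, h2]
    have hsum : ∑ z ∈ (l.map Prod.snd).toFinset, c z • z = lc id l := by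
      rw [List.sum_toFinset _ hnd, lc_eq, List.map_map]
      congr 1
      apply List.map_congr_left
      intro p hp
      simp [hc p hp]
    refine StepRel.active (l.map Prod.snd).toFinset c x ?_ (List.mem_toFinset.2 hx) ?_ ?_ ?_ ?_ ?_
    · intro z hz
      obtain ⟨p, hp, rfl⟩ := List.mem_map.1 (List.mem_toFinset.1 hz)
      have := hl p hp
      exact ⟨this.1.1, this.1.2, by rw [hc p hp]; exact this.2⟩
    · rw [hsum, ← hyl]
      simpa using hy
    · intro z hz hne
      exact (hP z (List.mem_toFinset.1 hz)).resolve_left hne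
    · ext z
      simp only [deadf, List.mem_append, List.mem_singleton, Set.mem_ofPred_eq,
        Set.mem_insert_iff]
      constructor
      · rintro ⟨e, he | rfl, rfl⟩
        · right; exact ⟨e, he, rfl⟩
        · left; rfl
      · rintro (rfl | ⟨e, he, rfl⟩)
        · exact ⟨_, Or.inr rfl, rfl⟩
        · exact ⟨e, Or.inl he, rfl⟩
    · intro z hz
      exact (labf_append h l x (labf h x) z).1 (List.mem_toFinset.1 hz)
    · intro z hz
      exact (labf_append h l x (labf h x) z).2 (fun hcon => hz (List.mem_toFinset.2 hcon))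

theorem StepH.exists_step {s : ℕ} {h : Hist F V}
    (hI : IsCompl (Ms F m s) (span F {x | x ∈ B ∧ x ∉ deadf h})) :
    ∃ h', StepH B m w s h h' := by
  classical
  have htop : m s ∈ Ms F m s ⊔ span F {x | x ∈ B ∧ x ∉ deadf h} := by
    rw [hI.codisjoint.eq_top]; exact mem_top
  obtain ⟨y, hy, z, hz, hyz⟩ := mem_sup.1 htop
  obtain ⟨f, t, hts, -, hsum⟩ := mem_span_iff_exists_finset_subset.1 hz
  set S := t.filter (fun a => f a ≠ 0) with hS
  have hsum2 : ∑ a ∈ S, f a • a = z := by
    rw [← hsum, hS, Finset.sum_filter]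
    apply Finset.sum_congr rfl
    intro a _
    by_cases h : f a = 0 <;> simp [h]
  rcases S.eq_empty_or_nonempty with hSe | hSne
  · rw [hSe, Finset.sum_empty] at hsum2
    refine ⟨h, Or.inl ⟨?_, rfl⟩⟩
    rw [← hyz, ← hsum2, add_zero]; exact hy
  · obtain ⟨x, hxS, hmax⟩ := exists_top encode w s (labf h) encode_injective S hSne
    set l : List (F × V) := S.toList.map fun a => (f a, a) with hl
    have hmap : l.map Prod.snd = S.toList := by
      rw [hl, List.map_map]
      have : (Prod.snd ∘ fun a : V => ((f a, a) : F × V)) = id := rfl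
      rw [this, List.map_id]
    refine ⟨h ++ [(l, x, labf h x)], Or.inr ⟨(l, x), ?_, ?_, ?_, ⟨y, hy, ?_⟩, ?_, rfl⟩⟩
    · intro p hp
      obtain ⟨a, ha, rfl⟩ := List.mem_map.1 hp
      have ha' : a ∈ t ∧ f a ≠ 0 := Finset.mem_filter.1 (Finset.mem_toList.1 ha)
      exact ⟨hts ha'.1, ha'.2⟩
    · rw [hmap]; exact S.nodup_toList
    · rw [hmap]; exact Finset.mem_toList.2 hxS
    · rw [← hyz, lc_eq, hl, List.map_map, ← hsum2]
      congr 1
      rw [← Finset.sum_map_toList]
      rfl
    · intro a ha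
      rw [hmap] at ha
      by_cases hax : a = x
      · left; exact hax
      · right; exact hmax a (Finset.mem_toList.1 ha) hax

end construction

section effective

variable {B : Set V} {m : ℕ → V} {w : ℕ → ℕ → V → Bool}

theorem bv_comp (hw : Computable fun p : (ℕ × ℕ) × V => w p.1.1 p.1.2 p.2) :
    Computable fun p : (ℕ × ℕ) × V => bv w p.1.1 p.1.2 p.2 := by
  classical
  have h := Computable.nat_rec (f := fun p : (ℕ × ℕ) × V => p.1.2) (g := fun _ => 0)
    (h := fun p (q : ℕ × ℕ) => 2 * q.2 + (if w q.1 p.1.1 p.2 = true then 0 else 1))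
    (by fun_prop) (by fun_prop) (by
      unfold Computable₂
      have h1 : Computable fun x : ((ℕ × ℕ) × V) × (ℕ × ℕ) =>
          w x.2.1 x.1.1.1 x.1.2 :=
        hw.comp (g := fun x : ((ℕ × ℕ) × V) × (ℕ × ℕ) => ((x.2.1, x.1.1.1), x.1.2))
          (by fun_prop)
      have h2 : Computable fun x : ((ℕ × ℕ) × V) × (ℕ × ℕ) =>
          (if w x.2.1 x.1.1.1 x.1.2 = true then 0 else 1 : ℕ) :=
        cite (cp_eq h1 (by fun_prop)) (by fun_prop) (by fun_prop)
      fun_prop)
  refine h.of_eq fun p => ?_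
  generalize p.1.2 = n
  induction n with
  | zero => rfl
  | succ n ih => rw [bv, ← ih]

theorem dig_comp (hw : Computable fun p : (ℕ × ℕ) × V => w p.1.1 p.1.2 p.2) :
    Computable fun p : ((ℕ × Hist F V) × V) × ℕ => dig w p.1.1.1 (labf p.1.1.2) p.1.2 p.2 := by
  classical
  have hl : Computable fun p : ((ℕ × Hist F V) × V) × ℕ => labf p.1.1.2 p.1.2 :=
    labf_comp.comp (g := fun p : ((ℕ × Hist F V) × V) × ℕ => (p.1.1.2, p.1.2)) (by fun_prop)
  have h1 : Computable fun p : ((ℕ × Hist F V) × V) × ℕ => w p.2 p.1.1.1 p.1.2 :=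
    hw.comp (g := fun p : ((ℕ × Hist F V) × V) × ℕ => ((p.2, p.1.1.1), p.1.2)) (by fun_prop)
  unfold dig
  refine cite (cp_lt (by fun_prop) (by fun_prop)) ?_ (by fun_prop)
  exact cite (cp_eq h1 (by fun_prop)) (by fun_prop) (by fun_prop)

theorem prec_re (hw : Computable fun p : (ℕ × ℕ) × V => w p.1.1 p.1.2 p.2) :
    REPred fun p : (ℕ × Hist F V) × (V × V) =>
      Prec encode w p.1.1 (labf p.1.2) p.2.1 p.2.2 := by
  have hd := dig_comp (F := F) hw
  have hl := labf_comp (F := F) (V := V)
  unfold Prec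
  refine RE.or ?_ ?_
  · refine exN (p := fun (p : (ℕ × Hist F V) × (V × V)) i =>
      (∀ j < i, dig w p.1.1 (labf p.1.2) p.2.1 j = dig w p.1.1 (labf p.1.2) p.2.2 j) ∧
      dig w p.1.1 (labf p.1.2) p.2.1 i < dig w p.1.1 (labf p.1.2) p.2.2 i) ?_
    have hda : Computable fun q : ((ℕ × Hist F V) × (V × V)) × ℕ =>
        dig w q.1.1.1 (labf q.1.1.2) q.1.2.1 q.2 :=
      hd.comp (g := fun q : ((ℕ × Hist F V) × (V × V)) × ℕ => ((q.1.1, q.1.2.1), q.2))
        (by fun_prop)
    have hdb : Computable fun q : ((ℕ × Hist F V) × (V × V)) × ℕ =>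
        dig w q.1.1.1 (labf q.1.1.2) q.1.2.2 q.2 :=
      hd.comp (g := fun q : ((ℕ × Hist F V) × (V × V)) × ℕ => ((q.1.1, q.1.2.2), q.2))
        (by fun_prop)
    refine RE.and ?_ (RE.lt hda hdb)
    refine all_lt (p := fun (q : ((ℕ × Hist F V) × (V × V)) × ℕ) j =>
      dig w q.1.1.1 (labf q.1.1.2) q.1.2.1 j = dig w q.1.1.1 (labf q.1.1.2) q.1.2.2 j)
      ?_ (by fun_prop)
    refine RE.eq ?_ ?_
    · exact hda.comp (g := fun q : (((ℕ × Hist F V) × (V × V)) × ℕ) × ℕ => (q.1.1, q.2))
        (by fun_prop)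
    · exact hdb.comp (g := fun q : (((ℕ × Hist F V) × (V × V)) × ℕ) × ℕ => (q.1.1, q.2))
        (by fun_prop)
  · refine RE.and ?_ ?_
    · refine all_lt (p := fun (p : (ℕ × Hist F V) × (V × V)) j =>
        dig w p.1.1 (labf p.1.2) p.2.1 j = dig w p.1.1 (labf p.1.2) p.2.2 j) ?_ ?_
      · refine RE.eq ?_ ?_
        · exact hd.comp (g := fun q : ((ℕ × Hist F V) × (V × V)) × ℕ =>
            ((q.1.1, q.1.2.1), q.2)) (by fun_prop)
        · exact hd.comp (g := fun q : ((ℕ × Hist F V) × (V × V)) × ℕ =>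
            ((q.1.1, q.1.2.2), q.2)) (by fun_prop)
      · refine cadd ?_ ?_
        · exact hl.comp (g := fun p : (ℕ × Hist F V) × (V × V) => (p.1.2, p.2.1)) (by fun_prop)
        · exact hl.comp (g := fun p : (ℕ × Hist F V) × (V × V) => (p.1.2, p.2.2)) (by fun_prop)
    · exact RE.lt (by fun_prop) (by fun_prop)

theorem ms_re (hadd : Computable₂ fun x y : V => x + y)
    (hsmul : Computable₂ fun (c : F) (x : V) => c • x) (hm : Computable m) :
    REPred fun p : ℕ × V => p.2 ∈ Ms F m p.1 := by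
  have hlc := lc_comp (F := F) (V := V) hadd hsmul hm
  have h : REPred fun p : ℕ × V => ∃ l : List (F × ℕ), (∀ q ∈ l, q.2 < p.1) ∧ lc m l = p.2 := by
    refine ex (p := fun (p : ℕ × V) (l : List (F × ℕ)) =>
      (∀ q ∈ l, q.2 < p.1) ∧ lc m l = p.2) ?_
    refine RE.and ?_ (RE.eq (by fun_prop) (by fun_prop))
    refine all_mem (p := fun (p : (ℕ × V) × List (F × ℕ)) (q : F × ℕ) => q.2 < p.1.1)
      (l := fun p : (ℕ × V) × List (F × ℕ) => p.2) ?_ (by fun_prop)
    exact RE.lt (by fun_prop) (by fun_prop)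
  refine h.of_eq fun p => ?_
  rw [mem_Ms_iff]

theorem adm_re (hB : REPred (· ∈ B)) :
    REPred fun q : Hist F V × List (F × V) => Adm B q.1 q.2 := by
  unfold Adm
  refine all_mem (p := fun (p : Hist F V × List (F × V)) (q : F × V) =>
    (q.2 ∈ B ∧ q.2 ∉ deadf p.1) ∧ q.1 ≠ 0) (l := fun p : Hist F V × List (F × V) => p.2) ?_
    (by fun_prop)
  refine RE.and (RE.and (hB.comp (by fun_prop)) ?_) (RE.ne (by fun_prop) (by fun_prop))
  exact RE.comp not_deadf_re (f := fun (p : (Hist F V × List (F × V)) × (F × V)) =>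
    (p.1.1, p.2.2)) (by fun_prop)

theorem circ_re (hadd : Computable₂ fun x y : V => x + y)
    (hsmul : Computable₂ fun (c : F) (x : V) => c • x) (hm : Computable m) :
    REPred fun q : ℕ × List (F × V) => Circ m q.1 q.2 := by
  have hms := ms_re (F := F) hadd hsmul hm
  have hid := lc_comp (F := F) (V := V) hadd hsmul (g := id) Computable.id
  unfold Circ
  refine ex (p := fun (p : ℕ × List (F × V)) (y : V) =>
    y ∈ Ms F m p.1 ∧ y + lc id p.2 = m p.1) ?_
  refine RE.and ?_ (RE.eq ?_ (by fun_prop))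
  · exact RE.comp hms (f := fun (p : (ℕ × List (F × V)) × V) => (p.1.1, p.2)) (by fun_prop)
  · exact hadd.comp (by fun_prop) (by fun_prop)

theorem worst_re (hw : Computable fun p : (ℕ × ℕ) × V => w p.1.1 p.1.2 p.2) :
    REPred fun q : (ℕ × Hist F V) × (List (F × V) × V) => Worst w q.1.1 q.1.2 q.2.1 q.2.2 := by
  have hprec := prec_re (F := F) hw
  unfold Worst
  refine all_mem (p := fun (p : (ℕ × Hist F V) × (List (F × V) × V)) (y : V) =>
    y = p.2.2 ∨ Prec encode w p.1.1 (labf p.1.2) y p.2.2)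
    (l := fun (p : (ℕ × Hist F V) × (List (F × V) × V)) => p.2.1.map Prod.snd) ?_ (by fun_prop)
  refine RE.or (RE.eq (by fun_prop) (by fun_prop)) ?_
  exact RE.comp hprec (f := fun (p : ((ℕ × Hist F V) × (List (F × V) × V)) × V) =>
    (p.1.1, (p.2, p.1.2.2))) (by fun_prop)

theorem stepH_re (hadd : Computable₂ fun x y : V => x + y)
    (hsmul : Computable₂ fun (c : F) (x : V) => c • x) (hB : REPred (· ∈ B))
    (hm : Computable m) (hw : Computable fun p : (ℕ × ℕ) × V => w p.1.1 p.1.2 p.2) :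
    REPred fun p : (ℕ × Hist F V) × Hist F V => StepH B m w p.1.1 p.1.2 p.2 := by
  have hms := ms_re (F := F) hadd hsmul hm
  have hlab := labf_comp (F := F) (V := V)
  have h1 : REPred fun p : (ℕ × Hist F V) × Hist F V => (m p.1.1 ∈ Ms F m p.1.1 ∧ p.2 = p.1.2) := by
    refine RE.and ?_ (RE.eq (by fun_prop) (by fun_prop))
    exact RE.comp hms (f := fun p : (ℕ × Hist F V) × Hist F V => (p.1.1, m p.1.1)) (by fun_prop)
  have h2 : REPred fun q : ((ℕ × Hist F V) × Hist F V) × (List (F × V) × V) =>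
      Adm B q.1.1.2 q.2.1 :=
    RE.comp (adm_re (F := F) hB) (f := fun q : ((ℕ × Hist F V) × Hist F V) ×
      (List (F × V) × V) => (q.1.1.2, q.2.1)) (by fun_prop)
  have h3 : REPred fun q : ((ℕ × Hist F V) × Hist F V) × (List (F × V) × V) =>
      (q.2.1.map Prod.snd).Nodup := cp_nodup (by fun_prop)
  have h4 : REPred fun q : ((ℕ × Hist F V) × Hist F V) × (List (F × V) × V) =>
      q.2.2 ∈ q.2.1.map Prod.snd := mem_list (by fun_prop) (by fun_prop)
  have h5 : REPred fun q : ((ℕ × Hist F V) × Hist F V) × (List (F × V) × V) =>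
      Circ m q.1.1.1 q.2.1 :=
    RE.comp (circ_re (F := F) hadd hsmul hm) (f := fun q : ((ℕ × Hist F V) × Hist F V) ×
      (List (F × V) × V) => (q.1.1.1, q.2.1)) (by fun_prop)
  have h6 : REPred fun q : ((ℕ × Hist F V) × Hist F V) × (List (F × V) × V) =>
      Worst w q.1.1.1 q.1.1.2 q.2.1 q.2.2 :=
    RE.comp (worst_re (F := F) hw) (f := fun q : ((ℕ × Hist F V) × Hist F V) ×
      (List (F × V) × V) => (q.1.1, q.2)) (by fun_prop)
  have h7 : Computable fun q : ((ℕ × Hist F V) × Hist F V) × (List (F × V) × V) =>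
      labf q.1.1.2 q.2.2 :=
    hlab.comp (g := fun q : ((ℕ × Hist F V) × Hist F V) × (List (F × V) × V) =>
      (q.1.1.2, q.2.2)) (by fun_prop)
  have h8 : REPred fun q : ((ℕ × Hist F V) × Hist F V) × (List (F × V) × V) =>
      q.1.2 = q.1.1.2 ++ [(q.2.1, q.2.2, labf q.1.1.2 q.2.2)] := by
    refine RE.eq (by fun_prop) ?_
    fun_prop
  have h9 := ex (p := fun (p : (ℕ × Hist F V) × Hist F V) (e : List (F × V) × V) =>
    Adm B p.1.2 e.1 ∧ (e.1.map Prod.snd).Nodup ∧ e.2 ∈ e.1.map Prod.snd ∧ Circ m p.1.1 e.1 ∧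
    Worst w p.1.1 p.1.2 e.1 e.2 ∧ p.2 = p.1.2 ++ [(e.1, e.2, labf p.1.2 e.2)])
    (RE.and h2 (RE.and h3 (RE.and h4 (RE.and h5 (RE.and h6 h8)))))
  exact RE.or h1 h9

/-- There is a computable run of the construction. -/
theorem exists_run (hadd : Computable₂ fun x y : V => x + y)
    (hsmul : Computable₂ fun (c : F) (x : V) => c • x) (hB : REPred (· ∈ B))
    (hli : LinearIndepOn F id B) (hsp : span F B = ⊤)
    (hm : Computable m) (hw : Computable fun p : (ℕ × ℕ) × V => w p.1.1 p.1.2 p.2) :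
    ∃ H : ℕ → Hist F V, Computable H ∧ H 0 = [] ∧ ∀ s, StepH B m w s (H s) (H (s + 1)) := by
  obtain ⟨nxt, hnxt, hdom, hspec⟩ := uniformize
    (r := fun (p : ℕ × Hist F V) (h' : Hist F V) => StepH B m w p.1 p.2 h')
    (stepH_re (F := F) hadd hsmul hB hm hw)
  let st : ℕ → Part (Hist F V) := fun n =>
    Nat.rec (motive := fun _ => Part (Hist F V)) (Part.some []) (fun y IH => IH.bind fun i =>
      nxt (y, i)) n
  have hst : Partrec st := by
    refine Partrec.nat_rec (f := fun n : ℕ => n) (g := fun _ => Part.some [])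
      (h := fun _ (q : ℕ × Hist F V) => nxt q) Computable.id
      (Partrec.some.comp (Computable.const [])) ?_
    exact hnxt.comp Computable.snd
  have hgood : ∀ n, ∃ h, h ∈ st n ∧ IsCompl (Ms F m n) (span F {x | x ∈ B ∧ x ∉ deadf h}) := by
    intro n
    induction n with
    | zero =>
      refine ⟨[], Part.mem_some _, ?_⟩
      have h1 : {x | x ∈ B ∧ x ∉ deadf ([] : Hist F V)} = B := by
        ext x; simp [deadf]
      rw [h1, Ms_zero, hsp]
      exact isCompl_bot_top
    | succ n ih =>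
      obtain ⟨h, hh, hI⟩ := ih
      have hd : (nxt (n, h)).Dom := (hdom (n, h)).2 (StepH.exists_step B m w hI)
      refine ⟨(nxt (n, h)).get hd, ?_, ?_⟩
      · show _ ∈ (st n).bind fun i => nxt (n, i)
        exact Part.mem_bind hh (Part.get_mem hd)
      · have h1 : StepH B m w n h ((nxt (n, h)).get hd) := hspec (n, h) _ (Part.get_mem hd)
        exact Run.step_inv hli (h1.toRel B m w) hI
  choose H hH hI using hgood
  refine ⟨H, hst.of_eq_tot hH, ?_, ?_⟩
  · have := hH 0
    exact Part.mem_some_iff.1 this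
  · intro s
    have h1 : H (s + 1) ∈ (st s).bind fun i => nxt (s, i) := hH (s + 1)
    obtain ⟨i, hi, hi2⟩ := Part.mem_bind_iff.1 h1
    have h2 : i = H s := Part.mem_unique hi (hH s)
    subst h2
    exact hspec (s, H s) _ hi2

/-- Turn a computed sequence of histories into a run. -/
noncomputable def toRun {H : ℕ → Hist F V} (h0 : H 0 = [])
    (hstep : ∀ s, StepH B m w s (H s) (H (s + 1))) :
    Run F B (encode : V → ℕ) w m where
  dead s := deadf (H s)
  lab s := labf (H s)
  dead_zero := by rw [h0]; simp [deadf]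
  lab_zero := by rw [h0]; funext x; simp [labf]
  step s := (hstep s).toRel B m w

end effective

end Pool.Agent.Helper446.Construct
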