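import Pool.Agent.Helper446.Thin

/-!
Degrees, and the enumeration attached to a c.e. set.
-/

namespace Pool.Agent.Helper446.Deg

open Encodable Pool.Agent.Helper446.RE Pool.Agent.Helper446.Defs Pool.Agent.Helper446.Tree
  Pool.Agent.Helper446.Oracle Pool.Agent.Helper446.Cls Pool.Agent.Helper446.Thin

section degree

variable {α β γ : Type} [Primcodable α] [Primcodable β] [Primcodable γ]

/-- Transitivity. -/
theorem REIn.trans {A B : Set ℕ} {S : α → Prop} (h : REIn A S) (h1 : REIn B fun x => x ∈ A)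
    (h2 : REIn B fun x => x ∉ A) : REIn B S := by
  obtain ⟨R, hR, hS⟩ := h
  have h3 : REIn B fun a => ∃ c : List ℕ × List ℕ, R a c ∧
      (∀ x ∈ c.1, x ∈ A) ∧ ∀ x ∈ c.2, x ∉ A := by
    refine REIn.ex (S := fun a (c : List ℕ × List ℕ) => R a c ∧
      (∀ x ∈ c.1, x ∈ A) ∧ ∀ x ∈ c.2, x ∉ A) ?_
    refine REIn.and (REIn.of_re hR) (REIn.and ?_ ?_)
    · refine REIn.all_mem (S := fun (_ : α × (List ℕ × List ℕ)) (x : ℕ) => x ∈ A)
        (l := fun y => y.2.1) ?_ (by fun_prop)
      exact h1.comp (by fun_prop)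
    · refine REIn.all_mem (S := fun (_ : α × (List ℕ × List ℕ)) (x : ℕ) => x ∉ A)
        (l := fun y => y.2.2) ?_ (by fun_prop)
      exact h2.comp (by fun_prop)
  exact h3.of_eq fun a => (hS a).symm

/-- The set of codes. -/
def cod (S : Set α) : Set ℕ := encode '' S

theorem mem_cod {S : Set α} {a : α} : encode a ∈ cod S ↔ a ∈ S := by
  constructor
  · rintro ⟨b, hb, h⟩
    rwa [← encode_injective h]
  · exact fun h => ⟨a, h, rfl⟩

theorem rein_cod {S : Set α} : REIn (cod S) fun a => a ∈ S :=
  (REIn.mem (f := fun a : α => encode a) (by fun_prop)).of_eq fun _ => mem_cod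

theorem rein_cod_not {S : Set α} : REIn (cod S) fun a => a ∉ S :=
  (REIn.not_mem (f := fun a : α => encode a) (by fun_prop)).of_eq fun _ => not_congr mem_cod

theorem rein_mem_cod {B : Set ℕ} {S : Set α} (h : REIn B fun a => a ∈ S) :
    REIn B fun n => n ∈ cod S := by
  refine (REIn.ex (S := fun (n : ℕ) (a : α) => a ∈ S ∧ encode a = n) ?_).of_eq fun n => Iff.rfl
  exact REIn.and (h.comp (by fun_prop)) (REIn.of_re (RE.eq (by fun_prop) (by fun_prop)))

theorem rein_not_mem_cod {B : Set ℕ} {S : Set α} (h : REIn B fun a => a ∉ S) :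
    REIn B fun n => n ∉ cod S := by
  have h0 : ComputablePred fun n : ℕ => n ∈ Set.range (encode : α → ℕ) :=
    Primcodable.mem_range_encode.computablePred
  have h1 : REIn B fun n : ℕ => (¬ n ∈ Set.range (encode : α → ℕ)) ∨
      ∃ a : α, encode a = n ∧ a ∉ S := by
    refine REIn.or (REIn.of_re h0.not.to_re) ?_
    refine REIn.ex (S := fun (n : ℕ) (a : α) => encode a = n ∧ a ∉ S) ?_
    exact REIn.and (REIn.of_re (RE.eq (by fun_prop) (by fun_prop))) (h.comp (by fun_prop))
  refine h1.of_eq fun n => ?_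
  constructor
  · rintro (h2 | ⟨a, rfl, h2⟩)
    · rintro ⟨a, -, rfl⟩
      exact h2 ⟨a, rfl⟩
    · rwa [mem_cod]
  · intro h2
    by_cases h3 : n ∈ Set.range (encode : α → ℕ)
    · right
      obtain ⟨a, rfl⟩ := h3
      exact ⟨a, rfl, fun h => h2 (mem_cod.2 h)⟩
    · left; exact h3

/-- Equality of degrees. -/
theorem degree_eq {S : Set α} {T : Set β} (h1 : REIn (cod T) fun a => a ∈ S)
    (h2 : REIn (cod T) fun a => a ∉ S) (h3 : REIn (cod S) fun a => a ∈ T)
    (h4 : REIn (cod S) fun a => a ∉ T) : degree S = degree T := by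
  unfold degree
  apply Quotient.sound
  constructor
  · show TuringReducible (chi (cod S)) (chi (cod T))
    exact turingReducible_iff.2 ⟨rein_mem_cod h1, rein_not_mem_cod h2⟩
  · show TuringReducible (chi (cod T)) (chi (cod S))
    exact turingReducible_iff.2 ⟨rein_mem_cod h3, rein_not_mem_cod h4⟩

theorem degree_eq_iff {S : Set α} {T : Set β} : degree S = degree T ↔
    (TuringReducible (chi (cod S)) (chi (cod T)) ∧
      TuringReducible (chi (cod T)) (chi (cod S))) := by
  constructor
  · intro h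
    exact Quotient.exact h
  · intro h
    exact Quotient.sound h

theorem cod_nat (E : Set ℕ) : cod E = E := by
  ext n
  unfold cod
  simp

/-- Complements have the same degree. -/
theorem degree_compl (S : Set α) : degree Sᶜ = degree S := by
  refine degree_eq ?_ ?_ ?_ ?_
  · exact rein_cod_not
  · exact rein_cod.of_eq fun a => by simp
  · exact (rein_cod_not (S := Sᶜ)).of_eq fun a => by simp
  · exact (rein_cod (S := Sᶜ)).of_eq fun a => by simp

/-- The degree of a c.e. set of coded objects is the degree of a c.e. set of numbers. -/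
theorem exists_re_degree {S : Set α} (h : REPred fun a => a ∈ S) :
    ∃ E : Set ℕ, (REPred fun n => n ∈ E) ∧ degree S = degree E := by
  refine ⟨cod S, ?_, ?_⟩
  · refine (RE.ex (p := fun (n : ℕ) (a : α) => a ∈ S ∧ encode a = n) ?_).of_eq fun n => Iff.rfl
    exact RE.and (h.comp (by fun_prop)) (RE.eq (by fun_prop) (by fun_prop))
  · unfold degree
    rw [show (encode '' (cod S : Set ℕ) : Set ℕ) = encode '' S from cod_nat _]

end degree

section enum

variable (q : ℕ → ℕ → Bool)

/-- `k` codes a first witness. -/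
def fw (k : ℕ) : Prop := q k.unpair.1 k.unpair.2 = true ∧ ∀ m < k.unpair.2, q k.unpair.1 m = false

open Classical in
/-- An injective enumeration attached to `q`. -/
noncomputable def F (n : ℕ) : ℕ :=
  if n = 0 then 0 else if fw q (n - 1) then 2 * (n - 1).unpair.1 + 1 else 2 * (n - 1) + 2

theorem F_zero : F q 0 = 0 := by simp [F]

theorem F_succ_fw {k : ℕ} (h : fw q k) : F q (k + 1) = 2 * k.unpair.1 + 1 := by
  unfold F
  rw [if_neg (by omega), Nat.add_sub_cancel, if_pos h]

theorem F_succ_not {k : ℕ} (h : ¬ fw q k) : F q (k + 1) = 2 * k + 2 := by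
  unfold F
  rw [if_neg (by omega), Nat.add_sub_cancel, if_neg h]

theorem F_pos {n : ℕ} (h : 0 < n) : F q 0 < F q n := by
  obtain ⟨k, rfl⟩ := Nat.exists_eq_succ_of_ne_zero (by omega : n ≠ 0)
  rw [F_zero]
  by_cases hk : fw q k
  · rw [Nat.succ_eq_add_one, F_succ_fw q hk]; omega
  · rw [Nat.succ_eq_add_one, F_succ_not q hk]; omega

theorem fw_unique {j k : ℕ} (hj : fw q j) (hk : fw q k) (h : j.unpair.1 = k.unpair.1) :
    j = k := by
  have h2 : j.unpair.2 = k.unpair.2 := by
    rcases Nat.lt_trichotomy j.unpair.2 k.unpair.2 with h3 | h3 | h3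
    · have := hk.2 _ h3
      rw [← h, hj.1] at this
      simp at this
    · exact h3
    · have := hj.2 _ h3
      rw [h, hk.1] at this
      simp at this
  rw [← Nat.pair_unpair j, ← Nat.pair_unpair k, h, h2]

theorem F_injective : Function.Injective (F q) := by
  intro i j h
  rcases Nat.eq_zero_or_pos i with rfl | hi
  · rcases Nat.eq_zero_or_pos j with rfl | hj
    · rfl
    · have := F_pos q hj
      omega
  · rcases Nat.eq_zero_or_pos j with rfl | hj
    · have := F_pos q hi
      omega
    · obtain ⟨i, rfl⟩ := Nat.exists_eq_succ_of_ne_zero (by omega : i ≠ 0)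
      obtain ⟨j, rfl⟩ := Nat.exists_eq_succ_of_ne_zero (by omega : j ≠ 0)
      simp only [Nat.succ_eq_add_one] at h ⊢
      by_cases h1 : fw q i <;> by_cases h2 : fw q j
      · rw [F_succ_fw q h1, F_succ_fw q h2] at h
        rw [fw_unique q h1 h2 (by omega)]
      · rw [F_succ_fw q h1, F_succ_not q h2] at h
        omega
      · rw [F_succ_not q h1, F_succ_fw q h2] at h
        omega
      · rw [F_succ_not q h1, F_succ_not q h2] at h
        omega

variable {q}

theorem fw_cp (hq : Computable₂ q) : ComputablePred fun k => fw q k := by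
  have h0 : Computable fun k : ℕ => q k.unpair.1 k.unpair.2 :=
    hq.comp (by fun_prop) (by fun_prop)
  have h1 : Computable fun x : ℕ × ℕ => q x.1.unpair.1 x.2 :=
    hq.comp (g := fun x : ℕ × ℕ => x.1.unpair.1) (h := fun x => x.2) (by fun_prop)
      (by fun_prop)
  refine cp_of_re ?_ ?_
  · refine RE.and (RE.eq h0 (by fun_prop)) ?_
    refine all_lt (p := fun (k : ℕ) m => q k.unpair.1 m = false) ?_ (by fun_prop)
    exact RE.eq h1 (by fun_prop)
  · have h2 : REPred fun k : ℕ => q k.unpair.1 k.unpair.2 ≠ true ∨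
        ∃ m, m < k.unpair.2 ∧ q k.unpair.1 m ≠ false := by
      refine RE.or (RE.ne h0 (by fun_prop)) ?_
      refine exN (p := fun (k : ℕ) m => m < k.unpair.2 ∧ q k.unpair.1 m ≠ false) ?_
      exact RE.and (RE.lt (by fun_prop) (by fun_prop)) (RE.ne h1 (by fun_prop))
    refine h2.of_eq fun k => ?_
    unfold fw
    rw [not_and_or]
    push Not
    rfl

theorem F_comp (hq : Computable₂ q) : Computable (F q) := by
  classical
  have h1 : ComputablePred fun n : ℕ => fw q (n - 1) := cp_comp (fw_cp hq) (by fun_prop)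
  have h2 : Computable fun n : ℕ => if n = 0 then 0 else
      if fw q (n - 1) then 2 * (n - 1).unpair.1 + 1 else 2 * (n - 1) + 2 := by
    refine cite (cp_eq (by fun_prop) (by fun_prop)) (by fun_prop) ?_
    exact cite h1 (by fun_prop) (by fun_prop)
  refine h2.of_eq fun n => ?_
  rfl

theorem mem_range_odd {x : ℕ} : (∃ r, F q r = 2 * x + 1) ↔ ∃ n, q x n = true := by
  classical
  constructor
  · rintro ⟨r, hr⟩
    rcases Nat.eq_zero_or_pos r with rfl | h0
    · rw [F_zero] at hr; omega
    · obtain ⟨k, rfl⟩ := Nat.exists_eq_succ_of_ne_zero (by omega : r ≠ 0)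
      simp only [Nat.succ_eq_add_one] at hr
      by_cases h : fw q k
      · rw [F_succ_fw q h] at hr
        have : k.unpair.1 = x := by omega
        exact ⟨k.unpair.2, this ▸ h.1⟩
      · rw [F_succ_not q h] at hr; omega
  · intro h
    have h1 := Nat.find_spec h
    have h2 : fw q (Nat.pair x (Nat.find h)) := by
      unfold fw
      simp only [Nat.unpair_pair]
      refine ⟨h1, fun m hm => ?_⟩
      exact Bool.eq_false_iff.2 (Nat.find_min h hm)
    exact ⟨_, by rw [F_succ_fw q h2]; simp only [Nat.unpair_pair]⟩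

theorem mem_range_even {k : ℕ} : (∃ r, F q r = 2 * k + 2) ↔ ¬ fw q k := by
  constructor
  · rintro ⟨r, hr⟩
    rcases Nat.eq_zero_or_pos r with rfl | h0
    · rw [F_zero] at hr; omega
    · obtain ⟨j, rfl⟩ := Nat.exists_eq_succ_of_ne_zero (by omega : r ≠ 0)
      simp only [Nat.succ_eq_add_one] at hr
      by_cases h : fw q j
      · rw [F_succ_fw q h] at hr; omega
      · rw [F_succ_not q h] at hr
        have : j = k := by omega
        exact this ▸ h
  · intro h
    exact ⟨k + 1, F_succ_not q h⟩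

theorem tr_F_iff (s : ℕ) : Tr (F q) s ↔ ∀ v < F q s, (∃ r < s, F q r = v) ∨ ¬ ∃ r, F q r = v := by
  constructor
  · intro h v hv
    by_cases h1 : ∃ r, F q r = v
    · left
      obtain ⟨r, rfl⟩ := h1
      refine ⟨r, ?_, rfl⟩
      by_contra hcon
      rcases Nat.lt_or_ge s r with h2 | h2
      · have := h r h2
        omega
      · have : r = s := by omega
        rw [this] at hv
        omega
    · right; exact h1
  · intro h r hr
    by_contra hcon
    have hne : F q r ≠ F q s := fun h1 => by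
      have := F_injective q h1
      omega
    rcases h (F q r) (by omega) with ⟨r', h1, h2⟩ | h1
    · have := F_injective q h2
      omega
    · exact h1 ⟨r, rfl⟩

variable {E : Set ℕ}

/-- The true stages are c.e. in the set. -/
theorem tr_rein (hq : Computable₂ q) (hE : ∀ x, x ∈ E ↔ ∃ n, q x n = true) :
    REIn E fun s => Tr (F q) s := by
  have hF := F_comp hq
  have h1 : REIn E fun v : ℕ => ¬ ∃ r, F q r = v := by
    have h2 : REIn E fun v : ℕ => (∃ x, v = 2 * x + 1 ∧ x ∉ E) ∨ ∃ k, v = 2 * k + 2 ∧ fw q k := by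
      refine REIn.or ?_ ?_
      · refine REIn.ex (S := fun (v x : ℕ) => v = 2 * x + 1 ∧ x ∉ E) ?_
        exact REIn.and (REIn.of_re (RE.eq (by fun_prop) (by fun_prop)))
          (REIn.not_mem (by fun_prop))
      · refine REIn.ex (S := fun (v k : ℕ) => v = 2 * k + 2 ∧ fw q k) ?_
        refine REIn.of_re (RE.and (RE.eq (by fun_prop) (by fun_prop)) ?_)
        exact (cp_comp (fw_cp hq) (by fun_prop)).to_re
    refine h2.of_eq fun v => ?_
    constructor
    · rintro (⟨x, rfl, hx⟩ | ⟨k, rfl, hk⟩)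
      · rwa [mem_range_odd, ← hE]
      · rw [mem_range_even]; exact fun h => h hk
    · intro h
      rcases Nat.even_or_odd' v with ⟨k, rfl | rfl⟩
      · rcases Nat.eq_zero_or_pos k with rfl | hk
        · exact absurd ⟨0, F_zero q⟩ h
        · right
          obtain ⟨j, rfl⟩ := Nat.exists_eq_succ_of_ne_zero (by omega : k ≠ 0)
          refine ⟨j, by omega, ?_⟩
          by_contra hcon
          apply h
          obtain ⟨r, hr⟩ := mem_range_even.2 hcon
          exact ⟨r, by rw [hr]; omega⟩
      · left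
        refine ⟨k, rfl, ?_⟩
        rwa [mem_range_odd, ← hE] at h
  have h3 : REIn E fun s : ℕ => ∀ v < F q s,
      (∃ r < s, F q r = v) ∨ ¬ ∃ r, F q r = v := by
    refine REIn.all_lt (S := fun (s v : ℕ) => (∃ r < s, F q r = v) ∨ ¬ ∃ r, F q r = v) ?_ hF
    refine REIn.or ?_ (h1.comp (by fun_prop))
    refine (REIn.ex (S := fun (x : ℕ × ℕ) r => r < x.1 ∧ F q r = x.2) ?_)
    refine REIn.of_re (RE.and (RE.lt (by fun_prop) (by fun_prop)) ?_)
    exact RE.eq (by fun_prop) (by fun_prop)
  exact h3.of_eq fun s => (tr_F_iff s).symm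

theorem exists_true_large (v : ℕ) : ∃ s, Tr (F q) s ∧ v < F q s := by
  induction v with
  | zero =>
    obtain ⟨s, hs, hst⟩ := exists_true (F_injective q) 0
    refine ⟨s, hst, ?_⟩
    have := F_pos q hs
    omega
  | succ v ih =>
    obtain ⟨s, hs, hv⟩ := ih
    obtain ⟨t, ht, htr⟩ := exists_true (F_injective q) s
    exact ⟨t, htr, by have := hs t ht; omega⟩

/-- The complement of the set is c.e. in the true stages. -/
theorem compl_rein {B : Set ℕ} (hq : Computable₂ q) (hE : ∀ x, x ∈ E ↔ ∃ n, q x n = true)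
    (hB : REIn B fun s => Tr (F q) s) : REIn B fun x => x ∉ E := by
  have hF := F_comp hq
  have h1 : REIn B fun x : ℕ => ∃ s, Tr (F q) s ∧ 2 * x + 1 < F q s ∧
      ∀ r < s, F q r ≠ 2 * x + 1 := by
    refine REIn.ex (S := fun (x s : ℕ) => Tr (F q) s ∧ 2 * x + 1 < F q s ∧
      ∀ r < s, F q r ≠ 2 * x + 1) ?_
    refine REIn.and (hB.comp (by fun_prop)) (REIn.of_re (RE.and ?_ ?_))
    · exact RE.lt (by fun_prop) (by fun_prop)
    · refine all_lt (p := fun (x : ℕ × ℕ) r => F q r ≠ 2 * x.1 + 1) ?_ (by fun_prop)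
      exact RE.ne (by fun_prop) (by fun_prop)
  refine h1.of_eq fun x => ?_
  rw [hE, ← mem_range_odd]
  constructor
  · rintro ⟨s, hs, h2, h3⟩ ⟨r, hr⟩
    rcases Nat.lt_trichotomy r s with h4 | h4 | h4
    · exact h3 r h4 hr
    · rw [← h4] at h2; omega
    · have := hs r h4
      omega
  · intro h
    obtain ⟨s, hs, h2⟩ := exists_true_large (q := q) (2 * x + 1)
    exact ⟨s, hs, h2, fun r _ hr => h ⟨r, hr⟩⟩

end enum

end Pool.Agent.Helper446.Deg
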