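import Pool.Agent.Helper446.Oracle

/-!
See the statement at the end of the file.
-/

namespace Pool.Agent.Helper446.Dense

open Encodable Pool.Agent.Helper446.RE Pool.Agent.Helper446.Oracle

/-- Partial sums of `f + 1`. -/
def psum (f : ℕ → ℕ) : ℕ → ℕ
  | 0 => 0
  | n + 1 => psum f n + (f n + 1)

theorem psum_comp {f : ℕ → ℕ} (hf : Computable f) : Computable (psum f) := by
  have h := Computable.nat_rec (α := ℕ) (σ := ℕ) (f := fun n => n) (g := fun _ => 0)
    (h := fun _ (y : ℕ × ℕ) => y.2 + (f y.1 + 1)) (by fun_prop) (by fun_prop)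
    (show Computable fun p : ℕ × (ℕ × ℕ) => p.2.2 + (f p.2.1 + 1) by fun_prop)
  refine h.of_eq fun n => ?_
  induction n with
  | zero => rfl
  | succ n ih => simp only [psum]; rw [← ih]

theorem psum_strictMono (f : ℕ → ℕ) : StrictMono (psum f) :=
  strictMono_nat_of_lt_succ fun n => by simp only [psum]; omega

theorem lt_psum (f : ℕ → ℕ) {n m : ℕ} (h : n < m) : f n < psum f m := by
  have h1 : psum f (n + 1) ≤ psum f m := (psum_strictMono f).monotone h
  simp only [psum] at h1
  omega

/-- A co-c.e. cohesive set which is c.e. in `A` yields a function computable in `A` that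
dominates every computable function. -/
theorem exists_dominating (A C : Set ℕ) (hinf : C.Infinite) (hco : REPred fun x => x ∉ C)
    (hcoh : ∀ W : Set ℕ, REPred (· ∈ W) → (C ∩ W).Finite ∨ (C \ W).Finite)
    (hC : REIn A (· ∈ C)) :
    ∃ g : ℕ → ℕ, REIn A (fun p : ℕ × ℕ => g p.1 = p.2) ∧
      ∀ f : ℕ → ℕ, Computable f → ∃ n0, ∀ n, n0 ≤ n → f n ≤ g n := by
  classical
  refine ⟨Nat.nth (· ∈ C), ?_, ?_⟩
  · have h1 : REIn A fun p : ℕ × ℕ => p.2 ∈ C ∧ ∃ l : List ℕ, l.Nodup ∧ l.length = p.1 ∧
        (∀ x ∈ l, x < p.2 ∧ x ∈ C) ∧ ∀ x < p.2, x ∈ l ∨ x ∉ C := by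
      refine REIn.and (hC.comp (f := fun p : ℕ × ℕ => p.2) (by fun_prop)) ?_
      refine REIn.ex (S := fun (p : ℕ × ℕ) (l : List ℕ) => l.Nodup ∧ l.length = p.1 ∧
        (∀ x ∈ l, x < p.2 ∧ x ∈ C) ∧ ∀ x < p.2, x ∈ l ∨ x ∉ C) ?_
      refine REIn.and (REIn.of_re (cp_nodup (l := fun y : (ℕ × ℕ) × List ℕ => y.2) (by fun_prop))) ?_
      refine REIn.and (REIn.of_re (RE.eq (by fun_prop) (by fun_prop))) ?_
      refine REIn.and ?_ ?_
      · refine REIn.all_mem (S := fun (y : (ℕ × ℕ) × List ℕ) (x : ℕ) => x < y.1.2 ∧ x ∈ C) ?_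
          (by fun_prop)
        refine REIn.and (REIn.of_re (RE.lt (by fun_prop) (by fun_prop))) ?_
        exact hC.comp (f := fun y : ((ℕ × ℕ) × List ℕ) × ℕ => y.2) (by fun_prop)
      · refine REIn.all_lt (S := fun (y : (ℕ × ℕ) × List ℕ) (x : ℕ) => x ∈ y.2 ∨ x ∉ C) ?_
          (by fun_prop)
        refine REIn.or (REIn.of_re (RE.mem_list (by fun_prop) (by fun_prop))) ?_
        exact REIn.of_re (RE.comp hco (f := fun y : ((ℕ × ℕ) × List ℕ) × ℕ => y.2) (by fun_prop))
    refine h1.of_eq ?_
    rintro ⟨n, y⟩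
    simp only
    constructor
    · rintro ⟨hy, l, hnd, hlen, hl1, hl2⟩
      have h2 : Nat.count (· ∈ C) y = n := by
        rw [Nat.count_eq_card_filter_range, ← hlen, ← List.toFinset_card_of_nodup hnd]
        congr 1
        ext x
        rw [Finset.mem_filter, Finset.mem_range, List.mem_toFinset]
        constructor
        · rintro ⟨h3, h4⟩
          rcases hl2 x h3 with h5 | h5
          · exact h5
          · exact absurd h4 h5
        · exact hl1 x
      rw [← h2]
      exact Nat.nth_count hy
    · intro h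
      have hy : y ∈ C := by
        rw [← h]; exact Nat.nth_mem_of_infinite hinf n
      refine ⟨hy, ((Finset.range y).filter (· ∈ C)).toList, Finset.nodup_toList _, ?_, ?_, ?_⟩
      · rw [Finset.length_toList, ← Nat.count_eq_card_filter_range, ← h]
        exact Nat.count_nth_of_infinite (p := (· ∈ C)) hinf n
      · intro x hx
        rw [Finset.mem_toList, Finset.mem_filter, Finset.mem_range] at hx
        exact hx
      · intro x hx
        by_cases hxC : x ∈ C
        · left
          rw [Finset.mem_toList, Finset.mem_filter, Finset.mem_range]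
          exact ⟨hx, hxC⟩
        · exact Or.inr hxC
  · intro f hf
    by_contra hcon
    push Not at hcon
    -- the interval endpoints
    obtain ⟨H, hHc, hHm, hHf⟩ : ∃ H : ℕ → ℕ, Computable H ∧ StrictMono H ∧
        ∀ m, ∀ n < 2 * m, f n < H m := by
      refine ⟨fun k => psum f (2 * k), (psum_comp hf).comp (by fun_prop), ?_, ?_⟩
      · intro a b hab
        exact psum_strictMono f (by omega)
      · intro m n hn
        exact lt_psum f hn
    -- infinitely many intervals contain two elements
    have two : ∀ k0, ∃ k ≥ k0, ∃ a b, a ∈ C ∧ b ∈ C ∧ H k ≤ a ∧ a < b ∧ b < H (k + 1) := by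
      intro k0
      by_contra hno
      push Not at hno
      have hcard : ∀ d, Nat.count (· ∈ C) (H (k0 + d)) ≤ Nat.count (· ∈ C) (H k0) + d := by
        intro d
        induction d with
        | zero => simp
        | succ d ih =>
          have h1 : Nat.count (· ∈ C) (H (k0 + (d + 1))) ≤ Nat.count (· ∈ C) (H (k0 + d)) + 1 := by
            by_contra hlt
            push Not at hlt
            obtain ⟨r, hr⟩ := Nat.exists_eq_add_of_lt (hHm (show k0 + d < k0 + (d + 1) by omega))
            rw [hr, Nat.count_eq_card_filter_range, Nat.count_eq_card_filter_range] at hlt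
            have hsub : (Finset.range (H (k0 + d))).filter (· ∈ C) ⊆
                (Finset.range (H (k0 + d) + r + 1)).filter (· ∈ C) := by
              intro x hx
              rw [Finset.mem_filter, Finset.mem_range] at hx ⊢
              exact ⟨by omega, hx.2⟩
            have h2 := Finset.card_sdiff_add_card_eq_card hsub
            have h3 : 1 < (((Finset.range (H (k0 + d) + r + 1)).filter (· ∈ C)) \
                ((Finset.range (H (k0 + d))).filter (· ∈ C))).card := by omega
            obtain ⟨a, ha, b, hb, hab⟩ := Finset.one_lt_card.1 h3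
            simp only [Finset.mem_sdiff, Finset.mem_filter, Finset.mem_range, not_and] at ha hb
            have ha1 : H (k0 + d) ≤ a := by
              by_contra h; exact ha.2 (by omega) ha.1.2
            have hb1 : H (k0 + d) ≤ b := by
              by_contra h; exact hb.2 (by omega) hb.1.2
            have e : H (k0 + d + 1) = H (k0 + d) + r + 1 := by rw [← hr]; rfl
            rcases Nat.lt_or_gt_of_ne hab with h | h
            · have := hno (k0 + d) (by omega) a b ha.1.2 hb.1.2 ha1 h
              omega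
            · have := hno (k0 + d) (by omega) b a hb.1.2 ha.1.2 hb1 h
              omega
          omega
      set c := Nat.count (· ∈ C) (H k0) with hc
      obtain ⟨n, hn, hfn⟩ := hcon (2 * (c + k0 + 1))
      have hm : n < 2 * (n / 2 + 1) := by omega
      have h1 := hHf (n / 2 + 1) n hm
      have h2 : Nat.nth (· ∈ C) n < H (n / 2 + 1) := lt_trans hfn h1
      have h3 : n < Nat.count (· ∈ C) (H (n / 2 + 1)) := by
        by_contra hle
        push Not at hle
        have h5 : H (n / 2 + 1) ≤ Nat.nth (· ∈ C) n := (Nat.count_le_iff_le_nth (p := (· ∈ C)) hinf).1 hle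
        omega
      obtain ⟨d, hd⟩ := Nat.exists_eq_add_of_le (show k0 ≤ n / 2 + 1 by omega)
      have h4 := hcard d
      rw [← hd] at h4
      omega
    -- the splitting set
    obtain ⟨q, hq, hqC⟩ := re_iff.1 hco
    set W : Set ℕ := {x | ∃ k s, H k ≤ x ∧ x < H (k + 1) ∧ (∀ i < s, q x i = false) ∧
      ∀ y < x, H k ≤ y → ∃ i < s, q y i = true} with hW
    have hWre : REPred (· ∈ W) := by
      have : REPred fun x : ℕ => ∃ k s, H k ≤ x ∧ x < H (k + 1) ∧ (∀ i < s, q x i = false) ∧
          ∀ y < x, H k ≤ y → ∃ i < s, q y i = true := by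
        refine RE.exN (p := fun x k => ∃ s, H k ≤ x ∧ x < H (k + 1) ∧ (∀ i < s, q x i = false) ∧
          ∀ y < x, H k ≤ y → ∃ i < s, q y i = true) ?_
        refine RE.exN (p := fun (z : ℕ × ℕ) s => H z.2 ≤ z.1 ∧ z.1 < H (z.2 + 1) ∧
          (∀ i < s, q z.1 i = false) ∧ ∀ y < z.1, H z.2 ≤ y → ∃ i < s, q y i = true) ?_
        refine RE.and (RE.le (by fun_prop) (by fun_prop)) (RE.and (RE.lt (by fun_prop)
          (by fun_prop)) (RE.and ?_ ?_))
        · refine RE.all_lt (p := fun (w : (ℕ × ℕ) × ℕ) i => q w.1.1 i = false) ?_ (by fun_prop)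
          refine RE.eq ?_ (by fun_prop)
          exact hq.comp (by fun_prop) (by fun_prop)
        · refine RE.all_lt (p := fun (w : (ℕ × ℕ) × ℕ) y => H w.1.2 ≤ y →
            ∃ i < w.2, q y i = true) ?_ (by fun_prop)
          have : REPred fun x : ((ℕ × ℕ) × ℕ) × ℕ => x.2 < H x.1.1.2 ∨
              ∃ i, i < x.1.2 ∧ q x.2 i = true := by
            refine RE.or (RE.lt (by fun_prop) (by fun_prop)) ?_
            refine RE.exN (p := fun (x : ((ℕ × ℕ) × ℕ) × ℕ) i => i < x.1.2 ∧ q x.2 i = true) ?_
            refine RE.and (RE.lt (by fun_prop) (by fun_prop)) ?_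
            refine RE.eq ?_ (by fun_prop)
            exact hq.comp (by fun_prop) (by fun_prop)
          refine this.of_eq fun x => ?_
          constructor
          · rintro (h | h) h2
            · omega
            · exact h
          · intro h
            rcases Nat.lt_or_ge x.2 (H x.1.1.2) with h2 | h2
            · exact Or.inl h2
            · exact Or.inr (h h2)
      exact this
    have hid : ∀ k, k ≤ H k := fun k => hHm.le_apply
    rcases hcoh W hWre with hfin | hfin
    · obtain ⟨N, hN⟩ := hfin.bddAbove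
      obtain ⟨k, hk, a, b, haC, hbC, ha, hab, hb⟩ := two (N + 1)
      -- the least element
      have hex : ∃ a, a ∈ C ∧ H k ≤ a := ⟨a, haC, ha⟩
      set a' := Nat.find hex with ha'
      have ha'1 := Nat.find_spec hex
      rw [← ha'] at ha'1
      have ha'2 : a' ≤ a := Nat.find_min' hex ⟨haC, ha⟩
      have hmem : a' ∈ W := by
        have h1 : ∀ y, ∃ i, (y < a' → H k ≤ y → q y i = true) := by
          intro y
          by_cases h : y < a' ∧ H k ≤ y
          · have h2 : y ∉ C := fun hyC => Nat.find_min hex h.1 ⟨hyC, h.2⟩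
            obtain ⟨i, hi⟩ := (hqC y).1 h2
            exact ⟨i, fun _ _ => hi⟩
          · exact ⟨0, fun h1 h2 => absurd ⟨h1, h2⟩ h⟩
        choose i hi using h1
        refine ⟨k, (Finset.range a').sup i + 1, ha'1.2, by omega, ?_, ?_⟩
        · intro j _
          by_contra hj
          exact (hqC a').2 ⟨j, by simpa using hj⟩ ha'1.1
        · intro y hy hky
          exact ⟨i y, Nat.lt_succ_of_le (Finset.le_sup (f := i) (Finset.mem_range.2 hy)),
            hi y hy hky⟩
      have := hN ⟨ha'1.1, hmem⟩
      have := hid k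
      omega
    · obtain ⟨N, hN⟩ := hfin.bddAbove
      obtain ⟨k, hk, a, b, haC, hbC, ha, hab, hb⟩ := two (N + 1)
      have hmem : b ∉ W := by
        rintro ⟨k', s, h1, h2, h3, h4⟩
        have hkk : k' = k := by
          have e1 : k' < k + 1 := hHm.lt_iff_lt.1 (lt_of_le_of_lt h1 hb)
          have e2 : k < k' + 1 := hHm.lt_iff_lt.1 (lt_of_le_of_lt (ha.trans hab.le) h2)
          omega
        subst hkk
        obtain ⟨i, _, hi⟩ := h4 a hab ha
        exact (hqC a).2 ⟨i, hi⟩ haC
      have := hN ⟨hbC, hmem⟩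
      have := hid k
      omega

end Pool.Agent.Helper446.Dense
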