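import Pool.Agent.Helper446.State

/-!
A co-c.e. cohesive set from a dominating approximation (Martin).
-/




namespace Pool.Agent.Helper446.Martin

open Encodable Pool.Agent.Helper446.RE Pool.Agent.Helper446.State

/-- badness of `y` at stage `s` relative to the first `n` sets -/
def bb (n y s : ℕ) : ℕ := bv (wst ℕ) s n y

theorem bb_comp {α : Type*} [Primcodable α] {f g h : α → ℕ} (hf : Computable f) (hg : Computable g)
    (hh : Computable h) : Computable fun a => bb (f a) (g a) (h a) :=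
  (bv_comp (w := wst ℕ) wst_comp).comp (f := fun p : (ℕ × ℕ) × ℕ => bv (wst ℕ) p.1.1 p.1.2 p.2)
    (g := fun a => ((h a, f a), g a)) ((hh.pair hf).pair hg)

/-- the trigger -/
def Tr (H : ℕ → ℕ → ℕ) (s : ℕ) : Prop :=
  s.unpair.2 = 0 ∨ H s.unpair.1 s.unpair.2 ≠ H s.unpair.1 (s.unpair.2 - 1)

def Pick (s : ℕ) (D : List ℕ) (y : ℕ) : Prop :=
  s.unpair.1 < y ∧ y ≤ s ∧ y ∉ D ∧
    ∀ y' < s + 1, (y' ≤ s.unpair.1 ∨ y' ∈ D) ∨ bb s.unpair.1 y s ≤ bb s.unpair.1 y' s

def Dump (x y : ℕ) (D D' : List ℕ) : Prop :=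
  (∀ z ∈ D', z ∈ D ∨ (x < z ∧ z < y)) ∧ (∀ z ∈ D, z ∈ D') ∧ ∀ z < y, z ≤ x ∨ z ∈ D'

def StepR (H : ℕ → ℕ → ℕ) (s : ℕ) (D D' : List ℕ) : Prop :=
  (s.unpair.1 ∉ D ∧ Tr H s ∧ ∃ y, Pick s D y ∧ Dump s.unpair.1 y D D') ∨
    ((s.unpair.1 ∈ D ∨ ¬ Tr H s ∨ ∀ y < s + 1, y ≤ s.unpair.1 ∨ y ∈ D) ∧ D' = D)

theorem exists_argmin (P : ℕ → Prop) (f : ℕ → ℕ) (h : ∃ y, P y) :
    ∃ y, P y ∧ ∀ y', P y' → f y ≤ f y' := by
  classical
  have h1 : ∃ v, ∃ y, P y ∧ f y = v := by
    obtain ⟨y, hy⟩ := h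
    exact ⟨_, y, hy, rfl⟩
  obtain ⟨y, hy, hv⟩ := Nat.find_spec h1
  refine ⟨y, hy, fun y' hy' => ?_⟩
  rw [hv]
  exact Nat.find_min' h1 ⟨y', hy', rfl⟩

theorem step_total (H : ℕ → ℕ → ℕ) (s : ℕ) (D : List ℕ) : ∃ D', StepR H s D D' := by
  by_cases h : s.unpair.1 ∈ D ∨ ¬ Tr H s ∨ ∀ y < s + 1, y ≤ s.unpair.1 ∨ y ∈ D
  · exact ⟨D, Or.inr ⟨h, rfl⟩⟩
  · push Not at h
    obtain ⟨h1, h2, y, hy, hy2, hy3⟩ := h
    obtain ⟨z, ⟨hz1, hz2, hz3⟩, hmin⟩ := exists_argmin
      (fun y => s.unpair.1 < y ∧ y < s + 1 ∧ y ∉ D) (fun y => bb s.unpair.1 y s) ⟨y, hy2, hy, hy3⟩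
    refine ⟨D ++ (List.range z).filter (fun w => s.unpair.1 < w), Or.inl ⟨h1, h2, z, ?_, ?_⟩⟩
    · refine ⟨hz1, Nat.lt_succ_iff.1 hz2, hz3, fun y' hy' => ?_⟩
      by_cases hc : y' ≤ s.unpair.1 ∨ y' ∈ D
      · exact Or.inl hc
      · push Not at hc
        exact Or.inr (hmin y' ⟨hc.1, hy', hc.2⟩)
    · refine ⟨?_, ?_, ?_⟩
      · intro w hw
        simpa [and_comm] using hw
      · intro w hw
        exact List.mem_append_left _ hw
      · intro w hw
        by_cases hc : w ≤ s.unpair.1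
        · exact Or.inl hc
        · right
          push Not at hc
          simp [hc, hw]

theorem re_tr {α : Type*} [Primcodable α] {H : ℕ → ℕ → ℕ} (hH : Computable₂ H) {f : α → ℕ}
    (hf : Computable f) : ComputablePred fun a => Tr H (f a) := by
  have h1 : ComputablePred fun a => (f a).unpair.2 = 0 := cp_eq (by fun_prop) (by fun_prop)
  have h2 : ComputablePred fun a =>
      H (f a).unpair.1 (f a).unpair.2 = H (f a).unpair.1 ((f a).unpair.2 - 1) :=
    cp_eq (hH.comp (f := H) (g := fun a => (f a).unpair.1) (h := fun a => (f a).unpair.2)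
      (by fun_prop) (by fun_prop))
      (hH.comp (f := H) (g := fun a => (f a).unpair.1) (h := fun a => (f a).unpair.2 - 1)
      (by fun_prop) (by fun_prop))
  refine cp_of_re (RE.or h1.to_re h2.not.to_re) ?_
  refine (RE.and h1.not.to_re h2.to_re).of_eq fun a => ?_
  unfold Tr
  tauto

theorem re_step (H : ℕ → ℕ → ℕ) (hH : Computable₂ H) :
    REPred fun p : (ℕ × List ℕ) × List ℕ => StepR H p.1.1 p.1.2 p.2 := by
  refine RE.or (RE.and ?_ (RE.and ?_ ?_)) (RE.and (RE.or ?_ (RE.or ?_ ?_)) ?_)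
  · exact not_mem_list (by fun_prop) (by fun_prop)
  · exact (re_tr hH (by fun_prop)).to_re
  · refine exN (p := fun (p : (ℕ × List ℕ) × List ℕ) y => Pick p.1.1 p.1.2 y ∧
      Dump p.1.1.unpair.1 y p.1.2 p.2) ?_
    refine RE.and (RE.and ?_ (RE.and ?_ (RE.and ?_ ?_))) (RE.and ?_ (RE.and ?_ ?_))
    · exact RE.lt (by fun_prop) (by fun_prop)
    · exact RE.le (by fun_prop) (by fun_prop)
    · exact not_mem_list (by fun_prop) (by fun_prop)
    · refine all_lt (p := fun (q : ((ℕ × List ℕ) × List ℕ) × ℕ) (y' : ℕ) =>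
        (y' ≤ q.1.1.1.unpair.1 ∨ y' ∈ q.1.1.2) ∨ bb q.1.1.1.unpair.1 q.2 q.1.1.1 ≤
          bb q.1.1.1.unpair.1 y' q.1.1.1) ?_ (by fun_prop)
      refine RE.or (RE.or ?_ ?_) ?_
      · exact RE.le (by fun_prop) (by fun_prop)
      · exact mem_list (by fun_prop) (by fun_prop)
      · exact RE.le (bb_comp (by fun_prop) (by fun_prop) (by fun_prop))
          (bb_comp (by fun_prop) (by fun_prop) (by fun_prop))
    · refine all_mem (p := fun (q : ((ℕ × List ℕ) × List ℕ) × ℕ) (z : ℕ) =>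
        z ∈ q.1.1.2 ∨ (q.1.1.1.unpair.1 < z ∧ z < q.2)) ?_ (by fun_prop)
      refine RE.or ?_ (RE.and ?_ ?_)
      · exact mem_list (by fun_prop) (by fun_prop)
      · exact RE.lt (by fun_prop) (by fun_prop)
      · exact RE.lt (by fun_prop) (by fun_prop)
    · refine all_mem (p := fun (q : ((ℕ × List ℕ) × List ℕ) × ℕ) (z : ℕ) => z ∈ q.1.2) ?_
        (by fun_prop)
      exact mem_list (by fun_prop) (by fun_prop)
    · refine all_lt (p := fun (q : ((ℕ × List ℕ) × List ℕ) × ℕ) (z : ℕ) =>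
        z ≤ q.1.1.1.unpair.1 ∨ z ∈ q.1.2) ?_ (by fun_prop)
      refine RE.or ?_ ?_
      · exact RE.le (by fun_prop) (by fun_prop)
      · exact mem_list (by fun_prop) (by fun_prop)
  · exact mem_list (by fun_prop) (by fun_prop)
  · exact (re_tr hH (by fun_prop)).not.to_re
  · refine all_lt (p := fun (p : (ℕ × List ℕ) × List ℕ) (y : ℕ) =>
      y ≤ p.1.1.unpair.1 ∨ y ∈ p.1.2) ?_ (by fun_prop)
    refine RE.or ?_ ?_
    · exact RE.le (by fun_prop) (by fun_prop)
    · exact mem_list (by fun_prop) (by fun_prop)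
  · exact RE.eq (by fun_prop) (by fun_prop)

theorem exists_D (H : ℕ → ℕ → ℕ) (hH : Computable₂ H) :
    ∃ D : ℕ → List ℕ, Computable D ∧ D 0 = [] ∧ ∀ s, StepR H s (D s) (D (s + 1)) := by
  obtain ⟨f, hf, hd, hs⟩ := uniformize (r := fun (a : ℕ × List ℕ) D' => StepR H a.1 a.2 D')
    (re_step H hH)
  have hd' : ∀ a, (f a).Dom := fun a => (hd a).2 (step_total H a.1 a.2)
  let g : ℕ × List ℕ → List ℕ := fun a => (f a).get (hd' a)
  have hg : Computable g := hf.of_eq_tot fun a => Part.get_mem _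
  have hgs : ∀ s D, StepR H s D (g (s, D)) := fun s D => hs (s, D) _ (Part.get_mem _)
  let E : ℕ → List ℕ := fun n => Nat.rec (motive := fun _ => List ℕ) [] (fun s D => g (s, D)) n
  have hE : Computable E := by
    refine Computable.nat_rec (f := fun n : ℕ => n) (g := fun _ => ([] : List ℕ))
      (h := fun _ (y : ℕ × List ℕ) => g y) Computable.id (Computable.const _) ?_
    exact hg.comp Computable.snd
  exact ⟨E, hE, rfl, fun s => hgs s (E s)⟩

section comb

variable {H : ℕ → ℕ → ℕ} {D : ℕ → List ℕ}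

theorem D_mono (hD : ∀ s, StepR H s (D s) (D (s + 1))) {s y : ℕ} (h : y ∈ D s) :
    y ∈ D (s + 1) := by
  rcases hD s with ⟨-, -, y0, -, -, h2, -⟩ | ⟨-, h2⟩
  · exact h2 y h
  · rw [h2]; exact h

theorem D_mono_le (hD : ∀ s, StepR H s (D s) (D (s + 1))) {s t y : ℕ} (hst : s ≤ t)
    (h : y ∈ D s) : y ∈ D t := by
  induction t, hst using Nat.le_induction with
  | base => exact h
  | succ t _ ih => exact D_mono hD ih

theorem dumped (hD : ∀ s, StepR H s (D s) (D (s + 1))) {s y : ℕ} (h : y ∉ D s)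
    (h' : y ∈ D (s + 1)) : s.unpair.1 ∉ D s ∧ Tr H s ∧ s.unpair.1 < y ∧ ∃ y0, y < y0 ∧
      Pick s (D s) y0 ∧ y0 ∉ D (s + 1) ∧ ∀ z, s.unpair.1 < z → z < y0 → z ∈ D (s + 1) := by
  rcases hD s with ⟨h1, h2, y0, hp, hd1, hd2, hd3⟩ | ⟨-, h2⟩
  · rcases hd1 y h' with h3 | ⟨h3, h4⟩
    · exact absurd h3 h
    · refine ⟨h1, h2, h3, y0, h4, hp, ?_, ?_⟩
      · intro hc
        rcases hd1 y0 hc with h5 | ⟨-, h5⟩
        · exact hp.2.2.1 h5
        · exact lt_irrefl _ h5
      · intro z hz1 hz2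
        rcases hd3 z hz2 with h5 | h5
        · omega
        · exact h5
  · rw [h2] at h'; exact absurd h' h

theorem exists_nx (D : ℕ → List ℕ) (s x : ℕ) : ∃ y, x < y ∧ y ∉ D s := by
  refine ⟨(D s).sum + x + 1, by omega, fun h => ?_⟩
  have := List.le_sum_of_mem h
  omega

open Classical in
/-- least alive number above `x` at stage `s` -/
noncomputable def nx (D : ℕ → List ℕ) (s x : ℕ) : ℕ := Nat.find (exists_nx D s x)

theorem nx_gt (s x : ℕ) : x < nx D s x := by
  classical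
  exact (Nat.find_spec (exists_nx D s x)).1

theorem nx_alive (s x : ℕ) : nx D s x ∉ D s := by
  classical
  exact (Nat.find_spec (exists_nx D s x)).2

theorem nx_min {s x y : ℕ} (h1 : x < y) (h2 : y ∉ D s) : nx D s x ≤ y := by
  classical
  exact Nat.find_min' (exists_nx D s x) ⟨h1, h2⟩

theorem nx_comp (hDc : Computable D) : Computable₂ (nx D) := by
  have h : Computable fun p : ℕ × ℕ => nx D p.1 p.2 := by
    apply computable_of_graph
    have h1 : REPred fun x : (ℕ × ℕ) × ℕ => x.1.2 < x.2 ∧ x.2 ∉ D x.1.1 ∧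
        ∀ z < x.2, z ≤ x.1.2 ∨ z ∈ D x.1.1 := by
      refine RE.and ?_ (RE.and ?_ ?_)
      · exact RE.lt (by fun_prop) (by fun_prop)
      · exact not_mem_list (by fun_prop) (hDc.comp (by fun_prop))
      · refine all_lt (p := fun (x : (ℕ × ℕ) × ℕ) (z : ℕ) => z ≤ x.1.2 ∨ z ∈ D x.1.1) ?_
          (by fun_prop)
        refine RE.or ?_ ?_
        · exact RE.le (by fun_prop) (by fun_prop)
        · exact mem_list (by fun_prop) (hDc.comp (by fun_prop))
    refine h1.of_eq fun x => ?_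
    constructor
    · rintro ⟨h1, h2, h3⟩
      apply le_antisymm (nx_min h1 h2)
      by_contra hc
      push Not at hc
      rcases h3 _ hc with h4 | h4
      · have := nx_gt (D := D) x.1.1 x.1.2
        omega
      · exact nx_alive _ _ h4
    · intro h
      rw [← h]
      refine ⟨nx_gt _ _, nx_alive _ _, fun z hz => ?_⟩
      by_contra hc
      push Not at hc
      have := nx_min hc.1 hc.2
      omega
  exact h

/-- the set -/
def CC (D : ℕ → List ℕ) : Set ℕ := {y | ∀ s, y ∉ D s}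

/-- `x` does not act from stage `u` on -/
def Quiet (H : ℕ → ℕ → ℕ) (x u : ℕ) : Prop := ∀ s, u ≤ s → s.unpair.1 = x → ¬ Tr H s

theorem quiet_of (x t0 : ℕ) (h : ∀ t, t0 ≤ t → H x t = H x t0) :
    Quiet H x (Nat.pair x t0 + 1) := by
  intro s hs hx htr
  have h1 : Nat.pair x s.unpair.2 = s := by rw [← hx, Nat.pair_unpair]
  have h2 : t0 < s.unpair.2 := by
    by_contra hc
    push Not at hc
    have h3 : Nat.pair x s.unpair.2 ≤ Nat.pair x t0 := by
      rcases hc.eq_or_lt with h4 | h4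
      · rw [h4]
      · exact (Nat.pair_lt_pair_right x h4).le
    omega
  rcases htr with h3 | h3
  · omega
  · apply h3
    rw [hx, h _ h2.le, h (s.unpair.2 - 1) (by omega)]

theorem nx_step (hD : ∀ s, StepR H s (D s) (D (s + 1))) {x s : ℕ} (hx : x ∈ CC D)
    (hq : s.unpair.1 = x → ¬ Tr H s) : nx D (s + 1) x = nx D s x := by
  have halive : nx D s x ∉ D (s + 1) := by
    intro hc
    obtain ⟨h1, h2, h3, y0, h4, h5, h6, h7⟩ := dumped hD (nx_alive s x) hc
    rcases lt_trichotomy s.unpair.1 x with h8 | h8 | h8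
    · exact hx (s + 1) (h7 x h8 ((nx_gt s x).trans h4))
    · exact hq h8 h2
    · have := nx_min h8 h1
      omega
  apply le_antisymm (nx_min (nx_gt _ _) halive)
  exact nx_min (nx_gt _ _) fun h => nx_alive (s + 1) x (D_mono hD h)

theorem nx_stable (hD : ∀ s, StepR H s (D s) (D (s + 1))) {x u : ℕ} (hx : x ∈ CC D)
    (hq : Quiet H x u) {s : ℕ} (hs : u ≤ s) : nx D s x = nx D u x := by
  induction s, hs using Nat.le_induction with
  | base => rfl
  | succ s hs ih => rw [nx_step hD hx (hq s hs), ih]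

theorem nx_mem (hD : ∀ s, StepR H s (D s) (D (s + 1))) {x u : ℕ} (hx : x ∈ CC D)
    (hq : Quiet H x u) : nx D u x ∈ CC D := by
  intro s hs
  rcases le_total u s with h | h
  · rw [← nx_stable hD hx hq h] at hs
    exact nx_alive _ _ hs
  · exact nx_alive _ _ (D_mono_le hD h hs)

theorem nx_no_between {x u y : ℕ} (hy : y ∈ CC D) (h1 : x < y) : nx D u x ≤ y :=
  nx_min h1 (hy u)

theorem zero_mem (hD0 : D 0 = []) (hD : ∀ s, StepR H s (D s) (D (s + 1))) : 0 ∈ CC D := by
  intro s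
  induction s with
  | zero => simp [hD0]
  | succ s ih =>
    intro h
    obtain ⟨-, -, h3, -⟩ := dumped hD ih h
    omega

theorem CC_infinite (hD0 : D 0 = []) (hD : ∀ s, StepR H s (D s) (D (s + 1)))
    (hq : ∀ x, ∃ u, Quiet H x u) : (CC D).Infinite := by
  intro hfin
  obtain ⟨m, hm, hmax⟩ := Set.exists_max_image (CC D) id hfin ⟨0, zero_mem hD0 hD⟩
  obtain ⟨u, hu⟩ := hq m
  have h1 := hmax _ (nx_mem hD hm hu)
  have h2 := nx_gt (D := D) u m
  simp only [id] at h1
  omega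

/-- each nonzero element of `CC D` has a predecessor in `CC D` -/
theorem exists_pred (hD : ∀ s, StepR H s (D s) (D (s + 1))) {y : ℕ}
    (hy : y ∈ CC D) {c : ℕ} (hc : c ∈ CC D) (hcy : c < y) :
    ∃ x ∈ CC D, c ≤ x ∧ x < y ∧ ∀ u, Quiet H x u → nx D u x = y := by
  classical
  have hfin : {x | x ∈ CC D ∧ x < y}.Finite := (Set.finite_lt_nat y).subset fun x hx => hx.2
  obtain ⟨x, ⟨hx, hxy⟩, hmax⟩ := Set.exists_max_image _ id hfin ⟨c, hc, hcy⟩
  refine ⟨x, hx, hmax c ⟨hc, hcy⟩, hxy, fun u hu => ?_⟩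
  apply le_antisymm (nx_no_between hy hxy)
  by_contra hcon
  push Not at hcon
  have h1 := hmax _ ⟨nx_mem hD hx hu, hcon⟩
  have h2 := nx_gt (D := D) u x
  simp only [id] at h1
  omega

/-- one move along the set -/
noncomputable def mv (D : ℕ → List ℕ) (c : ℕ) (p : ℕ × ℕ) : ℕ :=
  if c = p.1 then nx D (Nat.pair p.1 p.2 + 1) p.1 else c

theorem cert (hDc : Computable D) (hD0 : D 0 = []) (hD : ∀ s, StepR H s (D s) (D (s + 1)))
    (St : ℕ → ℕ → Prop) (hSt1 : ∀ x s, St x s → ∀ t, s ≤ t → H x t = H x s)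
    (hSt2 : ∀ x, ∃ s, St x s) :
    ∃ R : ℕ → List (ℕ × ℕ) → Prop, REPred (fun p : ℕ × List (ℕ × ℕ) => R p.1 p.2) ∧
      ∀ y, y ∈ CC D ↔ ∃ l : List (ℕ × ℕ), (∀ p ∈ l, St p.1 p.2) ∧ R y l := by
  refine ⟨fun y l => l.foldl (mv D) 0 = y, ?_, ?_⟩
  · have h1 : Computable fun p : ℕ × List (ℕ × ℕ) =>
        p.2.foldl (fun c b => mv D (c, b).1 (c, b).2) 0 := by
      refine list_foldl (f := fun p : ℕ × List (ℕ × ℕ) => p.2) (g := fun _ => 0)
        (h := fun _ (q : ℕ × (ℕ × ℕ)) => mv D q.1 q.2) (by fun_prop) (by fun_prop) ?_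
      have h2 : Computable fun q : (ℕ × List (ℕ × ℕ)) × (ℕ × (ℕ × ℕ)) => mv D q.2.1 q.2.2 := by
        unfold mv
        refine cite (cp_eq (by fun_prop) (by fun_prop)) ?_ (by fun_prop)
        exact (nx_comp hDc).comp (f := nx D)
          (g := fun q : (ℕ × List (ℕ × ℕ)) × (ℕ × (ℕ × ℕ)) => Nat.pair q.2.2.1 q.2.2.2 + 1)
          (h := fun q => q.2.2.1) (by fun_prop) (by fun_prop)
      exact h2
    exact RE.eq h1 (by fun_prop)
  · intro y
    constructor
    · induction y using Nat.strong_induction_on with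
      | _ y ih =>
        intro hy
        rcases Nat.eq_zero_or_pos y with rfl | hpos
        · exact ⟨[], by simp, rfl⟩
        · obtain ⟨x, hx, -, hxy, hnx⟩ := exists_pred hD hy (zero_mem hD0 hD) hpos
          obtain ⟨l, hl, hlx⟩ := ih x hxy hx
          obtain ⟨s, hs⟩ := hSt2 x
          refine ⟨l ++ [(x, s)], ?_, ?_⟩
          · intro p hp
            rw [List.mem_append, List.mem_singleton] at hp
            rcases hp with hp | rfl
            · exact hl p hp
            · exact hs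
          · show List.foldl (mv D) 0 (l ++ [(x, s)]) = y
            rw [List.foldl_append, hlx]
            show mv D x (x, s) = y
            rw [mv, if_pos rfl]
            exact hnx _ (quiet_of x s (hSt1 x s hs))
    · rintro ⟨l, hl, rfl⟩
      have key : ∀ (l : List (ℕ × ℕ)) (c : ℕ), (∀ p ∈ l, St p.1 p.2) → c ∈ CC D →
          l.foldl (mv D) c ∈ CC D := by
        intro l
        induction l with
        | nil => intro c _ hc; exact hc
        | cons p l ih =>
          intro c hl hc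
          rw [List.foldl_cons]
          apply ih _ (fun q hq => hl q (List.mem_cons_of_mem _ hq))
          unfold mv
          split_ifs with h
          · subst h
            exact nx_mem hD hc (quiet_of _ _ (hSt1 _ _ (hl p List.mem_cons_self)))
          · exact hc
      exact key l 0 hl (zero_mem hD0 hD)

theorem bb_anti {n y s t : ℕ} (hst : s ≤ t) : bb n y t ≤ bb n y s :=
  bv_mono_le (wst ℕ) (fun _ _ _ h => wst_mono (Nat.le_succ _) h) n y hst

/-- eventual badness -/
noncomputable def be (n y : ℕ) : ℕ := sInf (Set.range fun s => bb n y s)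

theorem be_le (n y s : ℕ) : be n y ≤ bb n y s := Nat.sInf_le ⟨s, rfl⟩

theorem be_attained (n y : ℕ) : ∃ s, ∀ t, s ≤ t → bb n y t = be n y := by
  obtain ⟨s, hs⟩ : be n y ∈ Set.range fun s => bb n y s := Nat.sInf_mem ⟨_, 0, rfl⟩
  exact ⟨s, fun t ht => le_antisymm ((bb_anti ht).trans hs.le) (be_le n y t)⟩

theorem be_lt (n y : ℕ) : be n y < 2 ^ n := (be_le n y 0).trans_lt (bv_lt _ _ _ _)

theorem persist (hD : ∀ s, StepR H s (D s) (D (s + 1))) {x n v T : ℕ} (hx : x ∈ CC D)
    (hn : n ≤ x) (hT : ∃ y, x < y ∧ y ≤ T ∧ y ∉ D T ∧ bb n y T ≤ v) {s : ℕ} (hs : T ≤ s) :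
    ∃ y, x < y ∧ y ≤ s ∧ y ∉ D s ∧ bb n y s ≤ v := by
  induction s, hs using Nat.le_induction with
  | base => exact hT
  | succ s _ ih =>
    obtain ⟨y, h1, h2, h3, h4⟩ := ih
    by_cases hy : y ∈ D (s + 1)
    · obtain ⟨g1, g2, g3, y0, g4, g5, g6, g7⟩ := dumped hD h3 hy
      have hge : x ≤ s.unpair.1 := by
        by_contra hc
        push Not at hc
        exact hx (s + 1) (g7 x hc (h1.trans g4))
      refine ⟨y0, h1.trans g4, g5.2.1.trans (Nat.le_succ _), g6, ?_⟩
      have h5 : bb s.unpair.1 y0 s ≤ bb s.unpair.1 y s := by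
        rcases g5.2.2.2 y (by omega) with h6 | h6
        · rcases h6 with h6 | h6
          · omega
          · exact absurd h6 h3
        · exact h6
      have h6 : bb n y0 s ≤ bb n y s := bv_le_of_le (wst ℕ) (hn.trans hge) h5
      exact (bb_anti (Nat.le_succ _)).trans (h6.trans h4)
    · exact ⟨y, h1, by omega, hy, (bb_anti (Nat.le_succ _)).trans h4⟩

theorem cohesive (hDc : Computable D) (hD0 : D 0 = []) (hD : ∀ s, StepR H s (D s) (D (s + 1)))
    (hmono : ∀ x s, H x s ≤ H x (s + 1)) (hle : ∀ x s, H x s ≤ s)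
    (hlim : ∀ x, ∃ s0, ∀ s, s0 ≤ s → H x s = H x s0)
    (hdom : ∀ f : ℕ → ℕ, Computable f → ∃ n0, ∀ x, n0 ≤ x → ∃ s, f x ≤ H x s)
    (W : Set ℕ) (hW : REPred (· ∈ W)) : (CC D ∩ W).Finite ∨ (CC D \ W).Finite := by
  classical
  have hq : ∀ x, ∃ u, Quiet H x u := by
    intro x
    obtain ⟨s0, hs0⟩ := hlim x
    exact ⟨_, quiet_of x s0 hs0⟩
  have hinf := CC_infinite hD0 hD hq
  obtain ⟨e, he⟩ := wst_univ (α := ℕ) hW
  set n := e + 1 with hn
  -- the least value attained infinitely often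
  have hex : ∃ v, {y | y ∈ CC D ∧ be n y = v}.Infinite := by
    by_contra hcon
    push Not at hcon
    apply hinf
    have h1 : CC D ⊆ ⋃ v ∈ Finset.range (2 ^ n), {y | y ∈ CC D ∧ be n y = v} := by
      intro y hy
      simp only [Set.mem_iUnion]
      exact ⟨be n y, Finset.mem_range.2 (be_lt n y), hy, rfl⟩
    refine Set.Finite.subset (Set.Finite.biUnion (Finset.finite_toSet _) fun v _ => ?_) h1
    exact hcon v
  let v := Nat.find hex
  have hv : {y | y ∈ CC D ∧ be n y = v}.Infinite := Nat.find_spec hex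
  have hlow : {y | y ∈ CC D ∧ be n y < v}.Finite := by
    have h1 : {y | y ∈ CC D ∧ be n y < v} ⊆
        ⋃ w ∈ Finset.range v, {y | y ∈ CC D ∧ be n y = w} := by
      rintro y ⟨hy, hlt⟩
      simp only [Set.mem_iUnion]
      exact ⟨be n y, Finset.mem_range.2 hlt, hy, rfl⟩
    refine Set.Finite.subset (Set.Finite.biUnion (Finset.finite_toSet _) fun w hw => ?_) h1
    have := Nat.find_min hex (m := w) (Finset.mem_range.1 hw)
    exact Set.not_infinite.1 this
  -- the search function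
  obtain ⟨f, hf, hfd, hfs⟩ := uniformize
    (r := fun x T : ℕ => ∃ y, x < y ∧ y ≤ T ∧ y ∉ D T ∧ bb n y T ≤ v) (by
      refine exN (p := fun (p : ℕ × ℕ) y => p.1 < y ∧ y ≤ p.2 ∧ y ∉ D p.2 ∧ bb n y p.2 ≤ v) ?_
      refine RE.and ?_ (RE.and ?_ (RE.and ?_ ?_))
      · exact RE.lt (by fun_prop) (by fun_prop)
      · exact RE.le (by fun_prop) (by fun_prop)
      · exact not_mem_list (by fun_prop) (hDc.comp (by fun_prop))
      · exact RE.le (bb_comp (by fun_prop) (by fun_prop) (by fun_prop)) (by fun_prop))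
  have hfd' : ∀ x, (f x).Dom := by
    intro x
    rw [hfd]
    obtain ⟨y, ⟨hy, hbe⟩, hxy⟩ := hv.exists_gt x
    obtain ⟨s, hs⟩ := be_attained n y
    refine ⟨max y s, y, hxy, le_max_left _ _, hy _, ?_⟩
    rw [hs _ (le_max_right _ _), hbe]
  let F : ℕ → ℕ := fun x => (f x).get (hfd' x)
  have hF : Computable F := hf.of_eq_tot fun a => Part.get_mem _
  have hFs : ∀ x, ∃ y, x < y ∧ y ≤ F x ∧ y ∉ D (F x) ∧ bb n y (F x) ≤ v :=
    fun x => hfs x _ (Part.get_mem _)
  obtain ⟨n0, hn0⟩ := hdom F hF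
  -- good successors
  have hgood : ∀ x ∈ CC D, n0 ≤ x → n ≤ x → ∀ u, Quiet H x u → be n (nx D u x) ≤ v := by
    intro x hx hx0 hxn u hu
    obtain ⟨s1, hs1⟩ := hn0 x hx0
    obtain ⟨s0, hs0⟩ := hlim x
    have hmono' : ∀ s t, s ≤ t → H x s ≤ H x t := by
      intro s t hst
      induction t, hst using Nat.le_induction with
      | base => exact le_rfl
      | succ t _ ih => exact ih.trans (hmono x t)
    have hbd : ∀ s, H x s ≤ H x s0 := by
      intro s
      rcases le_total s s0 with h | h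
      · exact hmono' _ _ h
      · exact (hs0 s h).le
    have hex2 : ∃ t, H x t = H x s0 := ⟨s0, rfl⟩
    let t := Nat.find hex2
    have ht : H x t = H x s0 := Nat.find_spec hex2
    have hFx : F x ≤ H x t := by rw [ht]; exact hs1.trans (hbd s1)
    obtain ⟨y', hy1, hy2, -, -⟩ := hFs x
    have htpos : 0 < t := by
      have := hle x t
      omega
    have htr : Tr H (Nat.pair x t) := by
      right
      rw [Nat.unpair_pair]
      intro hc
      exact Nat.find_min hex2 (m := t - 1) (by omega) (hc.symm.trans ht)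
    have hquiet : Quiet H x (Nat.pair x t + 1) := by
      apply quiet_of
      intro t' ht'
      apply le_antisymm
      · rw [ht]; exact hbd t'
      · exact hmono' _ _ ht'
    have hst : F x ≤ Nat.pair x t := (hFx.trans (hle x t)).trans (Nat.right_le_pair x t)
    obtain ⟨y, h1, h2, h3, h4⟩ := persist hD hx hxn (hFs x) hst
    -- the action at stage `pair x t`
    have hact : be n (nx D (Nat.pair x t + 1) x) ≤ v := by
      rcases hD (Nat.pair x t) with ⟨-, -, y0, hp, hd1, hd2, hd3⟩ | ⟨hno, -⟩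
      · rw [Nat.unpair_pair] at hd1 hd3
        have hp' := hp
        unfold Pick at hp'
        rw [Nat.unpair_pair] at hp'
        obtain ⟨p1, p2, p3, p4⟩ := hp'
        have h5 : bb x y0 (Nat.pair x t) ≤ bb x y (Nat.pair x t) := by
          rcases p4 y (by omega) with h6 | h6
          · rcases h6 with h6 | h6
            · simp only at h6; omega
            · exact absurd h6 h3
          · exact h6
        have h6 : bb n y0 (Nat.pair x t) ≤ v :=
          (bv_le_of_le (wst ℕ) hxn h5).trans h4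
        have h7 : nx D (Nat.pair x t + 1) x = y0 := by
          apply le_antisymm
          · apply nx_min p1
            intro hc
            rcases hd1 y0 hc with h8 | ⟨-, h8⟩
            · exact p3 h8
            · exact lt_irrefl _ h8
          · by_contra hc
            push Not at hc
            rcases hd3 _ hc with h8 | h8
            · have := nx_gt (D := D) (Nat.pair x t + 1) x
              simp only at h8
              omega
            · exact nx_alive _ _ h8
        rw [h7]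
        exact (be_le _ _ _).trans h6
      · exfalso
        rcases hno with h5 | h5 | h5
        · rw [Nat.unpair_pair] at h5; exact hx _ h5
        · exact h5 htr
        · rcases h5 y (by omega) with h6 | h6
          · rw [Nat.unpair_pair] at h6; simp only at h6; omega
          · exact h3 h6
    have h8 : nx D u x = nx D (Nat.pair x t + 1) x := by
      rw [← nx_stable hD hx hu (le_max_left u (Nat.pair x t + 1)),
        nx_stable hD hx hquiet (le_max_right u (Nat.pair x t + 1))]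
    rw [h8]
    exact hact
  -- almost all elements have eventual badness exactly `v`
  have hhigh : {y | y ∈ CC D ∧ v < be n y}.Finite := by
    obtain ⟨c, hc, hcn⟩ := hinf.exists_gt (max n0 n)
    refine (Set.finite_le_nat c).subset ?_
    rintro y ⟨hy, hyv⟩
    show y ≤ c
    by_contra hcon
    push Not at hcon
    obtain ⟨x, hx, hcx, hxy, hnx⟩ := exists_pred hD hy hc hcon
    obtain ⟨u, hu⟩ := hq x
    have h1 := hgood x hx (by omega) (by omega) u hu
    rw [hnx u hu] at h1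
    omega
  have hne : {y | y ∈ CC D ∧ be n y ≠ v}.Finite := by
    refine (hlow.union hhigh).subset ?_
    rintro y ⟨hy, hyv⟩
    rcases lt_or_gt_of_ne hyv with h | h
    · exact Or.inl ⟨hy, h⟩
    · exact Or.inr ⟨hy, h⟩
  have hmem : ∀ y, y ∈ W ↔ be n y % 2 = 0 := by
    intro y
    obtain ⟨s, hs⟩ := be_attained n y
    rw [he y]
    constructor
    · rintro ⟨t, ht⟩
      have h1 : wst ℕ e (max s t) y = true := wst_mono (le_max_right _ _) ht
      rw [bv_mod] at h1
      rw [← hs _ (le_max_left s t)]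
      exact h1
    · intro h
      refine ⟨s, ?_⟩
      rw [bv_mod]
      rw [← hs s le_rfl] at h
      exact h
  by_cases hpar : v % 2 = 0
  · right
    refine hne.subset ?_
    rintro y ⟨hy, hyW⟩
    refine ⟨hy, fun h => hyW ?_⟩
    rw [hmem, h]
    exact hpar
  · left
    refine hne.subset ?_
    rintro y ⟨hy, hyW⟩
    refine ⟨hy, fun h => ?_⟩
    rw [hmem, h] at hyW
    exact hpar hyW

end comb

/-- Martin: a computable non-decreasing approximation `H` to a dominating function gives a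
co-c.e. cohesive set which is computable from (certificates for) the limit of `H`. -/
theorem exists_cohesive (H : ℕ → ℕ → ℕ) (hH : Computable₂ H)
    (hmono : ∀ x s, H x s ≤ H x (s + 1)) (hle : ∀ x s, H x s ≤ s)
    (hlim : ∀ x, ∃ s0, ∀ s, s0 ≤ s → H x s = H x s0)
    (hdom : ∀ f : ℕ → ℕ, Computable f → ∃ n0, ∀ x, n0 ≤ x → ∃ s, f x ≤ H x s)
    (St : ℕ → ℕ → Prop) (hSt1 : ∀ x s, St x s → ∀ t, s ≤ t → H x t = H x s)
    (hSt2 : ∀ x, ∃ s, St x s) :
    ∃ C : Set ℕ, C.Infinite ∧ REPred (fun x => x ∉ C) ∧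
      (∀ W : Set ℕ, REPred (· ∈ W) → (C ∩ W).Finite ∨ (C \ W).Finite) ∧
      ∃ R : ℕ → List (ℕ × ℕ) → Prop, REPred (fun p : ℕ × List (ℕ × ℕ) => R p.1 p.2) ∧
        ∀ y, y ∈ C ↔ ∃ l : List (ℕ × ℕ), (∀ p ∈ l, St p.1 p.2) ∧ R y l := by
  obtain ⟨D, hDc, hD0, hD⟩ := exists_D H hH
  have hq : ∀ x, ∃ u, Quiet H x u := by
    intro x
    obtain ⟨s0, hs0⟩ := hlim x
    exact ⟨_, quiet_of x s0 hs0⟩
  refine ⟨CC D, CC_infinite hD0 hD hq, ?_, cohesive hDc hD0 hD hmono hle hlim hdom,
    cert hDc hD0 hD St hSt1 hSt2⟩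
  have h1 : REPred fun x : ℕ => ∃ s, x ∈ D s :=
    exN (p := fun (x : ℕ) s => x ∈ D s) (mem_list (by fun_prop) (hDc.comp (by fun_prop)))
  refine h1.of_eq fun x => ?_
  simp [CC]

end Pool.Agent.Helper446.Martin
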