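import Pool.Agent.Helper446.Cls

/-!
See the statement at the end of the file.
-/

namespace Pool.Agent.Helper446.Transfer

open Encodable Pool.Agent.Helper446.RE Pool.Agent.Helper446.Defs Pool.Agent.Helper446.Tree
  Pool.Agent.Helper446.Oracle Pool.Agent.Helper446.Cls

section order

variable {A : Type} [BooleanAlgebra A] {b : List Bool → A}

theorem b_snoc_le (hb2 : ∀ σ, b (σ ++ [false]) ⊔ b (σ ++ [true]) = b σ) (σ : List Bool)
    (c : Bool) : b (σ ++ [c]) ≤ b σ := by
  rw [← hb2 σ]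
  cases c
  · exact le_sup_left
  · exact le_sup_right

theorem b_anti (hb2 : ∀ σ, b (σ ++ [false]) ⊔ b (σ ++ [true]) = b σ) {σ τ : List Bool}
    (h : σ <+: τ) : b τ ≤ b σ := by
  obtain ⟨ρ, rfl⟩ := h
  induction ρ using List.reverseRecOn with
  | nil => simp
  | append_singleton ρ c ih =>
    rw [← List.append_assoc]
    exact (b_snoc_le hb2 _ _).trans ih

theorem b_disj (hb2 : ∀ σ, b (σ ++ [false]) ⊔ b (σ ++ [true]) = b σ)
    (hb3 : ∀ σ, b (σ ++ [false]) ⊓ b (σ ++ [true]) = ⊥) (n : ℕ) :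
    ∀ σ τ : List Bool, σ.length = n → τ.length = n → σ ≠ τ → b σ ⊓ b τ = ⊥ := by
  induction n with
  | zero =>
    intro σ τ hσ hτ h
    rw [List.length_eq_zero_iff] at hσ hτ
    exact absurd (hσ.trans hτ.symm) h
  | succ n ih =>
    intro σ τ hσ hτ h
    obtain ⟨σ', c, rfl⟩ := (List.eq_nil_or_concat' σ).resolve_left (by rintro rfl; simp at hσ)
    obtain ⟨τ', d, rfl⟩ := (List.eq_nil_or_concat' τ).resolve_left (by rintro rfl; simp at hτ)
    rw [List.length_append, List.length_singleton] at hσ hτ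
    by_cases hst : σ' = τ'
    · subst hst
      have hcd : c ≠ d := by rintro rfl; exact h rfl
      cases c <;> cases d
      · exact absurd rfl hcd
      · exact hb3 _
      · rw [inf_comm]; exact hb3 _
      · exact absurd rfl hcd
    · have := ih σ' τ' (by omega) (by omega) hst
      rw [eq_bot_iff] at this ⊢
      exact (inf_le_inf (b_snoc_le hb2 _ _) (b_snoc_le hb2 _ _)).trans this

theorem b_mem_of_all (hb2 : ∀ σ, b (σ ++ [false]) ⊔ b (σ ++ [true]) = b σ) (J : Order.Ideal A)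
    (n : ℕ) : ∀ σ : List Bool, (∀ τ : List Bool, τ.length = n → b (σ ++ τ) ∈ J) → b σ ∈ J := by
  induction n with
  | zero =>
    intro σ h
    have := h [] rfl
    rwa [List.append_nil] at this
  | succ n ih =>
    intro σ h
    rw [← hb2 σ]
    refine Order.Ideal.sup_mem ?_ ?_
    · apply ih
      intro τ hτ
      have := h (false :: τ) (by simp [hτ])
      rwa [List.append_cons] at this
    · apply ih
      intro τ hτ
      have := h (true :: τ) (by simp [hτ])
      rwa [List.append_cons] at this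

theorem b_dec (hb2 : ∀ σ, b (σ ++ [false]) ⊔ b (σ ++ [true]) = b σ)
    (hb5 : ∀ a : A, ∃ n : ℕ, ∀ σ : List Bool, σ.length = n → b σ ≤ a ∨ b σ ⊓ a = ⊥) (a : A) :
    ∃ n : ℕ, ∀ σ : List Bool, n ≤ σ.length → b σ ≤ a ∨ b σ ⊓ a = ⊥ := by
  obtain ⟨n, hn⟩ := hb5 a
  refine ⟨n, fun σ hσ => ?_⟩
  have h1 : b σ ≤ b (σ.take n) := b_anti hb2 (List.take_prefix _ _)
  rcases hn (σ.take n) (by rw [List.length_take]; omega) with h | h
  · exact Or.inl (h1.trans h)
  · right
    rw [eq_bot_iff] at h ⊢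
    exact (inf_le_inf_right _ h1).trans h

end order

section main

variable {A : Type} [BooleanAlgebra A] [Primcodable A]

theorem le_re {α : Type*} [Primcodable α] (hsup : Computable₂ fun a b : A => a ⊔ b)
    {f g : α → A} (hf : Computable f) (hg : Computable g) : REPred fun x => f x ≤ g x := by
  refine (RE.eq (hsup.comp hf hg) hg).of_eq fun x => ?_
  exact sup_eq_right

/-- the ideal -/
def idl (b : List Bool → A) (P : Set (ℕ → Bool))
    (hb2 : ∀ σ, b (σ ++ [false]) ⊔ b (σ ++ [true]) = b σ) (hb4 : ∀ σ, b σ ≠ ⊥)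
    (hb5 : ∀ a : A, ∃ n : ℕ, ∀ σ : List Bool, σ.length = n → b σ ≤ a ∨ b σ ⊓ a = ⊥) :
    Order.Ideal A where
  carrier := {a | ∀ σ ∈ Ext P, ¬ b σ ≤ a}
  lower' := by
    intro x y hyx hx σ hσ h
    exact hx σ hσ (h.trans hyx)
  nonempty' := ⟨⊥, fun σ _ h => hb4 σ (le_bot_iff.1 h)⟩
  directed' := by
    intro a1 h1 a2 h2
    refine ⟨a1 ⊔ a2, ?_, le_sup_left, le_sup_right⟩
    rintro σ ⟨x, hx, hxσ⟩ hle
    obtain ⟨n1, hn1⟩ := b_dec hb2 hb5 a1
    obtain ⟨n2, hn2⟩ := b_dec hb2 hb5 a2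
    set n := max (max n1 n2) σ.length with hn
    have hext : seg x n ∈ Ext P := seg_mem_ext hx n
    have hle' : b (seg x n) ≤ a1 ⊔ a2 := by
      refine (b_anti hb2 ?_).trans hle
      rw [← hxσ]
      exact seg_prefix x (le_max_right _ _)
    have e1 := (hn1 (seg x n) (by rw [seg_length]; omega)).resolve_left (h1 _ hext)
    have e2 := (hn2 (seg x n) (by rw [seg_length]; omega)).resolve_left (h2 _ hext)
    apply hb4 (seg x n)
    rw [← inf_eq_left.2 hle', inf_sup_left, e1, e2, bot_sup_eq]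

theorem mem_idl {b : List Bool → A} {P : Set (ℕ → Bool)}
    {hb2 : ∀ σ, b (σ ++ [false]) ⊔ b (σ ++ [true]) = b σ} {hb4 : ∀ σ, b σ ≠ ⊥}
    {hb5 : ∀ a : A, ∃ n : ℕ, ∀ σ : List Bool, σ.length = n → b σ ≤ a ∨ b σ ⊓ a = ⊥} {a : A} :
    a ∈ idl b P hb2 hb4 hb5 ↔ ∀ σ ∈ Ext P, ¬ b σ ≤ a := Iff.rfl

theorem b_mem_idl {b : List Bool → A} {P : Set (ℕ → Bool)}
    {hb2 : ∀ σ, b (σ ++ [false]) ⊔ b (σ ++ [true]) = b σ} {hb4 : ∀ σ, b σ ≠ ⊥}
    {hb5 : ∀ a : A, ∃ n : ℕ, ∀ σ : List Bool, σ.length = n → b σ ≤ a ∨ b σ ⊓ a = ⊥}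
    (hb3 : ∀ σ, b (σ ++ [false]) ⊓ b (σ ++ [true]) = ⊥) {σ : List Bool} :
    b σ ∈ idl b P hb2 hb4 hb5 ↔ σ ∉ Ext P := by
  rw [mem_idl]
  constructor
  · intro h hσ
    exact h σ hσ le_rfl
  · rintro h τ ⟨x, hx, hxτ⟩ hle
    apply h
    refine ⟨x, hx, ?_⟩
    by_contra hne
    have hd := b_disj hb2 hb3 σ.length (seg x σ.length) σ (seg_length _ _) rfl hne
    apply hb4 (seg x (max τ.length σ.length))
    rw [eq_bot_iff, ← hd]
    refine le_inf (b_anti hb2 (seg_prefix x (le_max_right _ _))) ?_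
    refine (b_anti hb2 ?_).trans hle
    rw [← hxτ, seg_length]
    exact seg_prefix x (le_max_left _ _)

end main

/-- Transfer from thin classes to maximal ideals of a computable atomless Boolean algebra. -/
theorem transfer {A : Type} [BooleanAlgebra A] [Primcodable A]
    (hsup : Computable₂ fun a b : A => a ⊔ b) (hinf : Computable₂ fun a b : A => a ⊓ b)
    (b : List Bool → A) (hb : Computable b) (hb1 : b [] = ⊤)
    (hb2 : ∀ σ, b (σ ++ [false]) ⊔ b (σ ++ [true]) = b σ)
    (hb3 : ∀ σ, b (σ ++ [false]) ⊓ b (σ ++ [true]) = ⊥)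
    (hb4 : ∀ σ, b σ ≠ ⊥)
    (hb5 : ∀ a : A, ∃ n : ℕ, ∀ σ : List Bool, σ.length = n → b σ ≤ a ∨ b σ ⊓ a = ⊥)
    {P : Set (ℕ → Bool)} (hP : IsPi01 P) (hPinf : P.Infinite)
    (hthin : ∀ X, IsPi01 X → X ⊆ P →
      ∃ n, ∀ y ∈ P, (∃ y' ∈ X, seg y n = seg y' n) → y ∈ X) :
    ∃ I : Order.Ideal A, (REPred fun a => a ∈ I) ∧
      {J : Order.Ideal A | (REPred fun a => a ∈ J) ∧ I ≤ J}.Infinite ∧
      (∀ J : Order.Ideal A, (REPred fun a => a ∈ J) → I ≤ J →
        ∃ x, J = I ⊔ Order.Ideal.principal x) ∧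
      ∀ B : Set ℕ, REIn B (fun σ => σ ∈ Ext P) ↔ REIn B (fun a : A => a ∉ I) := by
  classical
  have hIre : REPred fun a => a ∈ idl b P hb2 hb4 hb5 := by
    have h1 : REPred fun a : A => ∃ n, ∀ σ ∈ allStr n,
        (b σ ≤ a ∨ b σ ⊓ a = ⊥) ∧ (b σ ⊓ a = ⊥ ∨ σ ∉ Ext P) := by
      refine exN (p := fun (a : A) n => ∀ σ ∈ allStr n,
        (b σ ≤ a ∨ b σ ⊓ a = ⊥) ∧ (b σ ⊓ a = ⊥ ∨ σ ∉ Ext P)) ?_
      refine all_mem (p := fun (x : A × ℕ) (σ : List Bool) =>
        (b σ ≤ x.1 ∨ b σ ⊓ x.1 = ⊥) ∧ (b σ ⊓ x.1 = ⊥ ∨ σ ∉ Ext P))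
        (l := fun x : A × ℕ => allStr x.2) ?_ (allStr_comp.comp (by fun_prop))
      have hbσ : Computable fun x : (A × ℕ) × List Bool => b x.2 := hb.comp (by fun_prop)
      have ha : Computable fun x : (A × ℕ) × List Bool => x.1.1 := by fun_prop
      have hbot : REPred fun x : (A × ℕ) × List Bool => b x.2 ⊓ x.1.1 = ⊥ :=
        RE.eq (hinf.comp hbσ ha) (by fun_prop)
      exact RE.and (RE.or (le_re hsup hbσ ha) hbot)
        (RE.or hbot (RE.comp (ext_compl_re hP) (f := fun x : (A × ℕ) × List Bool => x.2)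
          (by fun_prop)))
    refine h1.of_eq fun a => ?_
    rw [mem_idl]
    constructor
    · rintro ⟨n, hn⟩ τ ⟨x, hx, hxτ⟩ hle
      have h2 := (hn (seg x n) (mem_allStr.2 (seg_length _ _))).2.resolve_right
        (fun h => h (seg_mem_ext hx n))
      apply hb4 (seg x (max n τ.length))
      rw [eq_bot_iff, ← h2]
      refine le_inf (b_anti hb2 (seg_prefix x (le_max_left _ _))) ?_
      refine (b_anti hb2 ?_).trans hle
      rw [← hxτ, seg_length]
      exact seg_prefix x (le_max_right _ _)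
    · intro h
      obtain ⟨n, hn⟩ := hb5 a
      refine ⟨n, fun σ hσ => ⟨hn σ (mem_allStr.1 hσ), ?_⟩⟩
      rcases hn σ (mem_allStr.1 hσ) with h2 | h2
      · exact Or.inr fun h3 => h σ h3 h2
      · exact Or.inl h2
  refine ⟨idl b P hb2 hb4 hb5, hIre, ?_, ?_, ?_⟩
  · -- infinitely many
    intro hfin
    let Js : List Bool → Order.Ideal A := fun σ =>
      { carrier := {a | a ⊓ b σ ∈ idl b P hb2 hb4 hb5}
        lower' := by
          intro x y hyx hx
          exact (idl b P hb2 hb4 hb5).lower (inf_le_inf_right _ hyx) hx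
        nonempty' := ⟨⊥, by
          show ⊥ ⊓ b σ ∈ idl b P hb2 hb4 hb5
          rw [bot_inf_eq]; exact Order.Ideal.bot_mem _⟩
        directed' := by
          intro x hx y hy
          refine ⟨x ⊔ y, ?_, le_sup_left, le_sup_right⟩
          show (x ⊔ y) ⊓ b σ ∈ idl b P hb2 hb4 hb5
          rw [inf_sup_right]
          exact Order.Ideal.sup_mem hx hy }
    have hJs : ∀ σ a, a ∈ Js σ ↔ a ⊓ b σ ∈ idl b P hb2 hb4 hb5 := fun σ a => Iff.rfl
    have hJmem : ∀ σ, Js σ ∈ {J : Order.Ideal A | (REPred fun a => a ∈ J) ∧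
        idl b P hb2 hb4 hb5 ≤ J} := by
      intro σ
      refine ⟨?_, ?_⟩
      · exact RE.comp hIre (f := fun a : A => a ⊓ b σ)
          (hinf.comp Computable.id (Computable.const _))
      · intro a ha
        exact (idl b P hb2 hb4 hb5).lower inf_le_left ha
    obtain ⟨F, hFP, hFc⟩ := hPinf.exists_subset_card_eq (hfin.toFinset.card + 1)
    have hsep : ∃ n, ∀ x ∈ F, ∀ y ∈ F, seg x n = seg y n → x = y := by
      have h1 : ∀ x y : ℕ → Bool, ∃ i, x ≠ y → x i ≠ y i := by
        intro x y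
        by_cases hxy : x = y
        · exact ⟨0, fun h => absurd hxy h⟩
        · obtain ⟨i, hi⟩ := Function.ne_iff.1 hxy
          exact ⟨i, fun _ => hi⟩
      choose d hd using h1
      refine ⟨F.sup fun x => F.sup fun y => d x y + 1, fun x hx y hy h => ?_⟩
      by_contra hxy
      apply hd x y hxy
      apply seg_eq_iff.1 h
      have h2 : d x y + 1 ≤ F.sup fun y => d x y + 1 := Finset.le_sup (f := fun y => d x y + 1) hy
      have h3 : (F.sup fun y => d x y + 1) ≤ F.sup fun x => F.sup fun y => d x y + 1 :=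
        Finset.le_sup (f := fun x => F.sup fun y => d x y + 1) hx
      omega
    obtain ⟨n, hn⟩ := hsep
    have hcard : F.card ≤ hfin.toFinset.card := by
      refine Finset.card_le_card_of_injOn (fun x => Js (seg x n)) ?_ ?_
      · intro x hx
        simp only [Set.Finite.coe_toFinset]
        exact hJmem _
      · intro x hx y hy hxy
        by_contra hne
        have hs : seg x n ≠ seg y n := fun h => hne (hn x hx y hy h)
        have h1 : b (seg y n) ∈ Js (seg x n) := by
          rw [hJs, b_disj hb2 hb3 n _ _ (seg_length _ _) (seg_length _ _) hs.symm]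
          exact Order.Ideal.bot_mem _
        have hxy' : Js (seg x n) = Js (seg y n) := hxy
        rw [hxy', hJs, inf_idem, b_mem_idl hb3] at h1
        exact h1 (seg_mem_ext (hFP hy) n)
    omega
  · -- principal over I
    intro J hJ hIJ
    have hX : IsPi01 {x | ∀ n, b (seg x n) ∉ J} := by
      rw [isPi01_iff]
      exact ⟨{σ | b σ ∈ J}, RE.comp hJ hb, rfl⟩
    set X : Set (ℕ → Bool) := {x | ∀ n, b (seg x n) ∉ J} with hXdef
    have hXP : X ⊆ P := by
      intro x hx
      apply mem_of_ext hP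
      intro n
      by_contra hcon
      exact hx n (hIJ ((b_mem_idl hb3).2 hcon))
    obtain ⟨n, hn⟩ := hthin X hX hXP
    refine ⟨((allStr n).toFinset.filter fun σ => σ ∉ Ext X).sup b, ?_⟩
    set a : A := ((allStr n).toFinset.filter fun σ => σ ∉ Ext X).sup b with ha
    have hba : ∀ σ : List Bool, σ.length = n → σ ∉ Ext X → b σ ≤ a := by
      intro σ h1 h2
      exact Finset.le_sup (f := b) (Finset.mem_filter.2 ⟨List.mem_toFinset.2 (mem_allStr.2 h1), h2⟩)
    have haJ : a ∈ J := by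
      rw [ha]
      refine Finset.sup_induction (p := fun c => c ∈ J) (Order.Ideal.bot_mem _) ?_ ?_
      · intro c hc d hd
        exact Order.Ideal.sup_mem hc hd
      · intro σ hσ
        rw [Finset.mem_filter] at hσ
        by_contra hσJ
        apply hσ.2
        obtain ⟨x, hx1, hx2⟩ := exists_path (T := {τ | b τ ∉ J}) (by
          intro σ τ hστ hτ hσ
          exact hτ (J.lower (b_anti hb2 hστ) hσ)) σ (by
          intro k
          by_contra hcon
          push Not at hcon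
          apply hσJ
          apply b_mem_of_all hb2 J k σ
          intro τ hτ
          have := hcon τ hτ
          simpa using this)
        exact ⟨x, hx1, hx2⟩
    apply le_antisymm
    · intro j hj
      rw [Order.Ideal.mem_sup]
      refine ⟨j ⊓ aᶜ, ?_, a, Order.Ideal.mem_principal.2 le_rfl, ?_⟩
      · rw [mem_idl]
        rintro t ⟨y, hy, hyt⟩ hle
        have htJ : b t ∈ J := J.lower (hle.trans inf_le_left) hj
        have hyX : y ∉ X := by
          intro h
          apply h t.length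
          rw [hyt]; exact htJ
        have hne : seg y n ∉ Ext X := by
          rintro ⟨y', hy', h1⟩
          rw [seg_length] at h1
          exact hyX (hn y hy ⟨y', hy', h1.symm⟩)
        apply hb4 (seg y (max n t.length))
        rw [eq_bot_iff, ← inf_compl_self (a := a)]
        refine le_inf ((b_anti hb2 (seg_prefix y (le_max_left _ _))).trans
          (hba _ (seg_length _ _) hne)) ?_
        refine (b_anti hb2 ?_).trans (hle.trans inf_le_right)
        rw [← hyt, seg_length]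
        exact seg_prefix y (le_max_right _ _)
      · have : j = (j ⊓ aᶜ) ⊔ (j ⊓ a) := by
          rw [← inf_sup_left, sup_comm, sup_compl_eq_top, inf_top_eq]
        calc j = (j ⊓ aᶜ) ⊔ (j ⊓ a) := this
          _ ≤ (j ⊓ aᶜ) ⊔ a := sup_le_sup_left inf_le_right _
    · refine sup_le hIJ ?_
      rw [Order.Ideal.principal_le_iff]
      exact haJ
  · intro B
    constructor
    · intro h
      have h1 : REIn B fun a : A => ∃ σ : List Bool, σ ∈ Ext P ∧ b σ ≤ a := by
        refine REIn.ex (S := fun (a : A) (σ : List Bool) => σ ∈ Ext P ∧ b σ ≤ a) ?_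
        refine REIn.and (h.comp (f := fun x : A × List Bool => x.2) (by fun_prop))
          (REIn.of_re (le_re hsup (hb.comp (by fun_prop)) (by fun_prop)))
      refine h1.of_eq fun a => ?_
      rw [mem_idl]
      push Not
      rfl
    · intro h
      have h1 := h.comp (f := b) hb
      refine h1.of_eq fun σ => ?_
      rw [b_mem_idl hb3, not_not]

end Pool.Agent.Helper446.Transfer
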