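import Pool.Agent.Helper446.Star
import Pool.Agent.Helper446.BTree
import Pool.Agent.Helper446.Transfer

/-!
Maximal ideals of every c.e. degree in a coded atomless Boolean algebra.
-/

namespace Pool.Agent.Helper446.MaxIdeal

open Encodable Pool.Agent.Helper446 Pool.Agent.Helper446.RE Pool.Agent.Helper446.Defs
  Pool.Agent.Helper446.Tree Pool.Agent.Helper446.Oracle Pool.Agent.Helper446.Cls
  Pool.Agent.Helper446.Thin Pool.Agent.Helper446.Deg

/-- Every point of the class other than the limit is isolated. -/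
theorem isol {f : ℕ → ℕ} (d : Data f) (hf : Function.Injective f) {y : ℕ → Bool}
    (hy : y ≠ d.lim hf) :
    ∃ n, ∀ y' ∈ cls d hf ∅, seg y' n = seg y n → y' = y := by
  obtain ⟨k, hk⟩ := Function.ne_iff.1 hy
  obtain ⟨T, hT⟩ := d.lim_spec hf (k + 1)
  have h2 : ∀ s, ∃ i, d.z s ≠ y → d.z s i ≠ y i := by
    intro s
    by_cases hs : d.z s = y
    · exact ⟨0, fun h => absurd hs h⟩
    · obtain ⟨i, hi⟩ := Function.ne_iff.1 hs
      exact ⟨i, fun _ => hi⟩
  choose g hg using h2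
  refine ⟨(Finset.range (T + 1)).sup g + 1 + (k + 1), ?_⟩
  rintro y' (rfl | ⟨s, hs, rfl⟩ | ⟨j, hj, -⟩) hseg
  · exact absurd (seg_eq_iff.1 hseg k (by omega)).symm hk
  · by_contra hne
    rcases Nat.lt_or_ge T s with h3 | h3
    · have h4 := hT s h3 hs
      exact hk ((seg_eq_iff.1 hseg k (by omega)).symm.trans (seg_eq_iff.1 h4 k (by omega)))
    · have h4 : g s ≤ (Finset.range (T + 1)).sup g :=
        Finset.le_sup (f := g) (Finset.mem_range.2 (by omega))
      exact hg s hne (seg_eq_iff.1 hseg (g s) (by omega))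
  · simp at hj

/-- The class without twins is thin. -/
theorem thin {f : ℕ → ℕ} (d : Data f) (hf : Function.Injective f) (X : Set (ℕ → Bool))
    (hX : IsPi01 X) (hXP : X ⊆ cls d hf ∅) :
    ∃ n, ∀ y ∈ cls d hf ∅, (∃ y' ∈ X, seg y n = seg y' n) → y ∈ X := by
  classical
  have h2 : ∀ y, ∃ n, y ≠ d.lim hf → ∀ y' ∈ cls d hf ∅, seg y' n = seg y n → y' = y := by
    intro y
    by_cases hy : y = d.lim hf
    · exact ⟨0, fun h => absurd hy h⟩
    · obtain ⟨n, hn⟩ := isol d hf hy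
      exact ⟨n, fun _ => hn⟩
  choose g hg using h2
  rcases thin_cls d hf X hX hXP with ⟨hlim, hfin⟩ | ⟨hlim, hfin⟩
  · refine ⟨hfin.toFinset.sup g, ?_⟩
    rintro y hy ⟨y', hy', hseg⟩
    have h3 : g y' ≤ hfin.toFinset.sup g := Finset.le_sup (f := g) (hfin.mem_toFinset.2 hy')
    have h4 : y' ≠ d.lim hf := fun h => hlim (h ▸ hy')
    rw [hg y' h4 y hy (seg_mono_eq hseg h3)]
    exact hy'
  · refine ⟨hfin.toFinset.sup g, ?_⟩
    rintro y hy ⟨y', hy', hseg⟩
    by_contra hcon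
    have h3 : g y ≤ hfin.toFinset.sup g :=
      Finset.le_sup (f := g) (hfin.mem_toFinset.2 ⟨hy, hcon⟩)
    have h4 : y ≠ d.lim hf := fun h => hcon (h ▸ hlim)
    have h5 := hg y h4 y' (hXP hy') (seg_mono_eq hseg.symm h3)
    exact hcon (h5 ▸ hy')

/-- Existence of maximal ideals of every c.e. degree. -/
theorem exists_ideal {A : Type} [BooleanAlgebra A] [Primcodable A]
    (hsup : Computable₂ fun a b : A => a ⊔ b) (hinf : Computable₂ fun a b : A => a ⊓ b)
    (hcompl : Computable fun a : A => aᶜ) (hnt : (⊤ : A) ≠ ⊥)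
    (hatomless : ∀ a : A, a ≠ ⊥ → ∃ b : A, b ≠ ⊥ ∧ b < a) {E : Set ℕ}
    (hE : REPred fun n => n ∈ E) :
    ∃ I : Order.Ideal A, (REPred fun a => a ∈ I) ∧
      {J : Order.Ideal A | (REPred fun a => a ∈ J) ∧ I ≤ J}.Infinite ∧
      (∀ J : Order.Ideal A, (REPred fun a => a ∈ J) → I ≤ J →
        ∃ x, J = I ⊔ Order.Ideal.principal x) ∧
      degree (I : Set A) = degree E := by
  obtain ⟨q, hq, hEq⟩ := re_iff.1 hE
  obtain ⟨d, hz⟩ := exists_data (F_comp hq) (fun r hr => F_pos q hr)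
  obtain ⟨b, hb, hb1, hb2, hb3, hb4, hb5⟩ :=
    BTree.exists_btree hsup hinf hcompl hnt hatomless
  have hPi : IsPi01 (cls d (F_injective q) ∅) :=
    Star.isPi01_empty d (F_injective q) (F_comp hq) hz
  obtain ⟨I, hI1, hI2, hI3, hI4⟩ := Transfer.transfer hsup hinf b hb hb1 hb2 hb3 hb4 hb5 hPi
    (cls_infinite d (F_injective q)) (thin d (F_injective q))
  refine ⟨I, hI1, hI2, hI3, degree_eq ?_ ?_ ?_ ?_⟩
  · exact REIn.of_re hI1
  · rw [cod_nat]
    refine ((hI4 E).1 ?_).of_eq fun a => Iff.rfl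
    exact ext_rein d (F_injective q) (tr_rein hq hEq) hz
      ((REIn.of_re (RE.const False)).of_eq fun j => by simp)
  · exact REIn.of_re hE
  · refine compl_rein hq hEq ?_
    have h0 : REIn (cod (I : Set A)) fun σ => σ ∈ Ext (cls d (F_injective q) ∅) :=
      (hI4 _).2 (rein_cod_not (S := (I : Set A)))
    have h1 : REIn (cod (I : Set A)) fun s : ℕ => s = 0 ∨
        (0 < s ∧ seg (d.z s) (2 * s + 1) ∈ Ext (cls d (F_injective q) ∅)) := by
      refine REIn.or (REIn.of_re (RE.eq (by fun_prop) (by fun_prop)))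
        (REIn.and (REIn.of_re (RE.lt (by fun_prop) (by fun_prop))) ?_)
      exact h0.comp (zseg_comp hz (by fun_prop) (by fun_prop))
    refine h1.of_eq fun s => ?_
    constructor
    · rintro (rfl | ⟨h2, h3⟩)
      · exact fun r hr => F_pos q hr
      · exact (tr_iff d (F_injective q) (C := ∅) (by simp) h2).2 h3
    · intro h2
      rcases Nat.eq_zero_or_pos s with h3 | h3
      · left; exact h3
      · right; exact ⟨h3, (tr_iff d (F_injective q) (C := ∅) (by simp) h3).1 h2⟩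

end Pool.Agent.Helper446.MaxIdeal
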