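import Mathlib

/-!
Closure properties of recursively enumerable predicates, and how to get computable functions from
recursively enumerable graphs.
-/

namespace Pool.Agent.Helper446.RE

open Encodable Nat.Partrec

universe u1 u2 u3 u4

variable {α : Type u1} {β : Type u2} {γ : Type u3} {σ : Type u4}
variable [Primcodable α] [Primcodable β] [Primcodable γ] [Primcodable σ]

/-- Projection theorem: an r.e. predicate is the projection of a computable one. -/
theorem re_iff {p : α → Prop} :
    REPred p ↔ ∃ q : α → ℕ → Bool, Computable₂ q ∧ ∀ a, p a ↔ ∃ n, q a n = true := by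
  constructor
  · intro hp
    obtain ⟨c, hc⟩ := Nat.Partrec.Code.exists_code.1 hp
    refine ⟨fun a n => (Nat.Partrec.Code.evaln n c (encode a)).isSome, ?_, ?_⟩
    · have h1 : Computable fun x : (ℕ × Code) × ℕ => (Code.evaln x.1.1 x.1.2 x.2) :=
        Code.primrec_evaln.to_comp
      have h2 : Computable fun x : α × ℕ => Code.evaln x.2 c (encode x.1) :=
        h1.comp ((Computable.snd.pair (Computable.const c)).pair
          (Computable.encode.comp Computable.fst))
      exact (Primrec.option_isSome.to_comp.comp h2)
    · intro a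
      have h1 : Code.eval c (encode a) =
          (Part.assert (p a) fun _ => Part.some ()).map encode := by
        rw [hc]; simp
      have h2 : p a ↔ (Code.eval c (encode a)).Dom := by
        rw [h1]
        simp only [Part.map_Dom]
        constructor
        · intro h; exact ⟨h, trivial⟩
        · rintro ⟨h, -⟩; exact h
      rw [h2, Part.dom_iff_mem]
      constructor
      · rintro ⟨y, hy⟩
        obtain ⟨k, hk⟩ := Code.evaln_complete.1 hy
        refine ⟨k, ?_⟩
        rw [Option.mem_def] at hk
        show (Code.evaln k c (encode a)).isSome = true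
        rw [hk]; rfl
      · rintro ⟨k, hk⟩
        obtain ⟨y, hy⟩ := Option.isSome_iff_exists.1 hk
        exact ⟨y, Code.evaln_complete.2 ⟨k, hy⟩⟩
  · rintro ⟨q, hq, h⟩
    have h1 : Partrec fun a : α => Nat.rfind fun n => Part.some (q a n) :=
      Partrec.rfind hq.partrec₂
    refine h1.dom_re.of_eq fun a => ?_
    rw [h a]
    constructor
    · intro hd
      have := Nat.rfind_dom.1 hd
      obtain ⟨n, hn, -⟩ := this
      obtain ⟨_, hn⟩ := hn
      exact ⟨n, hn⟩
    · rintro ⟨n, hn⟩
      exact Nat.rfind_dom.2 ⟨n, by simp [hn], fun _ => trivial⟩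

theorem re_of_proj {p : α → Prop} (q : α → ℕ → Bool) (hq : Computable₂ q)
    (h : ∀ a, p a ↔ ∃ n, q a n = true) : REPred p := re_iff.2 ⟨q, hq, h⟩

theorem comp {p : β → Prop} (hp : REPred p) {f : α → β} (hf : Computable f) :
    REPred fun a => p (f a) := Partrec.comp hp hf

theorem and {p q : α → Prop} (hp : REPred p) (hq : REPred q) : REPred fun a => p a ∧ q a := by
  have h : Partrec fun a => (Part.assert (p a) fun _ => Part.some ()).bind
      fun _ => (Part.assert (q a) fun _ => Part.some ()) :=
    Partrec.bind hp (hq.comp Computable.fst)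
  refine h.dom_re.of_eq fun a => ?_
  simp only [Part.bind_dom]
  constructor
  · rintro ⟨⟨h1, -⟩, ⟨h2, -⟩⟩; exact ⟨h1, h2⟩
  · rintro ⟨h1, h2⟩; exact ⟨⟨h1, trivial⟩, ⟨h2, trivial⟩⟩

theorem or {p q : α → Prop} (hp : REPred p) (hq : REPred q) : REPred fun a => p a ∨ q a := by
  obtain ⟨k, hk, h⟩ := Partrec.merge' hp hq
  refine hk.dom_re.of_eq fun a => ?_
  rw [(h a).2]
  constructor
  · rintro (⟨h1, -⟩ | ⟨h1, -⟩)
    exacts [Or.inl h1, Or.inr h1]
  · rintro (h1 | h1)
    exacts [Or.inl ⟨h1, trivial⟩, Or.inr ⟨h1, trivial⟩]

theorem exN {p : α → ℕ → Prop} (hp : REPred fun x : α × ℕ => p x.1 x.2) :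
    REPred fun a => ∃ n, p a n := by
  obtain ⟨q, hq, h⟩ := re_iff.1 hp
  refine re_of_proj (fun a n => q (a, n.unpair.1) n.unpair.2) ?_ ?_
  · have h1 : Computable fun x : α × ℕ => x.2.unpair := Computable.unpair.comp Computable.snd
    exact hq.comp (Computable.fst.pair (Computable.fst.comp h1)) (Computable.snd.comp h1)
  · intro a
    constructor
    · rintro ⟨n, hn⟩
      obtain ⟨m, hm⟩ := (h (a, n)).1 hn
      exact ⟨Nat.pair n m, by simpa using hm⟩
    · rintro ⟨n, hn⟩
      exact ⟨n.unpair.1, (h (a, n.unpair.1)).2 ⟨_, hn⟩⟩

theorem of_comput {p : α → Prop} (hp : ComputablePred p) : REPred p := hp.to_re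

theorem of_bool {f : α → Bool} (hf : Computable f) : REPred fun a => f a = true :=
  (ComputablePred.computable_iff.2 ⟨f, hf, rfl⟩).to_re

theorem cp_comp {p : β → Prop} (hp : ComputablePred p) {f : α → β} (hf : Computable f) :
    ComputablePred fun a => p (f a) := by
  obtain ⟨_, h⟩ := hp
  exact ⟨fun a => inferInstance, h.comp hf⟩

theorem cp_eq {f g : α → β} (hf : Computable f) (hg : Computable g) :
    ComputablePred fun a => f a = g a := by
  have h1 : PrimrecPred fun x : β × β => x.1 = x.2 := Primrec.eq
  exact cp_comp (p := fun x : β × β => x.1 = x.2) h1.computablePred (hf.pair hg)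

theorem eq {f g : α → β} (hf : Computable f) (hg : Computable g) : REPred fun a => f a = g a :=
  (cp_eq hf hg).to_re

theorem ne {f g : α → β} (hf : Computable f) (hg : Computable g) : REPred fun a => f a ≠ g a :=
  (cp_eq hf hg).not.to_re

theorem cp_lt {f g : α → ℕ} (hf : Computable f) (hg : Computable g) :
    ComputablePred fun a => f a < g a := by
  have h1 : PrimrecPred fun x : ℕ × ℕ => x.1 < x.2 := Primrec.nat_lt
  exact cp_comp (p := fun x : ℕ × ℕ => x.1 < x.2) h1.computablePred (hf.pair hg)

theorem cp_le {f g : α → ℕ} (hf : Computable f) (hg : Computable g) :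
    ComputablePred fun a => f a ≤ g a := by
  have h1 : PrimrecPred fun x : ℕ × ℕ => x.1 ≤ x.2 := Primrec.nat_le
  exact cp_comp (p := fun x : ℕ × ℕ => x.1 ≤ x.2) h1.computablePred (hf.pair hg)

theorem lt {f g : α → ℕ} (hf : Computable f) (hg : Computable g) : REPred fun a => f a < g a :=
  (cp_lt hf hg).to_re

theorem le {f g : α → ℕ} (hf : Computable f) (hg : Computable g) : REPred fun a => f a ≤ g a :=
  (cp_le hf hg).to_re

/-- Existential quantifier over any coded type. -/
theorem ex {p : α → β → Prop} (hp : REPred fun x : α × β => p x.1 x.2) :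
    REPred fun a => ∃ b, p a b := by
  obtain ⟨q, hq, h⟩ := re_iff.1 hp
  have h2 : REPred fun a => ∃ n : ℕ, ∃ m : ℕ,
      (decode (α := β) n).elim false (fun b => q (a, b) m) = true := by
    refine exN (p := fun a n => ∃ m : ℕ,
      (decode (α := β) n).elim false (fun b => q (a, b) m) = true) ?_
    refine exN (p := fun (x : α × ℕ) m =>
      (decode (α := β) x.2).elim false (fun b => q (x.1, b) m) = true) ?_
    apply of_bool
    have h3 : Computable fun x : (α × ℕ) × ℕ => decode (α := β) x.1.2 :=
      Computable.decode.comp (Computable.snd.comp Computable.fst)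
    have h4 : Computable₂ fun (x : (α × ℕ) × ℕ) (b : β) => q (x.1.1, b) x.2 := by
      refine hq.comp (Computable.pair ?_ Computable.snd) ?_
      · exact (Computable.fst.comp (Computable.fst.comp Computable.fst))
      · exact Computable.snd.comp Computable.fst
    have h5 := Computable.option_casesOn h3 (Computable.const false) h4
    refine h5.of_eq fun x => ?_
    cases decode (α := β) x.1.2 <;> rfl
  refine h2.of_eq fun a => ?_
  constructor
  · rintro ⟨n, m, hm⟩
    rcases hd : decode (α := β) n with _ | b
    · rw [hd] at hm; simp at hm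
    · rw [hd] at hm
      exact ⟨b, (h (a, b)).2 ⟨m, hm⟩⟩
  · rintro ⟨b, hb⟩
    obtain ⟨m, hm⟩ := (h (a, b)).1 hb
    exact ⟨encode b, m, by simpa using hm⟩

/-- Uniformisation: a recursively enumerable relation has a partial recursive selector. -/
theorem uniformize {r : α → β → Prop} (hr : REPred fun x : α × β => r x.1 x.2) :
    ∃ f : α →. β, Partrec f ∧ (∀ a, (f a).Dom ↔ ∃ b, r a b) ∧ ∀ a, ∀ b ∈ f a, r a b := by
  obtain ⟨q, hq, h⟩ := re_iff.1 hr
  let g : α → ℕ → Option β := fun a n =>
    (decode (α := β) n.unpair.1).bind fun b => bif q (a, b) n.unpair.2 then some b else none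
  have hg : Computable₂ g := by
    have h1 : Computable fun x : α × ℕ => x.2.unpair := Computable.unpair.comp Computable.snd
    refine Computable.option_bind
      (f := fun x : α × ℕ => decode (α := β) x.2.unpair.1)
      (g := fun x b => bif q (x.1, b) x.2.unpair.2 then some b else none)
      (Computable.decode.comp (Computable.fst.comp h1)) ?_
    refine Computable.cond (c := fun x : (α × ℕ) × β => q (x.1.1, x.2) x.1.2.unpair.2)
      ?_ (Computable.option_some.comp Computable.snd) (Computable.const none)
    refine hq.comp ?_ ?_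
    · exact (Computable.fst.comp Computable.fst).pair Computable.snd
    · exact Computable.snd.comp (h1.comp Computable.fst)
  refine ⟨fun a => Nat.rfindOpt (g a), Partrec.rfindOpt hg, ?_, ?_⟩
  · intro a
    rw [Nat.rfindOpt_dom]
    constructor
    · rintro ⟨n, b, hb⟩
      simp only [g, Option.mem_def, Option.bind_eq_some_iff] at hb
      obtain ⟨b', hb', hb2⟩ := hb
      rcases hqq : q (a, b') n.unpair.2 with _ | _
      · rw [hqq] at hb2; simp at hb2
      · exact ⟨b', (h (a, b')).2 ⟨_, hqq⟩⟩
    · rintro ⟨b, hb⟩
      obtain ⟨m, hm⟩ := (h (a, b)).1 hb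
      refine ⟨Nat.pair (encode b) m, b, ?_⟩
      simp [g, hm]
  · intro a b hb
    obtain ⟨n, hn⟩ := Nat.rfindOpt_spec hb
    simp only [g, Option.mem_def, Option.bind_eq_some_iff] at hn
    obtain ⟨b', hb', hb2⟩ := hn
    rcases hqq : q (a, b') n.unpair.2 with _ | _
    · rw [hqq] at hb2; simp at hb2
    · rw [hqq] at hb2
      simp only [cond_true, Option.some.injEq] at hb2
      subst hb2
      exact (h (a, b')).2 ⟨_, hqq⟩

/-- A total function whose graph is r.e. is computable. -/
theorem computable_of_graph {f : α → β} (hf : REPred fun x : α × β => f x.1 = x.2) :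
    Computable f := by
  obtain ⟨g, hg, h1, h2⟩ := uniformize (r := fun a b => f a = b) hf
  refine hg.of_eq_tot fun a => ?_
  have hd : (g a).Dom := (h1 a).2 ⟨_, rfl⟩
  have hm := h2 a _ (Part.get_mem hd)
  rw [hm]
  exact Part.get_mem hd

/-- Boolean bounded universal quantifier. -/
def allB (q : ℕ → Bool) : ℕ → Bool
  | 0 => true
  | n + 1 => allB q n && q n

theorem allB_iff (q : ℕ → Bool) (n : ℕ) : allB q n = true ↔ ∀ i < n, q i = true := by
  induction n with
  | zero => simp [allB]
  | succ n ih =>
    simp only [allB, Bool.and_eq_true, ih]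
    constructor
    · rintro ⟨h3, h4⟩ i hi
      rcases Nat.lt_succ_iff_lt_or_eq.1 hi with h5 | h5
      exacts [h3 i h5, h5 ▸ h4]
    · intro h3
      exact ⟨fun i hi => h3 i (by omega), h3 n (by omega)⟩

theorem computable_allB {q : α → ℕ → Bool} (hq : Computable₂ q) {f : α → ℕ}
    (hf : Computable f) : Computable fun a => allB (q a) (f a) := by
  have h := Computable.nat_rec (f := f) (g := fun _ : α => true)
    (h := fun (a : α) (y : ℕ × Bool) => y.2 && q a y.1) hf (Computable.const true)
    (Primrec.and.to_comp.comp (Computable.snd.comp Computable.snd)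
      (hq.comp Computable.fst (Computable.fst.comp Computable.snd)))
  refine h.of_eq fun a => ?_
  generalize f a = n
  induction n with
  | zero => rfl
  | succ n ih => simp only [allB]; rw [← ih]

/-- Boolean bounded existential quantifier. -/
def exB (q : ℕ → Bool) (n : ℕ) : Bool := !(allB (fun k => !(q k)) n)

theorem exB_iff (q : ℕ → Bool) (n : ℕ) : exB q n = true ↔ ∃ i < n, q i = true := by
  have h := allB_iff (fun k => !(q k)) n
  unfold exB
  cases hh : allB (fun k => !(q k)) n
  · rw [hh] at h
    simp only [Bool.not_false, true_iff]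
    by_contra hcon
    push Not at hcon
    have := h.2 (fun i hi => by simpa using hcon i hi)
    simp at this
  · rw [hh] at h
    have h2 := h.1 rfl
    simp only [Bool.not_true, Bool.false_eq_true, false_iff]
    rintro ⟨i, hi, h3⟩
    have := h2 i hi
    simp [h3] at this

theorem computable_exB {q : α → ℕ → Bool} (hq : Computable₂ q) {f : α → ℕ}
    (hf : Computable f) : Computable fun a => exB (q a) (f a) := by
  have h1 : Computable₂ fun (a : α) (k : ℕ) => !(q a k) := Primrec.not.to_comp.comp hq
  exact Primrec.not.to_comp.comp (computable_allB h1 hf)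

/-- Bounded universal quantification. -/
theorem all_lt {p : α → ℕ → Prop} (hp : REPred fun x : α × ℕ => p x.1 x.2) {f : α → ℕ}
    (hf : Computable f) : REPred fun a => ∀ i < f a, p a i := by
  obtain ⟨q, hq, h⟩ := re_iff.1 hp
  have h1 : Computable₂ fun (x : α × ℕ) (i : ℕ) => exB (q (x.1, i)) x.2 := by
    refine computable_exB (α := (α × ℕ) × ℕ) (q := fun y => q (y.1.1, y.2))
      (f := fun y => y.1.2) ?_ (Computable.snd.comp Computable.fst)
    refine hq.comp ?_ Computable.snd
    exact (Computable.fst.comp (Computable.fst.comp Computable.fst)).pair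
      (Computable.snd.comp Computable.fst)
  have h2 : Computable₂ fun (a : α) (b : ℕ) => allB (fun i => exB (q (a, i)) b) (f a) :=
    computable_allB (α := α × ℕ) (q := fun x i => exB (q (x.1, i)) x.2) (f := fun x => f x.1)
      h1 (hf.comp Computable.fst)
  refine re_of_proj _ h2 fun a => ?_
  simp only [allB_iff, exB_iff]
  constructor
  · intro h3
    have h4 : ∀ i, ∃ k, i < f a → q (a, i) k = true := by
      intro i
      by_cases hi : i < f a
      · obtain ⟨k, hk⟩ := (h (a, i)).1 (h3 i hi)
        exact ⟨k, fun _ => hk⟩
      · exact ⟨0, fun h => absurd h hi⟩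
    choose k hk using h4
    refine ⟨(Finset.range (f a)).sup k + 1, fun i hi => ⟨k i, ?_, hk i hi⟩⟩
    exact Nat.lt_succ_of_le (Finset.le_sup (f := k) (Finset.mem_range.2 hi))
  · rintro ⟨b, hb⟩ i hi
    obtain ⟨k, -, hk⟩ := hb i hi
    exact (h (a, i)).2 ⟨k, hk⟩

/-- Universal quantification over the elements of a computed list. -/
theorem all_mem {p : α → β → Prop} (hp : REPred fun x : α × β => p x.1 x.2) {l : α → List β}
    (hl : Computable l) : REPred fun a => ∀ b ∈ l a, p a b := by
  have h1 : REPred fun a => ∀ i < (l a).length, ∃ b, (l a)[i]? = some b ∧ p a b := by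
    refine all_lt (p := fun a i => ∃ b, (l a)[i]? = some b ∧ p a b) ?_
      (Computable.list_length.comp hl)
    refine ex (p := fun (x : α × ℕ) b => (l x.1)[x.2]? = some b ∧ p x.1 b) ?_
    refine and ?_ ?_
    · refine eq ?_ (Computable.option_some.comp Computable.snd)
      exact Computable.list_getElem?.comp (hl.comp (Computable.fst.comp Computable.fst))
        (Computable.snd.comp Computable.fst)
    · exact comp hp ((Computable.fst.comp Computable.fst).pair Computable.snd)
  refine h1.of_eq fun a => ?_
  constructor
  · intro h b hb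
    obtain ⟨i, hi, rfl⟩ := List.getElem_of_mem hb
    obtain ⟨b', hb', hp'⟩ := h i hi
    rw [List.getElem?_eq_getElem hi] at hb'
    cases hb'
    exact hp'
  · intro h i hi
    exact ⟨(l a)[i], List.getElem?_eq_getElem hi, h _ (List.getElem_mem hi)⟩

/-- Existential quantification over the elements of a computed list. -/
theorem ex_mem {p : α → β → Prop} (hp : REPred fun x : α × β => p x.1 x.2) {l : α → List β}
    (hl : Computable l) : REPred fun a => ∃ b ∈ l a, p a b := by
  have h1 : REPred fun a => ∃ b, (∃ i : ℕ, (l a)[i]? = some b) ∧ p a b := by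
    refine ex (p := fun a b => (∃ i : ℕ, (l a)[i]? = some b) ∧ p a b) ?_
    refine and ?_ hp
    refine exN (p := fun (x : α × β) (i : ℕ) => (l x.1)[i]? = some x.2) ?_
    refine eq ?_ (Computable.option_some.comp (Computable.snd.comp Computable.fst))
    exact Computable.list_getElem?.comp (hl.comp (Computable.fst.comp Computable.fst))
      Computable.snd
  refine h1.of_eq fun a => ?_
  simp only [← List.mem_iff_getElem?]

theorem mem_list {f : α → β} {l : α → List β} (hf : Computable f) (hl : Computable l) :
    REPred fun a => f a ∈ l a := by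
  have h := ex_mem (p := fun a b => f a = b) (l := l)
    (eq (hf.comp Computable.fst) Computable.snd) hl
  refine h.of_eq fun a => ?_
  simp

theorem not_mem_list {f : α → β} {l : α → List β} (hf : Computable f) (hl : Computable l) :
    REPred fun a => f a ∉ l a := by
  have h := all_mem (p := fun a b => f a ≠ b) (l := l)
    (ne (hf.comp Computable.fst) Computable.snd) hl
  refine h.of_eq fun a => ?_
  constructor
  · intro h h2; exact h _ h2 rfl
  · rintro h b hb rfl; exact h hb

theorem cp_of_re {p : α → Prop} (h1 : REPred p) (h2 : REPred fun a => ¬ p a) :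
    ComputablePred p := ComputablePred.computable_iff_re_compl_re'.2 ⟨h1, h2⟩

theorem const (P : Prop) : REPred fun _ : α => P := by
  by_cases h : P
  · refine (eq (f := fun _ : α => ()) (g := fun _ => ()) (Computable.const ())
      (Computable.const ())).of_eq fun a => by simp [h]
  · refine (ne (f := fun _ : α => ()) (g := fun _ => ()) (Computable.const ())
      (Computable.const ())).of_eq fun a => by simp [h]

/-- Folding over a computed list. -/
theorem list_foldl {f : α → List β} {g : α → σ} {h : α → σ × β → σ} (hf : Computable f)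
    (hg : Computable g) (hh : Computable₂ h) :
    Computable fun a => (f a).foldl (fun s b => h a (s, b)) (g a) := by
  have h1 : Computable fun a => (Nat.rec (motive := fun _ => σ) (g a)
      (fun i acc => ((f a)[i]?).elim acc (fun b => h a (acc, b))) (f a).length : σ) := by
    refine Computable.nat_rec (h := fun a y => ((f a)[y.1]?).elim y.2 (fun b => h a (y.2, b)))
      (Computable.list_length.comp hf) hg ?_
    have h3 : Computable fun x : α × (ℕ × σ) => (f x.1)[x.2.1]? :=
      Computable.list_getElem?.comp (hf.comp Computable.fst)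
        (Computable.fst.comp Computable.snd)
    have h4 : Computable₂ fun (x : α × (ℕ × σ)) (b : β) => h x.1 (x.2.2, b) := by
      refine hh.comp (Computable.fst.comp Computable.fst) ?_
      exact (Computable.snd.comp (Computable.snd.comp Computable.fst)).pair Computable.snd
    refine (Computable.option_casesOn h3 (Computable.snd.comp Computable.snd) h4).of_eq ?_
    intro x
    show _ = ((f x.1)[x.2.1]?).elim x.2.2 (fun b => h x.1 (x.2.2, b))
    cases (f x.1)[x.2.1]? <;> rfl
  refine h1.of_eq fun a => ?_
  have h2 : ∀ (l : List β) (s : σ) (n : ℕ), n ≤ l.length →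
      (Nat.rec (motive := fun _ => σ) s (fun i acc => (l[i]?).elim acc (fun b => h a (acc, b))) n :
        σ) = (l.take n).foldl (fun s b => h a (s, b)) s := by
    intro l s n
    induction n with
    | zero => intro _; simp
    | succ n ih =>
      intro hn
      have hn' : n < l.length := by omega
      have hget : l[n]? = some l[n] := List.getElem?_eq_getElem hn'
      show (l[n]?).elim _ _ = _
      rw [ih (by omega), List.take_add_one, List.foldl_append]
      simp only [hget, Option.elim_some, Option.toList_some, List.foldl_cons, List.foldl_nil]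
  rw [h2 _ _ _ le_rfl, List.take_length]

end Pool.Agent.Helper446.RE
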