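import Pool.Agent.Helper446.Deg

/-!
The quotient lattices of the classes with twins, and direct sums.
-/

namespace Pool.Agent.Helper446.Star

open Encodable Pool.Agent.Helper446.RE Pool.Agent.Helper446.Defs Pool.Agent.Helper446.Tree
  Pool.Agent.Helper446.Oracle Pool.Agent.Helper446.Cls Pool.Agent.Helper446.Thin

section cohesive

variable {f : ℕ → ℕ} (d : Data f) (hf : Function.Injective f) {C : Set ℕ}
  (hC : ∀ j ∈ C, Tr f j) (hfc : Computable f) (hz : Computable fun p : ℕ × ℕ => d.z p.1 p.2)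
  (hCre : REPred fun j => j ∉ C)

include hfc hz in
theorem isPi01_empty : IsPi01 (cls d hf ∅) :=
  isPi01_cls d hf (by simp) hfc hz ((RE.const True).of_eq fun j => by simp)

theorem isPi01_bot : IsPi01 (∅ : Set (ℕ → Bool)) :=
  isPi01_iff.2 ⟨Set.univ, RE.const _, by ext x; simp⟩

/-- Without twins the quotient lattice is finite. -/
theorem finiteStar_empty (hfc : Computable f) (hz : Computable fun p : ℕ × ℕ => d.z p.1 p.2) :
    FiniteStar (cls d hf ∅) := by
  refine ⟨{∅, cls d hf ∅}, by simp, ?_, ?_⟩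
  · rintro Y (rfl | rfl)
    · exact ⟨isPi01_bot, Set.empty_subset _⟩
    · exact ⟨isPi01_empty d hf hfc hz, subset_rfl⟩
  · intro X hX hXP
    rcases thin_cls d hf X hX hXP with ⟨-, h⟩ | ⟨-, h⟩
    · refine ⟨∅, by simp, ?_⟩
      simpa [Set.symmDiff_def] using h
    · refine ⟨cls d hf ∅, by simp, ?_⟩
      rw [Set.symmDiff_def, Set.sdiff_eq_empty.2 hXP, Set.empty_union]
      exact h

include hC in
/-- The three kinds of subclasses. -/
theorem trichotomy (hz : Computable fun p : ℕ × ℕ => d.z p.1 p.2)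
    (hcoh : ∀ W : Set ℕ, REPred (· ∈ W) → (C ∩ W).Finite ∨ (C \ W).Finite)
    (X : Set (ℕ → Bool)) (hX : IsPi01 X) (hXP : X ⊆ cls d hf C) :
    X.Finite ∨ ((cls d hf ∅ \ X).Finite ∧
      ((cls d hf C \ X).Finite ∨ (X \ cls d hf ∅).Finite)) := by
  obtain ⟨e, rfl⟩ := exists_index hX
  by_cases h : d.lim hf ∈ U e
  · left
    exact (finite_of_lim_mem d hf hC h).subset fun x hx => ⟨hXP hx, hx⟩
  · right
    have h1 : (cls d hf ∅ \ {x | x ∉ U e}).Finite := by
      refine (finite_of_lim_not_mem d hf h).subset fun x hx => ⟨hx.1, ?_⟩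
      by_contra hcon
      exact hx.2 hcon
    refine ⟨h1, ?_⟩
    have hW : REPred fun j => j ∈ {j | tw d j ∈ U e} := by
      refine exN (p := fun (j : ℕ) n => ∃ s, wst (List Bool) e s (seg (tw d j) n) = true) ?_
      refine exN (p := fun (x : ℕ × ℕ) s =>
        wst (List Bool) e s (seg (tw d x.1) x.2) = true) (of_bool ?_)
      have h2 : Computable fun x : (ℕ × ℕ) × ℕ => seg (tw d x.1.1) x.1.2 :=
        twseg_comp hz (by fun_prop) (by fun_prop)
      exact wst_comp.comp (g := fun x : (ℕ × ℕ) × ℕ => ((e, x.2), seg (tw d x.1.1) x.1.2))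
        (by fun_prop)
    rcases hcoh _ hW with h2 | h2
    · left
      refine (h1.union (h2.image (tw d))).subset ?_
      rintro x ⟨hx1, hx2⟩
      have hx3 : x ∈ U e := by
        by_contra hcon
        exact hx2 hcon
      rcases hx1 with hx1 | ⟨s, hs, rfl⟩ | ⟨j, hj, rfl⟩
      · left; exact ⟨Or.inl hx1, hx2⟩
      · left; exact ⟨Or.inr (Or.inl ⟨s, hs, rfl⟩), hx2⟩
      · right; exact ⟨j, ⟨hj, hx3⟩, rfl⟩
    · right
      refine (h2.image (tw d)).subset ?_
      rintro x ⟨hx1, hx2⟩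
      rcases hXP hx1 with hx3 | ⟨s, hs, rfl⟩ | ⟨j, hj, rfl⟩
      · exact absurd (Or.inl hx3) hx2
      · exact absurd (Or.inr (Or.inl ⟨s, hs, rfl⟩)) hx2
      · exact ⟨j, ⟨hj, fun h3 => hx1 h3⟩, rfl⟩

include hC hCre in
theorem finiteStar_cls (hfc : Computable f) (hz : Computable fun p : ℕ × ℕ => d.z p.1 p.2)
    (hcoh : ∀ W : Set ℕ, REPred (· ∈ W) → (C ∩ W).Finite ∨ (C \ W).Finite) :
    FiniteStar (cls d hf C) := by
  refine ⟨{∅, cls d hf ∅, cls d hf C}, by simp, ?_, ?_⟩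
  · rintro Y (rfl | rfl | rfl)
    · exact ⟨isPi01_bot, Set.empty_subset _⟩
    · exact ⟨isPi01_empty d hf hfc hz, cls_empty_subset d hf⟩
    · exact ⟨isPi01_cls d hf hC hfc hz hCre, subset_rfl⟩
  · intro X hX hXP
    rcases trichotomy d hf hC hz hcoh X hX hXP with h | ⟨h1, h2 | h2⟩
    · refine ⟨∅, by simp, ?_⟩
      simpa [Set.symmDiff_def] using h
    · refine ⟨cls d hf C, by simp, ?_⟩
      rw [Set.symmDiff_def, Set.sdiff_eq_empty.2 hXP, Set.empty_union]
      exact h2
    · refine ⟨cls d hf ∅, by simp, ?_⟩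
      rw [Set.symmDiff_def]
      exact h2.union h1

theorem twins_infinite (hCinf : C.Infinite) : (cls d hf C \ cls d hf ∅).Infinite := by
  refine Set.Infinite.mono (s := tw d '' C) ?_ (hCinf.image (tw_injective d).injOn)
  rintro _ ⟨j, hj, rfl⟩
  refine ⟨Or.inr (Or.inr ⟨j, hj, rfl⟩), ?_⟩
  have h1 := tw_self d j
  rintro (h | ⟨s, hs, h⟩ | ⟨i, hi, -⟩)
  · rw [h, d.lim_odd] at h1; simp at h1
  · rw [h, d.z_odd] at h1; simp at h1
  · simp at hi

include hC in
theorem not_booleanStar_cls (hfc : Computable f)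
    (hz : Computable fun p : ℕ × ℕ => d.z p.1 p.2)
    (hcoh : ∀ W : Set ℕ, REPred (· ∈ W) → (C ∩ W).Finite ∨ (C \ W).Finite)
    (hCinf : C.Infinite) : ¬ BooleanStar (cls d hf C) := by
  intro h
  obtain ⟨Y, hY, hYP, h1, h2⟩ := h (cls d hf ∅) (isPi01_empty d hf hfc hz)
    (cls_empty_subset d hf)
  rcases trichotomy d hf hC hz hcoh Y hY hYP with h3 | ⟨h3, -⟩
  · apply twins_infinite d hf hCinf
    refine (h2.union h3).subset ?_
    rintro x ⟨hx1, hx2⟩
    by_cases hx3 : x ∈ Y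
    · right; exact hx3
    · left; exact ⟨hx1, fun h => h.elim hx2 hx3⟩
  · apply cls_infinite d hf (C := ∅)
    refine (h1.union h3).subset ?_
    intro x hx
    by_cases hx3 : x ∈ Y
    · left; exact ⟨hx, hx3⟩
    · right; exact ⟨hx, hx3⟩

end cohesive

section dsum

/-- Prepend a bit. -/
def cns (b : Bool) (x : ℕ → Bool) : ℕ → Bool := fun n => Nat.casesOn n b x

/-- Remove the first bit. -/
def tl (x : ℕ → Bool) : ℕ → Bool := fun n => x (n + 1)

theorem cns_tl (x : ℕ → Bool) : cns (x 0) (tl x) = x := by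
  funext n; cases n <;> rfl

theorem cns_zero (b : Bool) (x : ℕ → Bool) : cns b x 0 = b := rfl

theorem tl_cns (b : Bool) (x : ℕ → Bool) : tl (cns b x) = x := rfl

theorem cns_injective (b : Bool) : Function.Injective (cns b) := by
  intro x y h
  have := congrArg tl h
  rwa [tl_cns, tl_cns] at this

theorem seg_cns (x : ℕ → Bool) (n : ℕ) : seg x (n + 1) = x 0 :: seg (tl x) n := by
  apply List.ext_getElem?
  intro i
  cases i with
  | zero => rw [seg_getElem? _ (by omega)]; rfl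
  | succ i =>
    rw [List.getElem?_cons_succ]
    by_cases hi : i < n
    · rw [seg_getElem? _ (by omega), seg_getElem? _ hi]; rfl
    · rw [List.getElem?_eq_none (by rw [seg_length]; omega),
        List.getElem?_eq_none (by rw [seg_length]; omega)]

/-- The direct sum of two classes. -/
def dsum (P Q : Set (ℕ → Bool)) : Set (ℕ → Bool) :=
  {x | (x 0 = false ∧ tl x ∈ P) ∨ (x 0 = true ∧ tl x ∈ Q)}

/-- The part of a class in one of the two halves. -/
def part' (b : Bool) (X : Set (ℕ → Bool)) : Set (ℕ → Bool) := {y | cns b y ∈ X}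

variable {P Q : Set (ℕ → Bool)}

theorem isPi01_dsum (hP : IsPi01 P) (hQ : IsPi01 Q) : IsPi01 (dsum P Q) := by
  rw [isPi01_iff] at *
  obtain ⟨W, hW, rfl⟩ := hP
  obtain ⟨V, hV, rfl⟩ := hQ
  refine ⟨{σ | ∃ τ, (σ = false :: τ ∧ τ ∈ W) ∨ (σ = true :: τ ∧ τ ∈ V)}, ?_, ?_⟩
  · refine RE.ex (p := fun (σ τ : List Bool) =>
      (σ = false :: τ ∧ τ ∈ W) ∨ (σ = true :: τ ∧ τ ∈ V)) ?_
    refine RE.or (RE.and (RE.eq (by fun_prop) (by fun_prop)) (hW.comp (by fun_prop)))
      (RE.and (RE.eq (by fun_prop) (by fun_prop)) (hV.comp (by fun_prop)))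
  · ext x
    simp only [dsum, Set.mem_ofPred_eq]
    constructor
    · rintro (⟨h1, h2⟩ | ⟨h1, h2⟩) n ⟨τ, h3 | h3⟩
      · cases n with
        | zero => simp [seg] at h3
        | succ n =>
          rw [seg_cns, h1] at h3
          have := (List.cons.inj h3.1).2
          exact h2 n (this ▸ h3.2)
      · cases n with
        | zero => simp [seg] at h3
        | succ n =>
          rw [seg_cns, h1] at h3
          have := (List.cons.inj h3.1).1
          simp at this
      · cases n with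
        | zero => simp [seg] at h3
        | succ n =>
          rw [seg_cns, h1] at h3
          have := (List.cons.inj h3.1).1
          simp at this
      · cases n with
        | zero => simp [seg] at h3
        | succ n =>
          rw [seg_cns, h1] at h3
          have := (List.cons.inj h3.1).2
          exact h2 n (this ▸ h3.2)
    · intro h
      rcases hx : x 0 with _ | _
      · left
        refine ⟨rfl, fun n hn => h (n + 1) ⟨_, Or.inl ⟨?_, hn⟩⟩⟩
        rw [seg_cns, hx]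
      · right
        refine ⟨rfl, fun n hn => h (n + 1) ⟨_, Or.inr ⟨?_, hn⟩⟩⟩
        rw [seg_cns, hx]

theorem isPi01_part {X : Set (ℕ → Bool)} (hX : IsPi01 X) (b : Bool) : IsPi01 (part' b X) := by
  rw [isPi01_iff] at *
  obtain ⟨W, hW, rfl⟩ := hX
  refine ⟨{σ | b :: σ ∈ W ∨ ([] : List Bool) ∈ W}, ?_, ?_⟩
  · exact RE.or (hW.comp (by fun_prop)) (RE.const _)
  · ext y
    simp only [part', Set.mem_ofPred_eq, not_or]
    constructor
    · intro h n
      have h1 := h (n + 1)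
      rw [seg_cns, tl_cns, cns_zero] at h1
      exact ⟨h1, h 0⟩
    · intro h n
      cases n with
      | zero => exact (h 0).2
      | succ n => rw [seg_cns, tl_cns, cns_zero]; exact (h n).1

theorem dsum_part {X : Set (ℕ → Bool)} : dsum (part' false X) (part' true X) = X := by
  ext x
  simp only [dsum, part', Set.mem_ofPred_eq]
  constructor
  · rintro (⟨h1, h2⟩ | ⟨h1, h2⟩)
    · rwa [← h1, cns_tl] at h2
    · rwa [← h1, cns_tl] at h2
  · intro h
    rcases hx : x 0 with _ | _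
    · left; refine ⟨rfl, ?_⟩; rw [← hx, cns_tl]; exact h
    · right; refine ⟨rfl, ?_⟩; rw [← hx, cns_tl]; exact h

theorem part_dsum_false : part' false (dsum P Q) = P := by
  ext y; simp [part', dsum, cns_zero, tl_cns]

theorem part_dsum_true : part' true (dsum P Q) = Q := by
  ext y; simp [part', dsum, cns_zero, tl_cns]

theorem part_subset {X : Set (ℕ → Bool)} (h : X ⊆ dsum P Q) :
    part' false X ⊆ P ∧ part' true X ⊆ Q := by
  constructor
  · intro y hy
    rw [← part_dsum_false (P := P) (Q := Q)]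
    exact h hy
  · intro y hy
    rw [← part_dsum_true (P := P) (Q := Q)]
    exact h hy

theorem finite_of_parts {X : Set (ℕ → Bool)} (h1 : (part' false X).Finite)
    (h2 : (part' true X).Finite) : X.Finite := by
  refine ((h1.image (cns false)).union (h2.image (cns true))).subset ?_
  intro x hx
  rcases h : x 0 with _ | _
  · left; exact ⟨tl x, by show cns false (tl x) ∈ X; rw [← h, cns_tl]; exact hx,
      by rw [← h, cns_tl]⟩
  · right; exact ⟨tl x, by show cns true (tl x) ∈ X; rw [← h, cns_tl]; exact hx,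
      by rw [← h, cns_tl]⟩

theorem part_finite {X : Set (ℕ → Bool)} (h : X.Finite) (b : Bool) : (part' b X).Finite :=
  h.preimage (cns_injective b).injOn

theorem part_symmDiff (b : Bool) (X Y : Set (ℕ → Bool)) :
    part' b (symmDiff X Y) = symmDiff (part' b X) (part' b Y) := rfl

theorem finiteStar_dsum (hP : FiniteStar P) (hQ : FiniteStar Q) : FiniteStar (dsum P Q) := by
  obtain ⟨S, hS, hS1, hS2⟩ := hP
  obtain ⟨R, hR, hR1, hR2⟩ := hQ
  refine ⟨Set.image2 dsum S R, hS.image2 _ hR, ?_, ?_⟩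
  · rintro _ ⟨Y, hY, Z, hZ, rfl⟩
    refine ⟨isPi01_dsum (hS1 Y hY).1 (hR1 Z hZ).1, ?_⟩
    rintro x (⟨h1, h2⟩ | ⟨h1, h2⟩)
    · exact Or.inl ⟨h1, (hS1 Y hY).2 h2⟩
    · exact Or.inr ⟨h1, (hR1 Z hZ).2 h2⟩
  · intro X hX hXP
    obtain ⟨h1, h2⟩ := part_subset hXP
    obtain ⟨Y, hY, hY2⟩ := hS2 _ (isPi01_part hX false) h1
    obtain ⟨Z, hZ, hZ2⟩ := hR2 _ (isPi01_part hX true) h2
    refine ⟨_, ⟨Y, hY, Z, hZ, rfl⟩, finite_of_parts ?_ ?_⟩
    · rw [part_symmDiff, part_dsum_false]; exact hY2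
    · rw [part_symmDiff, part_dsum_true]; exact hZ2

theorem not_booleanStar_dsum (hQ : ¬ BooleanStar Q) : ¬ BooleanStar (dsum P Q) := by
  intro h
  apply hQ
  intro X hX hXQ
  obtain ⟨Y, hY, hYP, h1, h2⟩ := h (dsum ∅ X) (isPi01_dsum isPi01_bot hX) (by
    rintro x (⟨h1, h2⟩ | ⟨h1, h2⟩)
    · simp at h2
    · exact Or.inr ⟨h1, hXQ h2⟩)
  refine ⟨part' true Y, isPi01_part hY true, (part_subset hYP).2, ?_, ?_⟩
  · have h3 := part_finite h1 true
    have h4 : part' true (dsum ∅ X ∩ Y) = X ∩ part' true Y := by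
      show part' true (dsum ∅ X) ∩ part' true Y = _
      rw [part_dsum_true]
    rwa [h4] at h3
  · have h3 := part_finite h2 true
    have h4 : part' true (dsum P Q \ (dsum ∅ X ∪ Y)) = Q \ (X ∪ part' true Y) := by
      show part' true (dsum P Q) \ (part' true (dsum ∅ X) ∪ part' true Y) = _
      rw [part_dsum_true, part_dsum_true]
    rwa [h4] at h3

theorem cons_mem_ext_false {τ : List Bool} : false :: τ ∈ Ext (dsum P Q) ↔ τ ∈ Ext P := by
  constructor
  · rintro ⟨x, hx, h⟩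
    rw [List.length_cons, seg_cns] at h
    obtain ⟨h1, h2⟩ := List.cons.inj h
    rcases hx with ⟨-, h3⟩ | ⟨h3, -⟩
    · exact ⟨tl x, h3, h2⟩
    · rw [h1] at h3; simp at h3
  · rintro ⟨y, hy, h⟩
    refine ⟨cns false y, Or.inl ⟨rfl, hy⟩, ?_⟩
    rw [List.length_cons, seg_cns, tl_cns, cns_zero, h]

theorem cons_mem_ext_true {τ : List Bool} : true :: τ ∈ Ext (dsum P Q) ↔ τ ∈ Ext Q := by
  constructor
  · rintro ⟨x, hx, h⟩
    rw [List.length_cons, seg_cns] at h
    obtain ⟨h1, h2⟩ := List.cons.inj h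
    rcases hx with ⟨h3, -⟩ | ⟨-, h3⟩
    · rw [h1] at h3; simp at h3
    · exact ⟨tl x, h3, h2⟩
  · rintro ⟨y, hy, h⟩
    refine ⟨cns true y, Or.inr ⟨rfl, hy⟩, ?_⟩
    rw [List.length_cons, seg_cns, tl_cns, cns_zero, h]

theorem ext_dsum_rein {B : Set ℕ} (h1 : REIn B fun σ => σ ∈ Ext P)
    (h2 : REIn B fun σ => σ ∈ Ext Q) : REIn B fun σ => σ ∈ Ext (dsum P Q) := by
  have h3 : REIn B fun σ : List Bool => (σ = [] ∧ ([] : List Bool) ∈ Ext (dsum P Q)) ∨
      ∃ τ, (σ = false :: τ ∧ τ ∈ Ext P) ∨ (σ = true :: τ ∧ τ ∈ Ext Q) := by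
    refine REIn.or (REIn.of_re (RE.and (RE.eq (by fun_prop) (by fun_prop)) (RE.const _))) ?_
    refine REIn.ex (S := fun (σ τ : List Bool) =>
      (σ = false :: τ ∧ τ ∈ Ext P) ∨ (σ = true :: τ ∧ τ ∈ Ext Q)) ?_
    refine REIn.or (REIn.and (REIn.of_re (RE.eq (by fun_prop) (by fun_prop)))
      (h1.comp (by fun_prop))) (REIn.and (REIn.of_re (RE.eq (by fun_prop) (by fun_prop)))
      (h2.comp (by fun_prop)))
  refine h3.of_eq fun σ => ?_
  constructor
  · rintro (⟨rfl, h⟩ | ⟨τ, ⟨rfl, h⟩ | ⟨rfl, h⟩⟩)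
    · exact h
    · exact cons_mem_ext_false.2 h
    · exact cons_mem_ext_true.2 h
  · intro h
    cases σ with
    | nil => exact Or.inl ⟨rfl, h⟩
    | cons b τ =>
      cases b
      · exact Or.inr ⟨τ, Or.inl ⟨rfl, cons_mem_ext_false.1 h⟩⟩
      · exact Or.inr ⟨τ, Or.inr ⟨rfl, cons_mem_ext_true.1 h⟩⟩

end dsum

end Pool.Agent.Helper446.Star
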