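import Pool.Agent.Helper446.Comp

/-!
Badness values of states.
-/

namespace Pool.Agent.Helper446.State

open Encodable Pool.Agent.Helper446.RE

universe v

variable {V : Type v}

/-- The badness value of the `n`-state of `x` at stage `s`: binary digits, a digit `0` for
membership and `1` for non-membership, the digit for `w 0` being the most significant. -/
def bv (w : ℕ → ℕ → V → Bool) (s : ℕ) : ℕ → V → ℕ
  | 0, _ => 0
  | n + 1, x => 2 * bv w s n x + (if w n s x = true then 0 else 1)

variable (w : ℕ → ℕ → V → Bool) (s : ℕ)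

theorem bv_lt (n : ℕ) (x : V) : bv w s n x < 2 ^ n := by
  induction n with
  | zero => simp [bv]
  | succ n ih =>
    rw [bv, pow_succ]
    split_ifs <;> omega

/-- More memberships give a smaller badness value. -/
theorem bv_le_of_imp {s t : ℕ} {x y : V} (h : ∀ e, w e s x = true → w e t y = true) (n : ℕ) :
    bv w t n y ≤ bv w s n x := by
  induction n with
  | zero => simp [bv]
  | succ n ih =>
    rw [bv, bv]
    have := h n
    split_ifs with h1 h2 h2
    · omega
    · omega
    · exact absurd (this h2) h1
    · omega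

theorem bv_mono (hw : ∀ e s x, w e s x = true → w e (s + 1) x = true) (n : ℕ) (x : V) :
    bv w (s + 1) n x ≤ bv w s n x := bv_le_of_imp w (fun e h => hw e s x h) n

theorem bv_mono_le (hw : ∀ e s x, w e s x = true → w e (s + 1) x = true) (n : ℕ) (x : V)
    {s t : ℕ} (hst : s ≤ t) : bv w t n x ≤ bv w s n x := by
  induction t, hst using Nat.le_induction with
  | base => exact le_rfl
  | succ t _ ih => exact (bv_mono w t hw n x).trans ih

/-- A smaller badness value remains smaller (or equal) when only the first digits are kept. -/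
theorem bv_le_of_le {s t : ℕ} {x y : V} {n m : ℕ} (hnm : n ≤ m)
    (h : bv w t m y ≤ bv w s m x) : bv w t n y ≤ bv w s n x := by
  induction m, hnm using Nat.le_induction with
  | base => exact h
  | succ m _ ih =>
    apply ih
    rw [bv, bv] at h
    split_ifs at h <;> omega

/-- The last digit. -/
theorem bv_mod (e : ℕ) (x : V) : w e s x = true ↔ bv w s (e + 1) x % 2 = 0 := by
  rw [bv]
  split_ifs with h
  · simp [h]
  · simp [h]

theorem bv_comp [Primcodable V] {w : ℕ → ℕ → V → Bool}
    (hw : Computable fun p : (ℕ × ℕ) × V => w p.1.1 p.1.2 p.2) :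
    Computable fun p : (ℕ × ℕ) × V => bv w p.1.1 p.1.2 p.2 := by
  classical
  have h := Computable.nat_rec (f := fun p : (ℕ × ℕ) × V => p.1.2) (g := fun _ => 0)
    (h := fun p (q : ℕ × ℕ) => 2 * q.2 + (if w q.1 p.1.1 p.2 = true then 0 else 1))
    (by fun_prop) (by fun_prop) (by
      unfold Computable₂
      have h1 : Computable fun x : ((ℕ × ℕ) × V) × (ℕ × ℕ) =>
          w x.2.1 x.1.1.1 x.1.2 :=
        hw.comp (g := fun x : ((ℕ × ℕ) × V) × (ℕ × ℕ) => ((x.2.1, x.1.1.1), x.1.2))
          (by fun_prop)
      have h2 : Computable fun x : ((ℕ × ℕ) × V) × (ℕ × ℕ) =>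
          (if w x.2.1 x.1.1.1 x.1.2 = true then 0 else 1 : ℕ) :=
        cite (cp_eq h1 (by fun_prop)) (by fun_prop) (by fun_prop)
      fun_prop)
  refine h.of_eq fun p => ?_
  generalize p.1.2 = n
  induction n with
  | zero => rfl
  | succ n ih => rw [bv, ← ih]

end Pool.Agent.Helper446.State
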