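import Pool.Agent.Helper446.Cls

/-!
The classes given by the tree of points.
-/

namespace Pool.Agent.Helper446.Thin

open Encodable Pool.Agent.Helper446.RE Pool.Agent.Helper446.Defs Pool.Agent.Helper446.Tree
  Pool.Agent.Helper446.Oracle Pool.Agent.Helper446.Cls

variable {f : ℕ → ℕ} (d : Data f)

/-- The twin of the `j`-th point. -/
def tw (j : ℕ) : ℕ → Bool := Function.update (d.z j) (2 * j + 1) true

theorem tw_self (j : ℕ) : tw d j (2 * j + 1) = true := Function.update_self _ _ _

theorem tw_of_ne {j i : ℕ} (h : i ≠ 2 * j + 1) : tw d j i = d.z j i :=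
  Function.update_of_ne h _ _

theorem tw_seg {j n : ℕ} (h : n ≤ 2 * j + 1) : seg (tw d j) n = seg (d.z j) n :=
  seg_eq_iff.2 fun _ hi => tw_of_ne d (by omega)

theorem tw_odd {j i : ℕ} (h : tw d j (2 * i + 1) = true) : i = j := by
  by_contra hne
  rw [tw_of_ne d (by omega), d.z_odd] at h
  simp at h

theorem tw_injective : Function.Injective (tw d) := by
  intro i j h
  have h1 := tw_self d i
  rw [h] at h1
  exact tw_odd d h1

theorem z_injective : Function.Injective d.z := by
  have key : ∀ s t, s < t → d.z s ≠ d.z t := by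
    intro s t hst h
    have h1 := d.z_self (t := t) (by omega)
    rw [← h] at h1
    have := d.z_bound s _ h1
    omega
  intro s t h
  rcases Nat.lt_trichotomy s t with h1 | h1 | h1
  · exact absurd h (key s t h1)
  · exact h1
  · exact absurd h.symm (key t s h1)

/-- The extendible nodes of the class of all true points. -/
def ExQ (f : ℕ → ℕ) (d : Data f) (σ : List Bool) : Prop := ∃ s, Tr f s ∧ seg (d.z s) σ.length = σ

theorem exQ_prefix {σ τ : List Bool} (h : σ <+: τ) (hτ : ExQ f d τ) : ExQ f d σ := by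
  obtain ⟨s, hs, h1⟩ := hτ
  refine ⟨s, hs, ?_⟩
  rw [← seg_take _ h.length_le, h1]
  exact (List.prefix_iff_eq_take.1 h).symm

variable (hf : Function.Injective f)

include hf in
theorem not_exQ_iff (σ : List Bool) : ¬ ExQ f d σ ↔ ∃ t, σ.length ≤ 2 * t + 2 ∧
    ∀ s < t + 1, ¬ Al f s t ∨ seg (d.z s) σ.length ≠ σ := by
  constructor
  · intro h
    obtain ⟨t, ht, htr⟩ := exists_true hf σ.length
    refine ⟨t, by omega, fun s hs => ?_⟩
    by_contra hcon
    push Not at hcon
    exact h ⟨s, Tr.of_al (by omega) hcon.1 htr, hcon.2⟩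
  · rintro ⟨t, hlen, ht⟩ ⟨s, hs, hσ⟩
    rcases Nat.lt_or_ge s (t + 1) with h1 | h1
    · rcases ht s h1 with h2 | h2
      · exact h2 (Al.of_true hs t)
      · exact h2 hσ
    · obtain ⟨s', hs', hal, hag⟩ := d.anc t s (by omega)
      rcases ht s' (by omega) with h2 | h2
      · exact h2 hal
      · apply h2
        have h3 : seg (d.z s') σ.length = seg (d.z s) σ.length :=
          seg_eq_iff.2 fun i hi => (hag i (by omega)).symm
        rw [h3]; exact hσ

variable {d}

theorem zseg_comp {α : Type*} [Primcodable α] (hz : Computable fun p : ℕ × ℕ => d.z p.1 p.2)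
    {g k : α → ℕ} (hg : Computable g) (hk : Computable k) :
    Computable fun a => seg (d.z (g a)) (k a) := by
  have h1 : REPred fun x : (ℕ × ℕ) × List Bool => x.2.length = x.1.2 ∧
      ∀ i < x.1.2, x.2[i]? = some (d.z x.1.1 i) := by
    refine RE.and (RE.eq (by fun_prop) (by fun_prop)) ?_
    refine all_lt (p := fun (x : (ℕ × ℕ) × List Bool) i => x.2[i]? = some (d.z x.1.1 i)) ?_
      (by fun_prop)
    have hz' : Computable fun y : ((ℕ × ℕ) × List Bool) × ℕ => d.z y.1.1.1 y.2 :=
      hz.comp (g := fun y : ((ℕ × ℕ) × List Bool) × ℕ => (y.1.1.1, y.2)) (by fun_prop)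
    exact RE.eq (by fun_prop) (by fun_prop)
  have h2 : Computable fun p : ℕ × ℕ => seg (d.z p.1) p.2 := by
    refine computable_of_graph (h1.of_eq fun x => ?_)
    constructor
    · rintro ⟨h3, h4⟩
      apply List.ext_getElem?
      intro i
      by_cases hi : i < x.1.2
      · rw [seg_getElem? _ hi, h4 i hi]
      · rw [List.getElem?_eq_none (by rw [seg_length]; omega),
          List.getElem?_eq_none (by omega)]
    · intro h
      rw [← h]
      exact ⟨seg_length _ _, fun i hi => seg_getElem? _ hi⟩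
  exact h2.comp (g := fun a => (g a, k a)) (by fun_prop)

theorem twseg_comp {α : Type*} [Primcodable α] (hz : Computable fun p : ℕ × ℕ => d.z p.1 p.2)
    {g k : α → ℕ} (hg : Computable g) (hk : Computable k) :
    Computable fun a => seg (tw d (g a)) (k a) := by
  have htw : Computable fun p : ℕ × ℕ => tw d p.1 p.2 := by
    have h3 : Computable fun p : ℕ × ℕ => if p.2 = 2 * p.1 + 1 then true else d.z p.1 p.2 :=
      cite (cp_eq (by fun_prop) (by fun_prop)) (by fun_prop) hz
    refine h3.of_eq fun p => ?_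
    split_ifs with h
    · rw [h, tw_self]
    · rw [tw_of_ne d h]
  have h1 : REPred fun x : (ℕ × ℕ) × List Bool => x.2.length = x.1.2 ∧
      ∀ i < x.1.2, x.2[i]? = some (tw d x.1.1 i) := by
    refine RE.and (RE.eq (by fun_prop) (by fun_prop)) ?_
    refine all_lt (p := fun (x : (ℕ × ℕ) × List Bool) i => x.2[i]? = some (tw d x.1.1 i)) ?_
      (by fun_prop)
    have hz' : Computable fun y : ((ℕ × ℕ) × List Bool) × ℕ => tw d y.1.1.1 y.2 :=
      htw.comp (g := fun y : ((ℕ × ℕ) × List Bool) × ℕ => (y.1.1.1, y.2)) (by fun_prop)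
    exact RE.eq (by fun_prop) (by fun_prop)
  have h2 : Computable fun p : ℕ × ℕ => seg (tw d p.1) p.2 := by
    refine computable_of_graph (h1.of_eq fun x => ?_)
    constructor
    · rintro ⟨h3, h4⟩
      apply List.ext_getElem?
      intro i
      by_cases hi : i < x.1.2
      · rw [seg_getElem? _ hi, h4 i hi]
      · rw [List.getElem?_eq_none (by rw [seg_length]; omega),
          List.getElem?_eq_none (by omega)]
    · intro h
      rw [← h]
      exact ⟨seg_length _ _, fun i hi => seg_getElem? _ hi⟩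
  exact h2.comp (g := fun a => (g a, k a)) (by fun_prop)

include hf in
theorem not_exQ_re (hfc : Computable f) (hz : Computable fun p : ℕ × ℕ => d.z p.1 p.2) :
    REPred fun σ => ¬ ExQ f d σ := by
  have h1 : REPred fun σ : List Bool => ∃ t, σ.length ≤ 2 * t + 2 ∧
      ∀ s < t + 1, ¬ Al f s t ∨ seg (d.z s) σ.length ≠ σ := by
    refine exN (p := fun (σ : List Bool) t => σ.length ≤ 2 * t + 2 ∧
      ∀ s < t + 1, ¬ Al f s t ∨ seg (d.z s) σ.length ≠ σ) ?_
    refine RE.and (RE.le (by fun_prop) (by fun_prop)) ?_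
    refine all_lt (p := fun (x : List Bool × ℕ) s =>
      ¬ Al f s x.2 ∨ seg (d.z s) x.1.length ≠ x.1) ?_ (by fun_prop)
    refine RE.or (al_cp hfc (by fun_prop) (by fun_prop)).not.to_re ?_
    exact RE.ne (zseg_comp hz (by fun_prop) (by fun_prop)) (by fun_prop)
  exact h1.of_eq fun σ => (not_exQ_iff d hf σ).symm

theorem exQ_rein {B : Set ℕ} (hTr : REIn B fun s => Tr f s)
    (hz : Computable fun p : ℕ × ℕ => d.z p.1 p.2) : REIn B fun σ => ExQ f d σ := by
  refine REIn.ex (S := fun (σ : List Bool) s => Tr f s ∧ seg (d.z s) σ.length = σ) ?_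
  refine REIn.and (hTr.comp (by fun_prop)) (REIn.of_re ?_)
  exact RE.eq (zseg_comp hz (by fun_prop) (by fun_prop)) (by fun_prop)

variable (d)

/-- The class given by the tree of points and a set `C` of stages. -/
def cls (C : Set ℕ) : Set (ℕ → Bool) :=
  {x | x = d.lim hf ∨ (∃ s, Tr f s ∧ x = d.z s) ∨ ∃ j ∈ C, x = tw d j}

variable {C : Set ℕ} (hC : ∀ j ∈ C, Tr f j)

theorem lim_exQ (n : ℕ) : ExQ f d (seg (d.lim hf) n) := by
  obtain ⟨T, hT⟩ := d.lim_spec hf n
  obtain ⟨t, ht, htr⟩ := exists_true hf T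
  exact ⟨t, htr, by rw [seg_length]; exact hT t ht htr⟩

theorem mem_ext_cls (σ : List Bool) : σ ∈ Ext (cls d hf C) ↔
    ExQ f d σ ∨ ∃ j ∈ C, seg (tw d j) σ.length = σ := by
  constructor
  · rintro ⟨x, rfl | ⟨s, hs, rfl⟩ | ⟨j, hj, rfl⟩, h⟩
    · left
      rw [← h]
      exact lim_exQ d hf _
    · left; exact ⟨s, hs, h⟩
    · right; exact ⟨j, hj, h⟩
  · rintro (⟨s, hs, h⟩ | ⟨j, hj, h⟩)
    · exact ⟨_, Or.inr (Or.inl ⟨s, hs, rfl⟩), h⟩
    · exact ⟨_, Or.inr (Or.inr ⟨j, hj, rfl⟩), h⟩

include hC in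
theorem not_mem_ext_cls (σ : List Bool) : σ ∉ Ext (cls d hf C) ↔
    ¬ ExQ f d σ ∧ ∀ j < σ.length, j ∉ C ∨ seg (tw d j) σ.length ≠ σ := by
  rw [mem_ext_cls, not_or]
  refine and_congr_right fun h => ?_
  push Not
  constructor
  · intro h1 j _
    by_cases hj : j ∈ C
    · exact Or.inr (h1 j hj)
    · exact Or.inl hj
  · intro h1 j hj hσ
    rcases Nat.lt_or_ge j σ.length with h2 | h2
    · rcases h1 j h2 with h3 | h3
      exacts [h3 hj, h3 hσ]
    · apply h
      refine ⟨j, hC j hj, ?_⟩
      rw [← tw_seg d (by omega)]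
      exact hσ

include hC in
theorem not_ext_re (hfc : Computable f) (hz : Computable fun p : ℕ × ℕ => d.z p.1 p.2)
    (hCre : REPred fun j => j ∉ C) : REPred fun σ => σ ∉ Ext (cls d hf C) := by
  have h1 : REPred fun σ : List Bool => ¬ ExQ f d σ ∧
      ∀ j < σ.length, j ∉ C ∨ seg (tw d j) σ.length ≠ σ := by
    refine RE.and (not_exQ_re hf hfc hz) ?_
    refine all_lt (p := fun (σ : List Bool) j => j ∉ C ∨ seg (tw d j) σ.length ≠ σ) ?_
      (by fun_prop)
    refine RE.or (hCre.comp (by fun_prop)) ?_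
    exact RE.ne (twseg_comp hz (by fun_prop) (by fun_prop)) (by fun_prop)
  exact h1.of_eq fun σ => (not_mem_ext_cls d hf hC σ).symm

theorem ext_rein {B : Set ℕ} (hTr : REIn B fun s => Tr f s)
    (hz : Computable fun p : ℕ × ℕ => d.z p.1 p.2) (hCB : REIn B fun j => j ∈ C) :
    REIn B fun σ => σ ∈ Ext (cls d hf C) := by
  have h1 : REIn B fun σ : List Bool => ExQ f d σ ∨ ∃ j, j ∈ C ∧ seg (tw d j) σ.length = σ := by
    refine REIn.or (exQ_rein hTr hz) ?_
    refine REIn.ex (S := fun (σ : List Bool) j => j ∈ C ∧ seg (tw d j) σ.length = σ) ?_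
    refine REIn.and (hCB.comp (by fun_prop)) (REIn.of_re ?_)
    exact RE.eq (twseg_comp hz (by fun_prop) (by fun_prop)) (by fun_prop)
  exact h1.of_eq fun σ => (mem_ext_cls d hf σ).symm

include hC in
/-- The class is closed. -/
theorem cls_closed (y : ℕ → Bool) (h : ∀ n, seg y n ∈ Ext (cls d hf C)) :
    y ∈ cls d hf C := by
  by_cases hodd : ∃ i, y (2 * i + 1) = true
  · obtain ⟨i, hi⟩ := hodd
    have key : ∀ n, 2 * i + 1 < n → i ∈ C ∧ seg (tw d i) n = seg y n := by
      intro n hn
      have h1 := h n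
      rw [mem_ext_cls] at h1
      rcases h1 with ⟨s, -, hs⟩ | ⟨j, hj, hs⟩
      · rw [seg_length] at hs
        have := seg_eq_iff.1 hs _ hn
        rw [hi, d.z_odd] at this
        simp at this
      · rw [seg_length] at hs
        have h2 := seg_eq_iff.1 hs _ hn
        rw [hi] at h2
        have := tw_odd d h2
        subst this
        exact ⟨hj, hs⟩
    right; right
    refine ⟨i, (key (2 * i + 2) (by omega)).1, ?_⟩
    funext k
    exact (seg_eq_iff.1 (key (2 * i + 2 + k) (by omega)).2 k (by omega)).symm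
  · push Not at hodd
    have key : ∀ n, ExQ f d (seg y n) := by
      intro n
      have h1 := h n
      rw [mem_ext_cls] at h1
      rcases h1 with h1 | ⟨j, hj, hs⟩
      · exact h1
      · rw [seg_length] at hs
        rcases Nat.lt_or_ge (2 * j + 1) n with h2 | h2
        · have := seg_eq_iff.1 hs _ h2
          rw [tw_self] at this
          exact absurd this.symm (by simp [hodd j])
        · refine ⟨j, hC j hj, ?_⟩
          rw [seg_length, ← tw_seg d h2]
          exact hs
    by_cases hy : y = d.lim hf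
    · left; exact hy
    · right; left
      by_contra hcon
      push Not at hcon
      obtain ⟨k, hk⟩ := Function.ne_iff.1 hy
      obtain ⟨T, hT⟩ := d.lim_spec hf (k + 1)
      have h2 : ∀ s, ∃ i, Tr f s → d.z s i ≠ y i := by
        intro s
        by_cases hs : Tr f s
        · obtain ⟨i, hi⟩ := Function.ne_iff.1 (Ne.symm (hcon s hs))
          exact ⟨i, fun _ => hi⟩
        · exact ⟨0, fun h => absurd h hs⟩
      choose g hg using h2
      obtain ⟨s, hs, hsy⟩ := key ((Finset.range (T + 1)).sup g + 1 + (k + 1))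
      rw [seg_length] at hsy
      rcases Nat.lt_or_ge T s with h3 | h3
      · have h4 := hT s h3 hs
        have h5 := seg_eq_iff.1 h4 k (by omega)
        have h6 := seg_eq_iff.1 hsy k (by omega)
        exact hk (h6.symm.trans h5)
      · have h4 : g s ≤ (Finset.range (T + 1)).sup g :=
          Finset.le_sup (f := g) (Finset.mem_range.2 (by omega))
        exact hg s hs (seg_eq_iff.1 hsy (g s) (by omega))

include hC in
theorem isPi01_cls (hfc : Computable f) (hz : Computable fun p : ℕ × ℕ => d.z p.1 p.2)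
    (hCre : REPred fun j => j ∉ C) : IsPi01 (cls d hf C) :=
  isPi01_of_ext (not_ext_re d hf hC hfc hz hCre) (cls_closed d hf hC)

include hC in
/-- True stages can be read off from the extendible nodes. -/
theorem tr_iff {s : ℕ} (hs : 0 < s) : Tr f s ↔ seg (d.z s) (2 * s + 1) ∈ Ext (cls d hf C) := by
  constructor
  · intro h
    rw [mem_ext_cls]
    exact Or.inl ⟨s, h, by rw [seg_length]⟩
  · intro h
    rw [mem_ext_cls, seg_length] at h
    have hself := d.z_self hs
    have h1 : ∃ r, Tr f r ∧ d.z r (2 * s) = true := by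
      rcases h with ⟨r, hr, h1⟩ | ⟨j, hj, h1⟩
      · rw [seg_length] at h1
        exact ⟨r, hr, by rw [seg_eq_iff.1 h1 (2 * s) (by omega)]; exact hself⟩
      · refine ⟨j, hC j hj, ?_⟩
        rw [← tw_of_ne d (j := j) (i := 2 * s) (by omega), seg_eq_iff.1 h1 (2 * s) (by omega)]
        exact hself
    obtain ⟨r, hr, h2⟩ := h1
    obtain ⟨h3, h4⟩ := d.z_alive r s h2
    exact Tr.of_al h3 h4 hr

/-- The set `C` can be read off from the extendible nodes. -/
theorem c_iff {j : ℕ} : j ∈ C ↔ seg (tw d j) (2 * j + 2) ∈ Ext (cls d hf C) := by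
  constructor
  · intro h
    exact seg_mem_ext (Or.inr (Or.inr ⟨j, h, rfl⟩)) _
  · intro h
    rw [mem_ext_cls] at h
    rcases h with ⟨s, -, hs⟩ | ⟨i, hi, hs⟩
    · rw [seg_length] at hs
      have := seg_eq_iff.1 hs (2 * j + 1) (by omega)
      rw [tw_self, d.z_odd] at this
      simp at this
    · rw [seg_length] at hs
      have := seg_eq_iff.1 hs (2 * j + 1) (by omega)
      rw [tw_self] at this
      have := tw_odd d this
      subst this
      exact hi

theorem true_infinite {f : ℕ → ℕ} (hf : Function.Injective f) : {s | Tr f s}.Infinite := by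
  rw [Set.infinite_iff_exists_gt]
  · intro a
    obtain ⟨t, ht, htr⟩ := exists_true hf a
    exact ⟨t, htr, ht⟩

theorem cls_infinite : (cls d hf C).Infinite := by
  refine Set.Infinite.mono (s := d.z '' {s | Tr f s}) ?_ ?_
  · rintro _ ⟨s, hs, rfl⟩
    exact Or.inr (Or.inl ⟨s, hs, rfl⟩)
  · exact (true_infinite hf).image (z_injective d).injOn

include hC in
/-- If the limit is in a c.e. open set then almost all of the class is in it. -/
theorem finite_of_lim_mem {e : ℕ} (he : d.lim hf ∈ U e) : {x ∈ cls d hf C | x ∉ U e}.Finite := by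
  obtain ⟨n, s, hs⟩ := he
  obtain ⟨T, hT⟩ := d.lim_spec hf n
  refine ((((Set.finite_Iio (T + n + 1)).image d.z).union
    ((Set.finite_Iio (T + n + 1)).image (tw d)))).subset ?_
  rintro x ⟨rfl | ⟨t, ht, rfl⟩ | ⟨j, hj, rfl⟩, hx⟩
  · exact absurd ⟨n, s, hs⟩ hx
  · left
    refine ⟨t, ?_, rfl⟩
    by_contra hcon
    rw [Set.mem_Iio] at hcon
    apply hx
    exact ⟨n, s, by rw [hT t (by omega) ht]; exact hs⟩
  · right
    refine ⟨j, ?_, rfl⟩
    by_contra hcon
    rw [Set.mem_Iio] at hcon
    apply hx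
    refine ⟨n, s, ?_⟩
    rw [tw_seg d (by omega), hT j (by omega) (hC j hj)]
    exact hs

/-- If the limit is not in a c.e. open set then almost all true points are not in it. -/
theorem finite_of_lim_not_mem {e : ℕ} (he : d.lim hf ∉ U e) :
    {x ∈ cls d hf ∅ | x ∈ U e}.Finite := by
  obtain ⟨T, hT⟩ := (d.lim_dich hf e).resolve_left he
  refine ((Set.finite_Iio (T + 1)).image d.z).subset ?_
  rintro x ⟨rfl | ⟨t, ht, rfl⟩ | ⟨j, hj, rfl⟩, hx⟩
  · exact absurd hx he
  · refine ⟨t, ?_, rfl⟩
    by_contra hcon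
    rw [Set.mem_Iio] at hcon
    exact hT t (by omega) ht hx
  · simp at hj

theorem cls_empty_subset : cls d hf ∅ ⊆ cls d hf C := by
  rintro x (rfl | ⟨t, ht, rfl⟩ | ⟨j, hj, rfl⟩)
  · exact Or.inl rfl
  · exact Or.inr (Or.inl ⟨t, ht, rfl⟩)
  · simp at hj

/-- Thinness in the case without twins. -/
theorem thin_cls (X : Set (ℕ → Bool)) (hX : IsPi01 X) (hXP : X ⊆ cls d hf ∅) :
    (d.lim hf ∉ X ∧ X.Finite) ∨ (d.lim hf ∈ X ∧ (cls d hf ∅ \ X).Finite) := by
  obtain ⟨e, rfl⟩ := exists_index hX
  by_cases h : d.lim hf ∈ U e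
  · left
    refine ⟨fun h1 => h1 h, ?_⟩
    refine (finite_of_lim_mem d hf (C := ∅) (by simp) h).subset fun x hx => ⟨hXP hx, hx⟩
  · right
    refine ⟨h, ?_⟩
    refine (finite_of_lim_not_mem d hf h).subset fun x hx => ⟨hx.1, ?_⟩
    by_contra hcon
    exact hx.2 hcon

end Pool.Agent.Helper446.Thin
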