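import Pool.Agent.Helper446.State
import Pool.Agent.Helper446.Oracle

/-!
A computable tree of points of Cantor space, indexed by the stages of an enumeration `f`.
-/

namespace Pool.Agent.Helper446.Tree

open Encodable Pool.Agent.Helper446.RE Pool.Agent.Helper446.State Pool.Agent.Helper446.Defs

@[simp] theorem seg_length (x : ℕ → Bool) (n : ℕ) : (seg x n).length = n := by
  simp [seg]

theorem seg_getElem? (x : ℕ → Bool) {n i : ℕ} (h : i < n) : (seg x n)[i]? = some (x i) := by
  simp [seg, h]

theorem seg_eq_iff {x y : ℕ → Bool} {n : ℕ} : seg x n = seg y n ↔ ∀ i < n, x i = y i := by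
  constructor
  · intro h i hi
    have h1 := seg_getElem? x hi
    rw [h, seg_getElem? y hi] at h1
    simpa using h1.symm
  · intro h
    unfold seg
    apply List.map_congr_left
    intro i hi
    exact h i (List.mem_range.1 hi)

theorem seg_take (x : ℕ → Bool) {n m : ℕ} (h : m ≤ n) : (seg x n).take m = seg x m := by
  unfold seg
  rw [← List.map_take, List.take_range, Nat.min_eq_left h]

theorem seg_mono_eq {x y : ℕ → Bool} {n m : ℕ} (h : seg x n = seg y n) (hm : m ≤ n) :
    seg x m = seg y m := by
  rw [← seg_take x hm, ← seg_take y hm, h]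

theorem seg_zero (x : ℕ → Bool) : seg x 0 = [] := rfl

theorem seg_succ (x : ℕ → Bool) (n : ℕ) : seg x (n + 1) = seg x n ++ [x n] := by
  simp [seg, List.range_succ]

/-- The `e`-th c.e. set of strings has, by stage `s`, listed an initial segment of `σ`. -/
def hit (e s : ℕ) (σ : List Bool) : Bool :=
  exB (fun k => wst (List Bool) e s (σ.take k)) (σ.length + 1)

theorem hit_iff {e s : ℕ} {σ : List Bool} :
    hit e s σ = true ↔ ∃ k ≤ σ.length, wst (List Bool) e s (σ.take k) = true := by
  unfold hit
  rw [exB_iff]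
  constructor
  · rintro ⟨k, hk, h⟩; exact ⟨k, by omega, h⟩
  · rintro ⟨k, hk, h⟩; exact ⟨k, by omega, h⟩

theorem hit_seg_iff {e s n : ℕ} {x : ℕ → Bool} :
    hit e s (seg x n) = true ↔ ∃ k ≤ n, wst (List Bool) e s (seg x k) = true := by
  rw [hit_iff, seg_length]
  constructor
  · rintro ⟨k, hk, h⟩; exact ⟨k, hk, by rwa [seg_take x hk] at h⟩
  · rintro ⟨k, hk, h⟩; exact ⟨k, hk, by rwa [seg_take x hk]⟩

theorem hit_comp : Computable fun p : (ℕ × ℕ) × List Bool => hit p.1.1 p.1.2 p.2 := by
  unfold hit
  refine computable_exB (q := fun (p : (ℕ × ℕ) × List Bool) k =>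
    wst (List Bool) p.1.1 p.1.2 (p.2.take k)) ?_ (by fun_prop)
  have h1 : Computable fun x : ((ℕ × ℕ) × List Bool) × ℕ => x.1.2.take x.2 :=
    Primrec.list_take.to_comp.comp (by fun_prop) (by fun_prop)
  exact wst_comp.comp (g := fun x : ((ℕ × ℕ) × List Bool) × ℕ => (x.1.1, x.1.2.take x.2))
    (by fun_prop)

/-- `s` is alive at stage `t`. -/
def Al (f : ℕ → ℕ) (s t : ℕ) : Prop := ∀ r, s < r → r ≤ t → f s < f r

/-- `s` is a true stage. -/
def Tr (f : ℕ → ℕ) (s : ℕ) : Prop := ∀ r, s < r → f s < f r

/-- The tree of points. -/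
structure Data (f : ℕ → ℕ) where
  z : ℕ → ℕ → Bool
  c : ℕ → ℕ
  z_zero : z 0 = fun _ => false
  c_lt : ∀ t, 0 < t → c t < t
  c_alive : ∀ t, 0 < t → Al f (c t) t
  c_best : ∀ t, 0 < t → ∀ s, s < t → Al f s t →
    bv hit t t (seg (z (c t)) (2 * t)) ≤ bv hit t t (seg (z s) (2 * t))
  z_succ : ∀ t, 0 < t → z t = Function.update (z (c t)) (2 * t) true

/-- The `e`-th c.e. open set. -/
def U (e : ℕ) : Set (ℕ → Bool) := {x | ∃ n s, wst (List Bool) e s (seg x n) = true}

theorem exists_true {f : ℕ → ℕ} (hf : Function.Injective f) (T : ℕ) : ∃ t, T < t ∧ Tr f t := by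
  have hne : {v | ∃ r, T < r ∧ f r = v}.Nonempty := ⟨_, T + 1, by omega, rfl⟩
  obtain ⟨v, ⟨r, hr, rfl⟩, hmin⟩ := wellFounded_lt.has_min _ hne
  refine ⟨r, hr, fun q hq => ?_⟩
  have h1 : ¬ f q < f r := hmin _ ⟨q, by omega, rfl⟩
  have h2 : f q ≠ f r := fun h => by
    have := hf h
    omega
  omega

theorem Al.of_true {f : ℕ → ℕ} {s : ℕ} (h : Tr f s) (t : ℕ) : Al f s t := fun r hr _ => h r hr

theorem Al.mono {f : ℕ → ℕ} {s t u : ℕ} (h : Al f s t) (hu : u ≤ t) : Al f s u :=
  fun r hr h2 => h r hr (by omega)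

theorem Tr.of_al {f : ℕ → ℕ} {s t : ℕ} (hst : s ≤ t) (h : Al f s t) (ht : Tr f t) : Tr f s := by
  intro r hr
  by_cases h1 : r ≤ t
  · exact h r hr h1
  · rcases Nat.lt_or_ge s t with h2 | h2
    · exact (h t h2 le_rfl).trans (ht r (by omega))
    · have : s = t := by omega
      subst this
      exact ht r hr

namespace Data

variable {f : ℕ → ℕ} (d : Data f)

theorem z_bound : ∀ (t i : ℕ), d.z t i = true → i ≤ 2 * t := by
  intro t
  induction t using Nat.strong_induction_on with
  | _ t ih =>
    intro i hi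
    rcases Nat.eq_zero_or_pos t with rfl | ht
    · rw [d.z_zero] at hi; simp at hi
    · rw [d.z_succ t ht] at hi
      by_cases h1 : i = 2 * t
      · omega
      · rw [Function.update_of_ne h1] at hi
        have := ih _ (d.c_lt t ht) i hi
        have := d.c_lt t ht
        omega

theorem z_odd : ∀ (t i : ℕ), d.z t (2 * i + 1) = false := by
  intro t
  induction t using Nat.strong_induction_on with
  | _ t ih =>
    intro i
    rcases Nat.eq_zero_or_pos t with rfl | ht
    · rw [d.z_zero]
    · rw [d.z_succ t ht, Function.update_of_ne (by omega)]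
      exact ih _ (d.c_lt t ht) i

theorem z_self {t : ℕ} (ht : 0 < t) : d.z t (2 * t) = true := by
  rw [d.z_succ t ht, Function.update_self]

theorem z_parent {t i : ℕ} (ht : 0 < t) (hi : i < 2 * t) : d.z t i = d.z (d.c t) i := by
  rw [d.z_succ t ht, Function.update_of_ne (by omega)]

theorem seg_parent {t n : ℕ} (ht : 0 < t) (hn : n ≤ 2 * t) :
    seg (d.z t) n = seg (d.z (d.c t)) n :=
  seg_eq_iff.2 fun _ hi => d.z_parent ht (by omega)

theorem z_alive : ∀ (t i : ℕ), d.z t (2 * i) = true → i ≤ t ∧ Al f i t := by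
  intro t
  induction t using Nat.strong_induction_on with
  | _ t ih =>
    intro i hi
    rcases Nat.eq_zero_or_pos t with rfl | ht
    · rw [d.z_zero] at hi; simp at hi
    · by_cases h1 : i = t
      · subst h1
        exact ⟨le_rfl, fun r h2 h3 => absurd h2 (by omega)⟩
      · have hb := d.z_bound t _ hi
        rw [d.z_parent ht (by omega)] at hi
        have hc := d.c_lt t ht
        obtain ⟨h2, h3⟩ := ih _ hc i hi
        refine ⟨by omega, fun r hr hrt => ?_⟩
        by_cases h4 : r ≤ d.c t
        · exact h3 r hr h4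
        · have h5 := d.c_alive t ht r (by omega) hrt
          rcases Nat.lt_or_ge i (d.c t) with h6 | h6
          · exact (h3 _ h6 le_rfl).trans h5
          · have : i = d.c t := by omega
            rw [this]; exact h5

/-- Every point is close, at every earlier stage `t`, to a point alive at `t`. -/
theorem anc (t : ℕ) : ∀ s, t ≤ s → ∃ s', s' ≤ t ∧ Al f s' t ∧
    ∀ i < 2 * t + 2, d.z s i = d.z s' i := by
  intro s
  induction s using Nat.strong_induction_on with
  | _ s ih =>
    intro hts
    rcases Nat.lt_or_ge t s with h | h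
    · have hs : 0 < s := by omega
      have hc := d.c_lt s hs
      rcases Nat.lt_or_ge t (d.c s) with h1 | h1
      · obtain ⟨s', h2, h3, h4⟩ := ih _ hc h1.le
        refine ⟨s', h2, h3, fun i hi => ?_⟩
        rw [d.z_parent hs (by omega)]
        exact h4 i hi
      · refine ⟨d.c s, h1, (d.c_alive s hs).mono hts, fun i hi => ?_⟩
        rw [d.z_parent hs (by omega)]
    · have : s = t := by omega
      subst this
      exact ⟨s, le_rfl, fun r h1 h2 => absurd h1 (by omega), fun _ _ => rfl⟩

theorem true_parent {t : ℕ} (ht0 : 0 < t) (ht : Tr f t) : Tr f (d.c t) :=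
  Tr.of_al (d.c_lt t ht0).le (d.c_alive t ht0) ht

/-- The badness of `s` at stage `t`. -/
def b (n s t : ℕ) : ℕ := bv hit t n (seg (d.z s) (2 * t))

theorem hit_mono {e s t n m : ℕ} {x : ℕ → Bool} (hst : s ≤ t) (hnm : n ≤ m)
    (h : hit e s (seg x n) = true) : hit e t (seg x m) = true := by
  rw [hit_seg_iff] at *
  obtain ⟨k, hk, h⟩ := h
  exact ⟨k, by omega, wst_mono hst h⟩

theorem b_mono (n s : ℕ) {t u : ℕ} (h : t ≤ u) : d.b n s u ≤ d.b n s t :=
  bv_le_of_imp hit (fun e he => hit_mono h (by omega) he) n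

theorem b_child (n : ℕ) {t u : ℕ} (ht : 0 < t) (h : t ≤ u) :
    d.b n t u ≤ d.b n (d.c t) t := by
  refine bv_le_of_imp hit (fun e he => ?_) n
  rw [← d.seg_parent ht le_rfl] at he
  exact hit_mono h (by omega) he

variable (hf : Function.Injective f)

include hf in
/-- The main lemma: eventually all true stages have the same (least possible) state. -/
theorem exists_final (n : ℕ) : ∃ T v, ∀ t, T < t → Tr f t →
    d.b n (d.c t) t = v ∧ ∀ u, t ≤ u → d.b n t u = v := by
  obtain ⟨t0, ht0, ht0'⟩ := exists_true hf 0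
  have hne : {v | ∃ s t, Tr f s ∧ s < t ∧ d.b n s t = v}.Nonempty :=
    ⟨_, t0, t0 + 1, ht0', by omega, rfl⟩
  obtain ⟨v, ⟨s1, t1, hs1, hst1, hv⟩, hmin⟩ := wellFounded_lt.has_min _ hne
  have hle : ∀ s t, Tr f s → s < t → v ≤ d.b n s t := by
    intro s t h1 h2
    by_contra hcon
    exact hmin _ ⟨s, t, h1, h2, rfl⟩ (not_le.1 hcon)
  refine ⟨max t1 n, v, fun t ht htr => ?_⟩
  have ht1 : t1 < t := lt_of_le_of_lt (le_max_left _ _) ht
  have htn : n < t := lt_of_le_of_lt (le_max_right _ _) ht
  have ht0 : 0 < t := by omega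
  have h1 : d.b n s1 t ≤ v := by
    rw [← hv]; exact d.b_mono n s1 ht1.le
  have h2 : d.b n (d.c t) t ≤ d.b n s1 t :=
    bv_le_of_le hit htn.le (d.c_best t ht0 s1 (by omega) (Al.of_true hs1 t))
  have h3 := hle _ t (d.true_parent ht0 htr) (d.c_lt t ht0)
  have h4 : d.b n (d.c t) t = v := by omega
  refine ⟨h4, fun u hu => ?_⟩
  have h5 := d.b_child n ht0 hu
  have h6 := hle t (u + 1) htr (by omega)
  have h7 := d.b_mono n t (show u ≤ u + 1 by omega)
  omega

include hf in
/-- For every c.e. open set, either eventually all true points are in it, with witnesses of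
bounded length, or only finitely many true points are in it. -/
theorem dich (e : ℕ) :
    (∃ T K, ∀ t, T < t → Tr f t → ∃ k ≤ K, k ≤ 2 * t ∧
      ∃ s, wst (List Bool) e s (seg (d.z t) k) = true) ∨
    (∃ T, ∀ t, T < t → Tr f t → d.z t ∉ U e) := by
  classical
  obtain ⟨T, v, hT⟩ := d.exists_final hf (e + 1)
  by_cases hv : v % 2 = 0
  · left
    -- a bound for the lengths of witnesses
    have hK : ∀ s, ∃ k0, (∃ k st, wst (List Bool) e st (seg (d.z s) k) = true) →
        (∀ k st, wst (List Bool) e st (seg (d.z s) k) = true → k0 ≤ k) ∧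
        ∃ st, wst (List Bool) e st (seg (d.z s) k0) = true := by
      intro s
      by_cases h : ∃ k st, wst (List Bool) e st (seg (d.z s) k) = true
      · refine ⟨Nat.find h, fun _ => ⟨fun k st hk => Nat.find_min' h ⟨st, hk⟩, Nat.find_spec h⟩⟩
      · exact ⟨0, fun h1 => absurd h1 h⟩
    choose g hg using hK
    refine ⟨T, (Finset.range (T + 1)).sup g, fun t => ?_⟩
    induction t using Nat.strong_induction_on with
    | _ t ih =>
      intro ht htr
      have ht0 : 0 < t := by omega
      obtain ⟨h1, -⟩ := hT t ht htr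
      have h2 : hit e t (seg (d.z (d.c t)) (2 * t)) = true := by
        rw [bv_mod]
        unfold b at h1
        rw [h1]; exact hv
      have hct := d.c_lt t ht0
      rcases Nat.lt_or_ge T (d.c t) with h3 | h3
      · obtain ⟨k, hk1, hk2, s, hs⟩ := ih _ hct h3 (d.true_parent ht0 htr)
        refine ⟨k, hk1, by omega, s, ?_⟩
        rw [d.seg_parent ht0 (by omega)]
        exact hs
      · obtain ⟨k, hk, hw⟩ := hit_seg_iff.1 h2
        obtain ⟨h4, h5⟩ := hg (d.c t) ⟨k, t, hw⟩
        have h6 := h4 k t hw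
        refine ⟨g (d.c t), ?_, by omega, ?_⟩
        · exact Finset.le_sup (f := g) (Finset.mem_range.2 (by omega))
        · rw [d.seg_parent ht0 (by omega)]
          exact h5
  · right
    refine ⟨T, fun t ht htr hU => hv ?_⟩
    obtain ⟨n, s, hs⟩ := hU
    have h1 := (hT t ht htr).2 (max t (max n s)) (le_max_left _ _)
    rw [← h1]
    unfold b
    rw [← bv_mod, hit_seg_iff]
    refine ⟨n, ?_, wst_mono ?_ hs⟩
    · have := le_max_right t (max n s)
      have := le_max_left n s
      omega
    · have := le_max_right t (max n s)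
      have := le_max_right n s
      omega

include hf in
theorem exists_bit (i : ℕ) : ∃ c : Bool, ∃ T, ∀ t, T < t → Tr f t → d.z t i = c := by
  have h1 : REPred fun σ : List Bool => σ[i]? = some true := RE.eq (by fun_prop) (by fun_prop)
  obtain ⟨e, he⟩ := wst_univ h1
  rcases d.dich hf e with ⟨T, K, h⟩ | ⟨T, h⟩
  · refine ⟨true, T, fun t ht htr => ?_⟩
    obtain ⟨k, -, -, hs⟩ := h t ht htr
    have h2 := (he _).2 hs
    by_cases hik : i < k
    · rw [seg_getElem? _ hik] at h2
      simpa using h2
    · rw [List.getElem?_eq_none (by rw [seg_length]; omega)] at h2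
      simp at h2
  · refine ⟨false, T, fun t ht htr => ?_⟩
    by_contra hcon
    rw [Bool.not_eq_false] at hcon
    apply h t ht htr
    obtain ⟨s, hs⟩ := (he (seg (d.z t) (i + 1))).1 (by
      rw [seg_getElem? _ (Nat.lt_succ_self i), hcon])
    exact ⟨_, s, hs⟩

/-- The limit point. -/
noncomputable def lim : ℕ → Bool := fun i => (d.exists_bit hf i).choose

theorem lim_spec (n : ℕ) : ∃ T, ∀ t, T < t → Tr f t → seg (d.z t) n = seg (d.lim hf) n := by
  induction n with
  | zero => exact ⟨0, fun _ _ _ => rfl⟩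
  | succ n ih =>
    obtain ⟨T, h⟩ := ih
    obtain ⟨T', h'⟩ := (d.exists_bit hf n).choose_spec
    refine ⟨max T T', fun t ht htr => ?_⟩
    rw [seg_succ, seg_succ, h t (lt_of_le_of_lt (le_max_left _ _) ht) htr,
      h' t (lt_of_le_of_lt (le_max_right _ _) ht) htr]
    rfl

/-- The dichotomy for c.e. open sets. -/
theorem lim_dich (e : ℕ) : d.lim hf ∈ U e ∨ ∃ T, ∀ t, T < t → Tr f t → d.z t ∉ U e := by
  rcases d.dich hf e with ⟨T, K, h⟩ | h
  · left
    obtain ⟨T', h'⟩ := d.lim_spec hf K
    obtain ⟨t, ht, htr⟩ := exists_true hf (max T T')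
    obtain ⟨k, hk, -, s, hs⟩ := h t (lt_of_le_of_lt (le_max_left _ _) ht) htr
    have h1 := h' t (lt_of_le_of_lt (le_max_right _ _) ht) htr
    refine ⟨k, s, ?_⟩
    rw [← seg_mono_eq h1 hk]
    exact hs
  · right; exact h

theorem lim_odd (i : ℕ) : d.lim hf (2 * i + 1) = false := by
  obtain ⟨T, h⟩ := d.lim_spec hf (2 * i + 2)
  obtain ⟨t, ht, htr⟩ := exists_true hf T
  rw [← seg_eq_iff.1 (h t ht htr) (2 * i + 1) (by omega)]
  exact d.z_odd t i

end Data

section existence

open Data

/-- The point coded by a string. -/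
def pt (σ : List Bool) : ℕ → Bool := fun i => (σ[i]?).getD false

theorem pt_seg_comp : Computable fun p : List Bool × ℕ => seg (pt p.1) p.2 := by
  unfold seg pt
  have h1 : Primrec₂ fun (p : List Bool × ℕ) (i : ℕ) => (p.1[i]?).getD false :=
    Primrec.option_getD.comp (Primrec.list_getElem?.comp (Primrec.fst.comp Primrec.fst)
      Primrec.snd) (Primrec.const false)
  exact (Primrec.list_map (Primrec.list_range.comp Primrec.snd) h1).to_comp

variable {f : ℕ → ℕ}

/-- The step relation: `s` is the chosen parent. -/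
def Par (f : ℕ → ℕ) (h : List (List Bool)) (s : ℕ) : Prop :=
  s < h.length ∧ Al f s h.length ∧ ∀ s' < h.length, Al f s' h.length →
    bv hit h.length h.length (seg (pt ((h[s]?).getD [])) (2 * h.length)) ≤
    bv hit h.length h.length (seg (pt ((h[s']?).getD [])) (2 * h.length))

/-- The step relation. -/
def Step (f : ℕ → ℕ) (h : List (List Bool)) (σ : List Bool) : Prop :=
  (h = [] ∧ σ = []) ∨
  (h ≠ [] ∧ ∃ s, Par f h s ∧ σ = seg (pt ((h[s]?).getD [])) (2 * h.length) ++ [true])

theorem al_cp {α : Type*} [Primcodable α] (hf : Computable f) {g k : α → ℕ}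
    (hg : Computable g) (hk : Computable k) :
    ComputablePred fun a => Al f (g a) (k a) := by
  have h1 : ComputablePred fun a => ∀ r < k a + 1, ¬ (g a < r ∧ f r ≤ f (g a)) := by
    refine cp_of_re ?_ ?_
    · refine all_lt (p := fun a r => ¬ (g a < r ∧ f r ≤ f (g a))) ?_ (by fun_prop)
      have h2 : REPred fun x : α × ℕ => x.2 ≤ g x.1 ∨ f (g x.1) < f x.2 :=
        RE.or (RE.le (by fun_prop) (by fun_prop)) (RE.lt (by fun_prop) (by fun_prop))
      refine h2.of_eq fun x => ?_
      rw [not_and_or, not_lt, not_le]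
    · have h2 : REPred fun a => ∃ r, r < k a + 1 ∧ (g a < r ∧ f r ≤ f (g a)) := by
        refine exN (p := fun a r => r < k a + 1 ∧ (g a < r ∧ f r ≤ f (g a))) ?_
        exact RE.and (RE.lt (by fun_prop) (by fun_prop))
          (RE.and (RE.lt (by fun_prop) (by fun_prop)) (RE.le (by fun_prop) (by fun_prop)))
      refine h2.of_eq fun a => ?_
      push Not
      rfl
  refine h1.of_eq fun a => ?_
  constructor
  · intro h r h2 h3
    have := h r (by omega)
    rw [not_and] at this
    exact not_le.1 (this h2)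
  · rintro h r h2 ⟨h3, h4⟩
    have := h r h3 (by omega)
    omega

theorem step_re (hf : Computable f) :
    REPred fun p : List (List Bool) × List Bool => Step f p.1 p.2 := by
  have hbv : Computable fun p : List (List Bool) × ℕ =>
      bv hit p.1.length p.1.length (seg (pt ((p.1[p.2]?).getD [])) (2 * p.1.length)) := by
    have h1 : Computable fun p : List (List Bool) × ℕ => (p.1[p.2]?).getD [] :=
      Primrec.option_getD.to_comp.comp (by fun_prop) (by fun_prop)
    have h2 : Computable fun p : List (List Bool) × ℕ =>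
        seg (pt ((p.1[p.2]?).getD [])) (2 * p.1.length) :=
      pt_seg_comp.comp (g := fun p : List (List Bool) × ℕ =>
        ((p.1[p.2]?).getD [], 2 * p.1.length)) (by fun_prop)
    exact (bv_comp hit_comp).comp (g := fun p : List (List Bool) × ℕ =>
      ((p.1.length, p.1.length), seg (pt ((p.1[p.2]?).getD [])) (2 * p.1.length)))
      (by fun_prop)
  have hpar : REPred fun p : List (List Bool) × ℕ => Par f p.1 p.2 := by
    unfold Par
    refine RE.and (RE.lt (by fun_prop) (by fun_prop)) (RE.and ?_ ?_)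
    · exact (al_cp hf (by fun_prop) (by fun_prop)).to_re
    · refine all_lt (p := fun (p : List (List Bool) × ℕ) s' => Al f s' p.1.length →
        bv hit p.1.length p.1.length (seg (pt ((p.1[p.2]?).getD [])) (2 * p.1.length)) ≤
        bv hit p.1.length p.1.length (seg (pt ((p.1[s']?).getD [])) (2 * p.1.length))) ?_
        (by fun_prop)
      have h1 : REPred fun x : (List (List Bool) × ℕ) × ℕ => ¬ Al f x.2 x.1.1.length :=
        (al_cp hf (by fun_prop) (by fun_prop)).not.to_re
      have h2 : REPred fun x : (List (List Bool) × ℕ) × ℕ =>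
          bv hit x.1.1.length x.1.1.length
            (seg (pt ((x.1.1[x.1.2]?).getD [])) (2 * x.1.1.length)) ≤
          bv hit x.1.1.length x.1.1.length
            (seg (pt ((x.1.1[x.2]?).getD [])) (2 * x.1.1.length)) := by
        refine RE.le ?_ ?_
        · exact hbv.comp (g := fun x : (List (List Bool) × ℕ) × ℕ => (x.1.1, x.1.2))
            (by fun_prop)
        · exact hbv.comp (g := fun x : (List (List Bool) × ℕ) × ℕ => (x.1.1, x.2))
            (by fun_prop)
      refine (RE.or h1 h2).of_eq fun x => ?_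
      exact imp_iff_not_or.symm
  unfold Step
  refine RE.or (RE.and (RE.eq (by fun_prop) (by fun_prop)) (RE.eq (by fun_prop) (by fun_prop)))
    (RE.and (RE.ne (by fun_prop) (by fun_prop)) ?_)
  refine exN (p := fun (p : List (List Bool) × List Bool) s =>
    Par f p.1 s ∧ p.2 = seg (pt ((p.1[s]?).getD [])) (2 * p.1.length) ++ [true]) ?_
  refine RE.and ?_ (RE.eq (by fun_prop) ?_)
  · exact RE.comp hpar (f := fun x : (List (List Bool) × List Bool) × ℕ => (x.1.1, x.2))
      (by fun_prop)
  · have h1 : Computable fun x : (List (List Bool) × List Bool) × ℕ =>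
        (x.1.1[x.2]?).getD [] :=
      Primrec.option_getD.to_comp.comp (by fun_prop) (by fun_prop)
    have h2 : Computable fun x : (List (List Bool) × List Bool) × ℕ =>
        seg (pt ((x.1.1[x.2]?).getD [])) (2 * x.1.1.length) :=
      pt_seg_comp.comp (g := fun x : (List (List Bool) × List Bool) × ℕ =>
        ((x.1.1[x.2]?).getD [], 2 * x.1.1.length)) (by fun_prop)
    exact cappend h2 (by fun_prop)

theorem pt_seg_append (x : ℕ → Bool) (n : ℕ) (hx : ∀ i, n ≤ i → x i = false) :
    pt (seg x n ++ [true]) = Function.update x n true := by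
  funext i
  unfold pt
  rcases Nat.lt_trichotomy i n with h | h | h
  · rw [List.getElem?_append_left (by rw [seg_length]; exact h), seg_getElem? _ h,
      Function.update_of_ne (by omega)]
    rfl
  · subst h
    rw [List.getElem?_append_right (by rw [seg_length]), seg_length, Nat.sub_self,
      Function.update_self]
    rfl
  · rw [List.getElem?_eq_none (by simp; omega), Function.update_of_ne (by omega), hx i (by omega)]
    rfl

/-- The tree can be built effectively. -/
theorem exists_data (hf : Computable f) (hf0 : ∀ r, 0 < r → f 0 < f r) :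
    ∃ d : Data f, Computable fun p : ℕ × ℕ => d.z p.1 p.2 := by
  classical
  obtain ⟨nx, hnx, hdom, hspec⟩ := uniformize (r := fun h σ => Step f h σ) (step_re hf)
  have htot : ∀ h, (nx h).Dom := by
    intro h
    rw [hdom]
    by_cases hh : h = []
    · exact ⟨[], Or.inl ⟨hh, rfl⟩⟩
    · have hlen : 0 < h.length := List.length_pos_iff.2 hh
      have hne : {v | ∃ s, s < h.length ∧ Al f s h.length ∧ bv hit h.length h.length
          (seg (pt ((h[s]?).getD [])) (2 * h.length)) = v}.Nonempty :=
        ⟨_, 0, hlen, fun r hr _ => hf0 r hr, rfl⟩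
      obtain ⟨v, ⟨s, h1, h2, h3⟩, hmin⟩ := wellFounded_lt.has_min _ hne
      refine ⟨_, Or.inr ⟨hh, s, ⟨h1, h2, fun s' h4 h5 => ?_⟩, rfl⟩⟩
      rw [h3]
      exact not_lt.1 (hmin _ ⟨s', h4, h5, rfl⟩)
  let nxt : List (List Bool) → List Bool := fun h => (nx h).get (htot h)
  have hnxt : Computable nxt := hnx.of_eq_tot fun h => Part.get_mem _
  have hstep : ∀ h, Step f h (nxt h) := fun h => hspec h _ (Part.get_mem _)
  let Hs : ℕ → List (List Bool) := fun n => Nat.rec (motive := fun _ => List (List Bool)) []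
    (fun _ IH => IH ++ [nxt IH]) n
  have hHs : Computable Hs := by
    refine Computable.nat_rec (f := fun n : ℕ => n) (g := fun _ => ([] : List (List Bool)))
      (h := fun _ (q : ℕ × List (List Bool)) => q.2 ++ [nxt q.2]) (by fun_prop)
      (by fun_prop) ?_
    unfold Computable₂
    fun_prop
  have hH0 : Hs 0 = [] := rfl
  have hHsucc : ∀ n, Hs (n + 1) = Hs n ++ [nxt (Hs n)] := fun n => rfl
  have hlen : ∀ n, (Hs n).length = n := by
    intro n
    induction n with
    | zero => rfl
    | succ n ih => rw [hHsucc, List.length_append, ih]; rfl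
  have hget : ∀ n t, t < n → (Hs n)[t]? = some (nxt (Hs t)) := by
    intro n t htn
    induction n, (show t + 1 ≤ n from htn) using Nat.le_induction with
    | base =>
      rw [hHsucc, List.getElem?_append_right (by rw [hlen]), hlen, Nat.sub_self]
      rfl
    | succ n hn ih =>
      rw [hHsucc, List.getElem?_append_left (by rw [hlen]; omega)]
      exact ih (by omega)
  let z : ℕ → ℕ → Bool := fun t => pt (nxt (Hs t))
  have hzget : ∀ n t, t < n → pt (((Hs n)[t]?).getD []) = z t := by
    intro n t htn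
    rw [hget n t htn]
    rfl
  have hne : ∀ t, 0 < t → Hs t ≠ [] := by
    intro t ht h
    have := hlen t
    rw [h] at this
    simp at this
    omega
  have hpar : ∀ t, 0 < t → ∃ s, Par f (Hs t) s ∧
      nxt (Hs t) = seg (pt (((Hs t)[s]?).getD [])) (2 * (Hs t).length) ++ [true] := by
    intro t ht
    rcases hstep (Hs t) with ⟨h1, -⟩ | ⟨-, h⟩
    · exact absurd h1 (hne t ht)
    · exact h
  have hz0 : z 0 = fun _ => false := by
    have h1 : nxt (Hs 0) = [] := by
      rcases hstep (Hs 0) with ⟨-, h⟩ | ⟨h, -⟩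
      · exact h
      · exact absurd rfl h
    show pt (nxt (Hs 0)) = _
    rw [h1]
    funext i
    simp [pt]
  choose! c hc hc2 using hpar
  have hc_lt : ∀ t, 0 < t → c t < t := by
    intro t ht
    have := (hc t ht).1
    rwa [hlen] at this
  have hzs' : ∀ t, 0 < t → nxt (Hs t) = seg (z (c t)) (2 * t) ++ [true] := by
    intro t ht
    have h1 := hc2 t ht
    rw [hzget t (c t) (hc_lt t ht), hlen] at h1
    exact h1
  have hzb : ∀ t i, 2 * t < i → z t i = false := by
    intro t i hi
    rcases Nat.eq_zero_or_pos t with rfl | ht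
    · rw [hz0]
    · show pt (nxt (Hs t)) i = false
      rw [hzs' t ht]
      unfold pt
      rw [List.getElem?_eq_none (by simp; omega)]
      rfl
  refine ⟨⟨z, c, hz0, hc_lt, ?_, ?_, ?_⟩, ?_⟩
  · intro t ht
    have := (hc t ht).2.1
    rwa [hlen] at this
  · intro t ht s hs hal
    have h1 := (hc t ht).2.2 s (by rw [hlen]; exact hs) (by rw [hlen]; exact hal)
    rw [hzget t s hs, hzget t (c t) (hc_lt t ht), hlen] at h1
    exact h1
  · intro t ht
    show pt (nxt (Hs t)) = _
    rw [hzs' t ht]
    refine pt_seg_append _ _ fun i hi => ?_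
    apply hzb
    have := hc_lt t ht
    omega
  · show Computable fun p : ℕ × ℕ => ((nxt (Hs p.1))[p.2]?).getD false
    exact Primrec.option_getD.to_comp.comp (by fun_prop) (by fun_prop)

end existence

end Pool.Agent.Helper446.Tree
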