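import Pool.Agent.Helper446.Cls

/-!
See the statement at the end of the file.
-/

namespace Pool.Agent.Helper446.Upper

open Encodable Pool.Agent.Helper446.RE Pool.Agent.Helper446.Defs Pool.Agent.Helper446.Tree
  Pool.Agent.Helper446.Oracle Pool.Agent.Helper446.Cls

/-- The points of `P` extending the string `s`. -/
def PS (P : Set (ℕ → Bool)) (s : List Bool) : Set (ℕ → Bool) := {y ∈ P | seg y s.length = s}

theorem PS_seg {P : Set (ℕ → Bool)} {x y : ℕ → Bool} {n : ℕ} :
    y ∈ PS P (seg x n) ↔ y ∈ P ∧ seg y n = seg x n := by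
  show (y ∈ P ∧ seg y (seg x n).length = seg x n) ↔ _
  rw [seg_length]

theorem PS_mono {P : Set (ℕ → Bool)} {s t : List Bool} (h : s <+: t) : PS P t ⊆ PS P s := by
  rintro y ⟨hy, h1⟩
  refine ⟨hy, ?_⟩
  have h2 : s.length ≤ t.length := h.length_le
  rw [← seg_take y h2, h1]
  exact (List.prefix_iff_eq_take.1 h).symm

/-- The class of points whose segment of length `n` is in the list `l`. -/
theorem isPi01_list (n : ℕ) (l : List (List Bool)) : IsPi01 {y | seg y n ∈ l} := by
  rw [isPi01_iff]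
  refine ⟨{σ | σ.length = n ∧ σ ∉ l}, ?_, ?_⟩
  · exact RE.and (RE.eq (by fun_prop) (by fun_prop)) (not_mem_list (by fun_prop) (by fun_prop))
  · ext y
    constructor
    · intro h m hm
      obtain ⟨h1, h2⟩ := hm
      rw [seg_length] at h1
      rw [h1] at h2
      exact h2 h
    · intro h
      by_contra h1
      exact h n ⟨seg_length y n, h1⟩

theorem isPi01_PS {P : Set (ℕ → Bool)} (hP : IsPi01 P) (s : List Bool) : IsPi01 (PS P s) := by
  have h := IsPi01.inter hP (isPi01_list s.length [s])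
  have e : PS P s = P ∩ {y | seg y s.length ∈ [s]} := by
    ext y
    simp [PS]
  rw [e]; exact h

/-- (0) an infinite piece contains a point all of whose neighbourhoods are infinite -/
theorem exists_limit {P : Set (ℕ → Bool)} (hP : IsPi01 P) {s : List Bool}
    (hs : (PS P s).Infinite) :
    ∃ d ∈ P, seg d s.length = s ∧ ∀ n, (PS P (seg d n)).Infinite := by
  obtain ⟨x, hx, hxs⟩ := exists_path (T := {σ | (PS P σ).Infinite})
    (fun σ τ h hτ => Set.Infinite.mono (PS_mono h) hτ) s (by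
      intro n
      by_contra hcon
      push Not at hcon
      apply hs
      have hfin : (⋃ τ ∈ allStr n, PS P (s ++ τ)).Finite := by
        have : (⋃ τ ∈ {τ | τ ∈ allStr n}, PS P (s ++ τ)).Finite := by
          apply Set.Finite.biUnion
          · exact List.finite_toSet _
          · intro τ hτ
            have h1 := hcon τ (mem_allStr.1 hτ)
            by_contra h2
            exact h1 h2
        exact this
      apply hfin.subset
      rintro y ⟨hy, hys⟩
      have h1 : s <+: seg y (s.length + n) := by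
        have := seg_prefix y (Nat.le_add_right s.length n)
        rwa [hys] at this
      obtain ⟨τ, hτ⟩ := h1
      have hl : τ.length = n := by
        have := congrArg List.length hτ
        rw [List.length_append, seg_length] at this
        omega
      rw [Set.mem_iUnion₂]
      refine ⟨τ, mem_allStr.2 hl, hy, ?_⟩
      rw [hτ, seg_length])
  refine ⟨x, ?_, hxs, hx⟩
  apply mem_of_ext hP
  intro n
  obtain ⟨y, hy⟩ := (hx n).nonempty
  rw [PS_seg] at hy
  exact ⟨y, hy.1, by rw [seg_length]; exact hy.2⟩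

/-- (1) pigeonhole -/
theorem pigeon {P : Set (ℕ → Bool)} {S : Set (Set (ℕ → Bool))}
    (hS : ∀ X, IsPi01 X → X ⊆ P → ∃ Y ∈ S, (symmDiff X Y).Finite) {ι : Type}
    (hι : ∀ f : ι → S, ∃ i j, i ≠ j ∧ f i = f j) (X : ι → Set (ℕ → Bool))
    (hX : ∀ i, IsPi01 (X i) ∧ X i ⊆ P) : ∃ i j, i ≠ j ∧ (symmDiff (X i) (X j)).Finite := by
  have h1 : ∀ i, ∃ Y ∈ S, (symmDiff (X i) Y).Finite := fun i => hS _ (hX i).1 (hX i).2
  choose Y hYS hY using h1
  obtain ⟨i, j, hij, hf⟩ := hι (fun i => ⟨Y i, hYS i⟩)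
  refine ⟨i, j, hij, ?_⟩
  have e : Y i = Y j := congrArg Subtype.val hf
  have h2 : symmDiff (X i) (X j) ⊆ symmDiff (X i) (Y i) ∪ symmDiff (X j) (Y j) := by
    rw [← e]
    intro y hy
    rw [Set.mem_symmDiff] at hy
    rw [Set.mem_union, Set.mem_symmDiff, Set.mem_symmDiff]
    tauto
  exact ((hY i).union (hY j)).subset h2

theorem D_finite {P : Set (ℕ → Bool)} (hP : IsPi01 P) (hfin : FiniteStar P) :
    {d ∈ P | ∀ n, (PS P (seg d n)).Infinite}.Finite := by
  classical
  obtain ⟨S, hSf, _, hS⟩ := hfin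
  by_contra hinf
  have hinf' : {d ∈ P | ∀ n, (PS P (seg d n)).Infinite}.Infinite := hinf
  have : Finite S := hSf
  have : Fintype S := Fintype.ofFinite S
  let m := Fintype.card S
  let g := hinf'.natEmbedding
  -- a separating level
  have hsep : ∀ i j : Fin (m + 1), ∃ a : ℕ, i ≠ j → (g i).1 a ≠ (g j).1 a := by
    intro i j
    by_cases hij : i = j
    · exact ⟨0, fun h => absurd hij h⟩
    · have h1 : (g i).1 ≠ (g j).1 := by
        intro h
        have h2 := g.injective (Subtype.ext h)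
        exact hij (Fin.ext h2)
      by_contra hcon
      push Not at hcon
      apply h1
      funext a
      exact (hcon a).2
  choose a ha using hsep
  let n := (Finset.univ : Finset (Fin (m + 1) × Fin (m + 1))).sup (fun p => a p.1 p.2 + 1)
  have hn : ∀ i j, a i j < n := by
    intro i j
    have := Finset.le_sup (f := fun p : Fin (m + 1) × Fin (m + 1) => a p.1 p.2 + 1)
      (Finset.mem_univ (i, j))
    exact Nat.lt_of_succ_le this
  obtain ⟨i, j, hij, hf⟩ := pigeon (P := P) (S := S) hS (ι := Fin (m + 1)) (by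
      intro f
      obtain ⟨i, j, h1, h2⟩ := Fintype.exists_ne_map_eq_of_card_lt f (by
        rw [Fintype.card_fin]
        exact Nat.lt_succ_self _)
      exact ⟨i, j, h1, h2⟩) (fun i => PS P (seg (g i).1 n)) (fun i => ⟨isPi01_PS hP _, fun y hy => hy.1⟩)
  have hinfi : (PS P (seg (g i).1 n)).Infinite := (g i).2.2 n
  apply hinfi
  apply hf.subset
  intro y hy
  rw [Set.mem_symmDiff]
  left
  refine ⟨hy, fun hy' => ?_⟩
  rw [PS_seg] at hy hy'
  have h1 : seg (g i).1 n = seg (g j).1 n := hy.2.symm.trans hy'.2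
  rw [seg_eq_iff] at h1
  exact ha i j hij (h1 _ (hn i j))

/-- (2) -/
theorem boolean_of {P : Set (ℕ → Bool)} {D : Set (ℕ → Bool)} (hP : IsPi01 P) (hDf : D.Finite)
    (hDP : D ⊆ P) (h : ∀ R, IsPi01 R → D ⊆ R → R ⊆ P → (P \ R).Finite) : BooleanStar P := by
  classical
  intro X hX hXP
  have h1 : ∀ d : ℕ → Bool, ∃ n, d ∈ D \ X → seg d n ∉ Ext X := by
    intro d
    by_cases hd : d ∈ D \ X
    · by_contra hcon
      push Not at hcon
      exact hd.2 (mem_of_ext hX (fun n => (hcon n).2))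
    · exact ⟨0, fun h => absurd h hd⟩
  choose nd hnd using h1
  let n := hDf.toFinset.sup nd
  have hn : ∀ d ∈ D \ X, seg d n ∉ Ext X := by
    intro d hd h2
    apply hnd d hd
    apply ext_prefix (seg_prefix d _) h2
    exact Finset.le_sup (hDf.mem_toFinset.2 hd.1)
  have hLf : ((fun d => seg d n) '' (D \ X)).Finite := (hDf.subset Set.sdiff_subset).image _
  let l : List (List Bool) := hLf.toFinset.toList
  have hl : ∀ σ, σ ∈ l ↔ ∃ d ∈ D \ X, seg d n = σ := by
    intro σ
    simp only [l, Finset.mem_toList, Set.Finite.mem_toFinset, Set.mem_image]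
  have hYpi : IsPi01 (P ∩ {y | seg y n ∈ l}) := IsPi01.inter hP (isPi01_list n l)
  refine ⟨P ∩ {y | seg y n ∈ l}, hYpi, Set.inter_subset_left, ?_, ?_⟩
  · convert Set.finite_empty
    rw [Set.eq_empty_iff_forall_notMem]
    rintro y ⟨hyX, _, hyl⟩
    obtain ⟨d, hd, hdy⟩ := (hl _).1 hyl
    apply hn d hd
    rw [hdy]
    exact seg_mem_ext hyX n
  · apply h
    · exact IsPi01.union hX hYpi
    · intro d hd
      by_cases hdX : d ∈ X
      · exact Or.inl hdX
      · exact Or.inr ⟨hDP hd, (hl _).2 ⟨d, ⟨hd, hdX⟩, rfl⟩⟩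
    · exact Set.union_subset hXP Set.inter_subset_left

/-- (3) -/
theorem exists_max {P : Set (ℕ → Bool)} (hfin : FiniteStar P)
    {R0 : Set (ℕ → Bool)} (hR0 : IsPi01 R0) (hR0P : R0 ⊆ P) (hinf : (P \ R0).Infinite) :
    ∃ R, IsPi01 R ∧ R0 ⊆ R ∧ R ⊆ P ∧ (P \ R).Infinite ∧
      ∀ R', IsPi01 R' → R ⊆ R' → R' ⊆ P → (R' \ R).Finite ∨ (P \ R').Finite := by
  obtain ⟨S, hSf, _, hS⟩ := hfin
  by_contra hcon
  push Not at hcon
  let Q := {R : Set (ℕ → Bool) // IsPi01 R ∧ R0 ⊆ R ∧ R ⊆ P ∧ (P \ R).Infinite}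
  have hstep : ∀ R : Q, ∃ R' : Q, R.1 ⊆ R'.1 ∧ (R'.1 \ R.1).Infinite := by
    rintro ⟨R, h1, h2, h3, h4⟩
    obtain ⟨R', h5, h6, h7, h8, h9⟩ := hcon R h1 h2 h3 h4
    exact ⟨⟨R', h5, h2.trans h6, h7, h9⟩, h6, h8⟩
  choose nx hnx1 hnx2 using hstep
  let F : ℕ → Q := fun n => Nat.rec ⟨R0, hR0, subset_rfl, hR0P, hinf⟩ (fun _ R => nx R) n
  have hF : ∀ n, F (n + 1) = nx (F n) := fun n => rfl
  have hmono : ∀ i j, i ≤ j → (F i).1 ⊆ (F j).1 := by
    intro i j hij
    induction j, hij using Nat.le_induction with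
    | base => exact subset_rfl
    | succ j _ ih => exact ih.trans (by rw [hF]; exact hnx1 _)
  have : Finite S := hSf
  obtain ⟨i, j, hij, hf⟩ := pigeon (P := P) (S := S) hS (ι := ℕ) (by
      intro f
      obtain ⟨i, j, h1, h2⟩ := Finite.exists_ne_map_eq_of_infinite f
      exact ⟨i, j, h1, h2⟩) (fun i => (F i).1) (fun i => ⟨(F i).2.1, (F i).2.2.2.1⟩)
  have key : ∀ i j, i < j → (symmDiff (F i).1 (F j).1).Finite → False := by
    intro i j hij hf
    have h1 : ((F (i + 1)).1 \ (F i).1).Infinite := by rw [hF]; exact hnx2 _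
    apply h1
    apply hf.subset
    rintro y ⟨hy1, hy2⟩
    rw [Set.mem_symmDiff]
    exact Or.inr ⟨hmono (i + 1) j hij hy1, hy2⟩
  rcases lt_or_gt_of_ne hij with h | h
  · exact key i j h hf
  · exact key j i h (by rw [symmDiff_comm]; exact hf)

/-- If `L(P)^*` is finite and not Boolean then some computable set of nodes meets the extendible
nodes of `P` in an infinite cohesive set. -/
theorem exists_cohesive_nodes {P : Set (ℕ → Bool)} (hP : IsPi01 P) (hfin : FiniteStar P)
    (hnb : ¬ BooleanStar P) :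
    ∃ S : Set (List Bool), ComputablePred (fun σ => σ ∈ S) ∧ (S ∩ Ext P).Infinite ∧
      ∀ W : Set (List Bool), REPred (fun σ => σ ∈ W) →
        ((S ∩ Ext P) ∩ W).Finite ∨ ((S ∩ Ext P) \ W).Finite := by
  classical
  have hDf := D_finite hP hfin
  set D := {d ∈ P | ∀ n, (PS P (seg d n)).Infinite} with hD
  have hDP : D ⊆ P := fun d hd => hd.1
  have h0 : ∃ R0, IsPi01 R0 ∧ D ⊆ R0 ∧ R0 ⊆ P ∧ (P \ R0).Infinite := by
    by_contra hcon
    push Not at hcon
    exact hnb (boolean_of hP hDf hDP hcon)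
  obtain ⟨R0, hR0, hDR0, hR0P, hinf0⟩ := h0
  obtain ⟨R, hR, hR0R, hRP, hinf, hmax⟩ := exists_max hfin hR0 hR0P hinf0
  have hDR : D ⊆ R := hDR0.trans hR0R
  obtain ⟨T, hT, hpre, hRT⟩ := hR
  set S : Set (List Bool) := {s | s ∉ T ∧ ∀ i < s.length, s.take i ∈ T} with hSd
  have hSc : ComputablePred (fun σ => σ ∈ S) := by
    have h2 : Computable fun x : List Bool × ℕ => x.1.take x.2 := ctake (by fun_prop) (by fun_prop)
    refine cp_of_re ?_ ?_
    · refine RE.and hT.not.to_re ?_
      refine all_lt (p := fun (σ : List Bool) i => σ.take i ∈ T) ?_ (by fun_prop)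
      exact RE.comp hT.to_re h2
    · have h3 : REPred fun σ : List Bool => σ ∈ T ∨ ∃ i, i < σ.length ∧ σ.take i ∉ T := by
        refine RE.or hT.to_re ?_
        refine exN (p := fun (σ : List Bool) i => i < σ.length ∧ σ.take i ∉ T) ?_
        exact RE.and (RE.lt (by fun_prop) (by fun_prop)) (RE.comp hT.not.to_re h2)
      refine h3.of_eq fun σ => ?_
      show _ ↔ ¬ (σ ∉ T ∧ ∀ i < σ.length, σ.take i ∈ T)
      constructor
      · rintro (h4 | ⟨i, h4, h5⟩) ⟨h6, h7⟩
        · exact h6 h4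
        · exact h5 (h7 i h4)
      · intro h4
        by_contra h5
        push Not at h5
        exact h4 h5
  have hmemR : ∀ y, y ∈ R ↔ ∀ n, seg y n ∈ T := by
    intro y
    rw [hRT]; rfl
  -- antichain
  have hanti : ∀ (y : ℕ → Bool) (n m : ℕ), seg y n ∈ S → seg y m ∈ S → n = m := by
    have key : ∀ (y : ℕ → Bool) (n m : ℕ), n < m → seg y n ∈ S → seg y m ∈ S → False := by
      intro y n m hnm h1 h2
      apply h1.1
      have h3 := h2.2 n (by rw [seg_length]; exact hnm)
      rwa [seg_take y hnm.le] at h3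
    intro y n m h1 h2
    by_contra hne
    rcases lt_or_gt_of_ne hne with h | h
    · exact key y n m h h1 h2
    · exact key y m n h h2 h1
  have hcover : ∀ y ∈ P \ R, ∃ n, seg y n ∈ S := by
    rintro y ⟨hyP, hyR⟩
    rw [hmemR] at hyR
    push Not at hyR
    refine ⟨Nat.find hyR, Nat.find_spec hyR, ?_⟩
    intro i hi
    rw [seg_length] at hi
    rw [seg_take y hi.le]
    by_contra h
    exact Nat.find_min hyR hi h
  have hPSfin : ∀ s ∈ S, (PS P s).Finite := by
    intro s hs
    by_contra hi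
    obtain ⟨d, hdP, hds, hdi⟩ := exists_limit hP hi
    have hdD : d ∈ D := ⟨hdP, hdi⟩
    have := (hmemR d).1 (hDR hdD) s.length
    rw [hds] at this
    exact hs.1 this
  have hnotR : ∀ s ∈ S, ∀ y ∈ PS P s, y ∉ R := by
    rintro s hs y ⟨_, hys⟩ hyR
    have := (hmemR y).1 hyR s.length
    rw [hys] at this
    exact hs.1 this
  refine ⟨S, hSc, ?_, ?_⟩
  · intro hCf
    apply hinf
    have h1 : (⋃ s ∈ S ∩ Ext P, PS P s).Finite := hCf.biUnion (fun s hs => hPSfin s hs.1)
    apply h1.subset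
    intro y hy
    obtain ⟨n, hn⟩ := hcover y hy
    rw [Set.mem_iUnion₂]
    exact ⟨seg y n, ⟨hn, seg_mem_ext hy.1 n⟩, PS_seg.2 ⟨hy.1, rfl⟩⟩
  · intro W hW
    -- choose points
    have hpt : ∀ s : List Bool, ∃ y, s ∈ Ext P → y ∈ PS P s := by
      intro s
      by_cases hs : s ∈ Ext P
      · obtain ⟨y, hy, hys⟩ := hs
        exact ⟨y, fun _ => ⟨hy, hys⟩⟩
      · exact ⟨fun _ => false, fun h => absurd h hs⟩
    choose pt hpt using hpt
    have hinj : Set.InjOn pt (S ∩ Ext P) := by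
      intro s hs s' hs' he
      have h1 := (hpt s hs.2).2
      have h2 := (hpt s' hs'.2).2
      rw [← he] at h2
      have h3 := hanti (pt s) s.length s'.length (by rw [h1]; exact hs.1) (by rw [h2]; exact hs'.1)
      rw [← h1, ← h2, h3]
    set R' : Set (ℕ → Bool) := {y ∈ P | ∀ n, ¬ (seg y n ∈ S ∧ seg y n ∈ W)} with hR'
    have hR'pi : IsPi01 R' := by
      have h1 : IsPi01 {y | ∀ n, seg y n ∉ S ∩ W} := by
        rw [isPi01_iff]
        exact ⟨S ∩ W, RE.and hSc.to_re hW, rfl⟩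
      have e : R' = P ∩ {y | ∀ n, seg y n ∉ S ∩ W} := rfl
      rw [e]
      exact IsPi01.inter hP h1
    have hRR' : R ⊆ R' := by
      intro y hy
      refine ⟨hRP hy, fun n h => ?_⟩
      exact h.1.1 ((hmemR y).1 hy n)
    rcases hmax R' hR'pi hRR' (fun y hy => hy.1) with h | h
    · right
      apply Set.Finite.of_finite_image (f := pt) _ (hinj.mono Set.sdiff_subset)
      apply h.subset
      rintro _ ⟨s, ⟨hs, hsW⟩, rfl⟩
      have h1 := hpt s hs.2
      refine ⟨⟨h1.1, ?_⟩, hnotR s hs.1 _ h1⟩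
      rintro n ⟨hn1, hn2⟩
      have h2 := hanti (pt s) n s.length hn1 (by rw [h1.2]; exact hs.1)
      rw [h2, h1.2] at hn2
      exact hsW hn2
    · left
      apply Set.Finite.of_finite_image (f := pt) _ (hinj.mono Set.inter_subset_left)
      apply h.subset
      rintro _ ⟨s, ⟨hs, hsW⟩, rfl⟩
      have h1 := hpt s hs.2
      refine ⟨h1.1, ?_⟩
      rintro ⟨_, h2⟩
      apply h2 s.length
      rw [h1.2]
      exact ⟨hs.1, hsW⟩

end Pool.Agent.Helper446.Upper
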